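import Pool.Agent.MP_4f1c5b_al.H20.Spec

/-!
Row Bch: the Baker-Campbell-Hausdorff formula for the truncated exponential.
-/

namespace Pool.Agent.MP_4f1c5b_al.H20

open Polynomial

namespace BchA

variable {A S : Type} [CommRing A] [Ring S] [Algebra A S] {n : ℕ} {J : ℕ → Submodule A S}

/-- Lie polynomials of weight at least `k`, as a submodule. -/
def L (A : Type) [CommRing A] [Algebra A S] (x y : S) (k : ℕ) : Submodule A S where
  carrier := {a | LF A x y k a}
  add_mem' := fun ha hb => LF.add ha hb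
  zero_mem' := LF.zero k
  smul_mem' := fun c _ ha => LF.smul c ha

theorem L_mono {x y a : S} {k l : ℕ} (h : a ∈ L A x y l) (hkl : k ≤ l) : a ∈ L A x y k := by
  induction hkl with
  | refl => exact h
  | step _ ih => exact ih (LF.mono h)

/-- The diagonal filtration. -/
def G (J : ℕ → Submodule A S) (k : ℕ) : Submodule A S[X] where
  carrier := {H | ∀ i, H.coeff i ∈ J i ∧ (i < k → H.coeff i = 0)}
  add_mem' := fun {a b} ha hb i => by
    rw [coeff_add]
    exact ⟨(J i).add_mem (ha i).1 (hb i).1, fun h => by rw [(ha i).2 h, (hb i).2 h, add_zero]⟩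
  zero_mem' := fun i => ⟨(J i).zero_mem, fun _ => rfl⟩
  smul_mem' := fun c a ha i => by
    rw [coeff_smul]
    exact ⟨(J i).smul_mem c (ha i).1, fun h => by rw [(ha i).2 h, smul_zero]⟩

/-- The constant filtration. -/
def J' (J : ℕ → Submodule A S) (k : ℕ) : Submodule A S[X] where
  carrier := {H | ∀ i, H.coeff i ∈ J k}
  add_mem' := fun {a b} ha hb i => by
    rw [coeff_add]
    exact (J k).add_mem (ha i) (hb i)
  zero_mem' := fun _ => (J k).zero_mem
  smul_mem' := fun c a ha i => by
    rw [coeff_smul]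
    exact (J k).smul_mem c (ha i)

theorem fil_G (h : Fil A S n J) : Fil A S[X] n (G J) := by
  refine ⟨h.tame, fun {i j a b} ha hb m => ⟨?_, fun hm => ?_⟩,
    fun i j hij a ha m => ⟨(ha m).1, fun hm => (ha m).2 (hm.trans_le hij)⟩, fun a ha => ?_⟩
  · rw [coeff_mul]
    refine Submodule.sum_mem _ fun p hp => ?_
    rw [← Finset.HasAntidiagonal.mem_antidiagonal.1 hp]
    exact h.mul (ha _).1 (hb _).1
  · rw [coeff_mul]
    refine Finset.sum_eq_zero fun p hp => ?_
    have := Finset.HasAntidiagonal.mem_antidiagonal.1 hp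
    by_cases h1 : p.1 < i
    · rw [(ha _).2 h1, zero_mul]
    · rw [(hb _).2 (by omega), mul_zero]
  · ext m
    rcases lt_or_ge m n with h1 | h1
    · exact (ha m).2 h1
    · exact h.top _ (h.anti h1 (ha m).1)

theorem fil_J' (h : Fil A S n J) : Fil A S[X] n (J' J) := by
  refine ⟨h.tame, fun {i j a b} ha hb m => ?_, fun i j hij a ha m => h.anti hij (ha m),
    fun a ha => ?_⟩
  · rw [coeff_mul]
    exact Submodule.sum_mem _ fun p _ => h.mul (ha _) (hb _)
  · ext m
    exact h.top _ (ha m)

theorem G_le (h : Fil A S n J) {a : S[X]} (ha : a ∈ G J 1) : a ∈ J' J 1 := fun i => by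
  rcases Nat.eq_zero_or_pos i with rfl | hi
  · rw [(ha 0).2 one_pos]
    exact (J 1).zero_mem
  · exact h.anti hi (ha i).1

theorem coeff_der (A : Type) [CommRing A] [Algebra A S] (a : S[X]) (i : ℕ) :
    (derivative a).coeff i = ((i + 1 : ℕ) : A) • a.coeff (i + 1) := by
  rw [coeff_derivative, Nat.cast_smul_eq_nsmul, nsmul_eq_mul']
  push_cast
  rfl

theorem der_mem {a : S[X]} (ha : a ∈ J' J 1) : derivative a ∈ J' J 1 := fun i => by
  rw [coeff_der A]
  exact (J 1).smul_mem _ (ha _)

theorem mono_mem {x : S} (hx : x ∈ J 1) : monomial 1 x ∈ G J 1 := fun i => by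
  rw [coeff_monomial]
  split_ifs with h
  · exact ⟨h ▸ hx, fun h1 => by omega⟩
  · exact ⟨(J i).zero_mem, fun _ => rfl⟩

theorem C_mem {x : S} (hx : x ∈ J 1) : C x ∈ J' J 1 := fun i => by
  rw [coeff_C]
  split_ifs with h
  · exact hx
  · exact (J 1).zero_mem

theorem dexp (hD : DexpS) (h : Fil A S n J) {z : S[X]} (hz : z ∈ J' J 1) :
    derivative (ex A n z) = ex A n z * ∑ j ∈ Finset.range n,
      Ring.inverse ((j + 1).factorial : A) • (fun w => w * z - z * w)^[j] (derivative z) :=
  hD A S[X] n (J' J) ((derivative : S[X] →ₗ[S] S[X]).restrictScalars A) z (fil_J' h)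
    (fun _ _ => derivative_mul) hz (der_mem hz)

theorem comm_C (x : S) : Commute (C x) (monomial 1 x) := by
  rw [← monomial_zero_left, commute_iff_eq, monomial_mul_monomial, monomial_mul_monomial]

theorem dexp_mono (hD : DexpS) {n : ℕ} (h : Fil A S (n + 1) J) {x : S} (hx : x ∈ J 1) :
    derivative (ex A (n + 1) (monomial 1 x)) = ex A (n + 1) (monomial 1 x) * C x := by
  rw [dexp hD h (G_le h (mono_mem hx)), Finset.sum_range_succ', Finset.sum_eq_zero]
  · simp
  · intro j _
    have e : derivative (monomial 1 x) = C x := by simp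
    rw [Function.iterate_succ_apply, e, sub_eq_zero.2 (comm_C x).eq,
      Function.iterate_fixed (by simp), smul_zero]

theorem comm_ex {a z : S[X]} (h : Commute a z) : Commute a (ex A n z) :=
  Commute.sum_right _ _ _ fun _ _ => (h.pow_right _).smul_right _

/-- The first `m` coefficients are Lie polynomials of the right weight. -/
def P (A : Type) [CommRing A] [Algebra A S] (x y : S) (m : ℕ) (W : S[X]) : Prop :=
  ∀ b, b < m → W.coeff b ∈ L A x y (b + 1)

theorem P_br {x y : S} {m : ℕ} {W Z : S[X]} (h0 : Z.coeff 0 = 0)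
    (hZ : ∀ a, a ≤ m → Z.coeff a ∈ L A x y a) (hW : P A x y m W) :
    P A x y (m + 1) (W * Z - Z * W) := fun b hb => by
  rw [coeff_sub, coeff_mul, coeff_mul,
    ← Finset.Nat.sum_antidiagonal_swap (f := fun p => Z.coeff p.1 * W.coeff p.2),
    ← Finset.sum_sub_distrib]
  refine Submodule.sum_mem _ fun p hp => ?_
  have e := Finset.HasAntidiagonal.mem_antidiagonal.1 hp
  simp only [Prod.fst_swap, Prod.snd_swap]
  rcases Nat.eq_zero_or_pos p.2 with h2 | h2
  · rw [h2, h0, mul_zero, zero_mul, sub_zero]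
    exact Submodule.zero_mem _
  · have := LF.br (hW p.1 (by omega)) (hZ p.2 (by omega))
    exact L_mono this (by omega)

theorem P_iter {x y : S} {m : ℕ} {W Z : S[X]} (h0 : Z.coeff 0 = 0)
    (hZ : ∀ a, a ≤ m → Z.coeff a ∈ L A x y a) (hW : P A x y m W) (j : ℕ) :
    P A x y (m + 1) ((fun w => w * Z - Z * w)^[j + 1] W) := by
  induction j with
  | zero => exact P_br h0 hZ hW
  | succ j ih =>
    rw [Function.iterate_succ_apply']
    exact P_br h0 hZ fun b hb => ih b (by omega)

theorem iter_zero {W Z : S[X]} (h0 : Z.coeff 0 = 0) (j : ℕ) :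
    ((fun w => w * Z - Z * w)^[j + 1] W).coeff 0 = 0 := by
  rw [Function.iterate_succ_apply', coeff_sub, mul_coeff_zero, mul_coeff_zero, h0, mul_zero,
    zero_mul, sub_zero]

theorem ode (hE : ExS) (hD : DexpS) {n : ℕ} (h : Fil A S (n + 1) J) {x y : S} (hx : x ∈ J 1)
    (hy : y ∈ J 1) {Z : S[X]} (hZ : Z ∈ J' J 1)
    (e : ex A (n + 1) Z = ex A (n + 1) (monomial 1 x) * ex A (n + 1) (monomial 1 y)) :
    derivative Z = C x + C y + (∑ k ∈ Finset.range (n + 1),
      Ring.inverse ((k + 1).factorial : A) • (fun w => w * Z - Z * w)^[k + 1] (C x) -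
      ∑ j ∈ Finset.range n, Ring.inverse ((j + 1 + 1).factorial : A) •
        (fun w => w * Z - Z * w)^[j + 1] (derivative Z)) := by
  have K := hE A S[X] (n + 1) (J' J) (fil_J' h)
  have hZ' : -Z ∈ J' J 1 := Submodule.neg_mem _ hZ
  have inv : ex A (n + 1) (-Z) * ex A (n + 1) Z = 1 := by
    rw [← K.add _ _ hZ' hZ (Commute.refl Z).neg_left, neg_add_cancel, K.zero]
  have d1 := dexp hD h hZ
  have d2 : derivative (ex A (n + 1) Z) = C x * ex A (n + 1) Z + ex A (n + 1) Z * C y := by
    rw [e, derivative_mul, dexp_mono hD h hx, dexp_mono hD h hy, ← (comm_ex (comm_C x)).eq]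
    simp only [mul_assoc]
  have d3 := K.ad _ _ (C_mem hx) hZ'
  have d4 : (fun z => -Z * z - z * -Z) = fun w => w * Z - Z * w := by
    funext w
    rw [neg_mul, mul_neg]
    abel
  rw [neg_neg, d4] at d3
  have d5 := congrArg (ex A (n + 1) (-Z) * ·) (d1.symm.trans d2)
  beta_reduce at d5
  rw [← mul_assoc, inv, one_mul, mul_add, ← mul_assoc, ← mul_assoc, inv, one_mul, d3,
    Finset.sum_range_succ', Finset.sum_range_succ' _ (n + 1)] at d5
  simp only [Nat.zero_add, Nat.factorial_one, Nat.factorial_zero, Nat.cast_one, Ring.inverse_one,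
    one_smul, Function.iterate_zero, id] at d5
  rw [← sub_eq_zero] at d5 ⊢
  rw [← d5]
  abel

theorem coef (h : Fil A S n J) {x y : S} {Z : S[X]} (hZ : Z ∈ G J 1) {a b : ℕ} {c d : ℕ → A}
    (e : derivative Z = C x + C y + (∑ k ∈ Finset.range a,
      c k • (fun w => w * Z - Z * w)^[k + 1] (C x) -
      ∑ j ∈ Finset.range b, d j • (fun w => w * Z - Z * w)^[j + 1] (derivative Z))) :
    Z.coeff 1 = x + y ∧ ∀ m, Z.coeff m ∈ L A x y m := by
  have h0 : Z.coeff 0 = 0 := (hZ 0).2 one_pos
  have pC : ∀ w : S, w ∈ L A x y 1 → ∀ m, P A x y m (C w) := fun w hw m i _ => by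
    rw [coeff_C]
    split_ifs with h1
    · rw [h1]
      exact hw
    · exact Submodule.zero_mem _
  constructor
  · have := congrArg (coeff · 0) e
    simpa only [coeff_add, coeff_sub, finsetSum_coeff, coeff_smul, iter_zero h0, smul_zero,
      Finset.sum_const_zero, coeff_C_zero, coeff_derivative, sub_zero, add_zero, Nat.zero_add,
      Nat.cast_zero, zero_add, mul_one] using this
  · have key : ∀ m a, a ≤ m → Z.coeff a ∈ L A x y a := by
      intro m
      induction m with
      | zero =>
        intro a ha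
        rw [Nat.le_zero.1 ha, h0]
        exact Submodule.zero_mem _
      | succ m ih =>
        intro a ha
        rcases Nat.lt_or_eq_of_le ha with h1 | rfl
        · exact ih a (by omega)
        rcases le_or_gt n (m + 1) with h1 | h1
        · rw [h.top _ (h.anti h1 (hZ _).1)]
          exact Submodule.zero_mem _
        have pZ : P A x y m (derivative Z) := fun i hi => by
          rw [coeff_der A]
          exact Submodule.smul_mem _ _ (ih _ hi)
        have hm : (derivative Z).coeff m ∈ L A x y (m + 1) := by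
          rw [e, coeff_add, coeff_add, coeff_sub, finsetSum_coeff, finsetSum_coeff]
          refine Submodule.add_mem _ (Submodule.add_mem _ (pC x LF.x _ _ (Nat.lt_succ_self m))
            (pC y LF.y _ _ (Nat.lt_succ_self m))) (Submodule.sub_mem _
              (Submodule.sum_mem _ fun k _ => ?_) (Submodule.sum_mem _ fun k _ => ?_))
          · rw [coeff_smul]
            exact Submodule.smul_mem _ _ (P_iter h0 ih (pC x LF.x m) k m (Nat.lt_succ_self m))
          · rw [coeff_smul]
            exact Submodule.smul_mem _ _ (P_iter h0 ih pZ k m (Nat.lt_succ_self m))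
        rw [coeff_der A] at hm
        exact (Submodule.smul_mem_iff_of_isUnit _ (h.tame _ (Nat.succ_pos m) h1.le)).1 hm
    exact fun m => key m m le_rfl

end BchA

open BchA in
theorem rowBch : ExS → DexpS → BchS := by
  intro hE hD A S _ _ _ n J x y h hx hy
  rcases n with _ | n
  · refine ⟨0, LF.zero 2, ?_⟩
    rw [h.top x (h.anti zero_le_one hx), h.top y (h.anti zero_le_one hy), add_zero, add_zero,
      (hE A S 0 J h).zero, one_mul]
  have hG := fil_G h
  have K := hE A S[X] (n + 1) (G J) hG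
  have m1 := K.mem _ (mono_mem hx)
  have m2 := K.mem _ (mono_mem hy)
  obtain ⟨Z, hZ, e⟩ := K.surj _ (Submodule.add_mem _ (Submodule.add_mem _ m1 m2)
    (hG.anti one_le_two (hG.mul m1 m2)))
  have e' : ex A (n + 1) Z = ex A (n + 1) (monomial 1 x) * ex A (n + 1) (monomial 1 y) := by
    rw [e]
    noncomm_ring
  obtain ⟨c1, c2⟩ := coef h hZ (ode hE hD h hx hy (G_le h hZ) e')
  let f : S[X] →+* S := eval₂RingHom' (RingHom.id S) 1 fun a => Commute.one_right _
  have fa : ∀ p, f p = eval₂ (RingHom.id S) 1 p := fun _ => rfl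
  have hf : ∀ (a : A) (s : S[X]), f (a • s) = RingHom.id A a • f s := fun a s => by
    rw [Algebra.smul_def, map_mul, Polynomial.algebraMap_apply, fa (C _), eval₂_C,
      Algebra.smul_def]
    rfl
  have fm : ∀ w : S, f (monomial 1 w) = w := fun w => by
    rw [fa, eval₂_monomial]
    simp
  refine ⟨∑ i ∈ Finset.range Z.natDegree, Z.coeff (i + 1 + 1),
    Submodule.sum_mem (L A x y 2) fun i _ => L_mono (c2 _) (by omega), ?_⟩
  have e2 := congrArg f e'
  rw [map_mul, map_ex h.tame _ f hf, map_ex h.tame _ f hf, map_ex h.tame _ f hf, fm, fm] at e2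
  rw [← e2, fa, eval₂_eq_sum_range' _ (show Z.natDegree < Z.natDegree + 1 + 1 by omega),
    Finset.sum_range_succ', Finset.sum_range_succ']
  refine congrArg _ ?_
  simp only [RingHom.id_apply, one_pow, mul_one, Nat.zero_add, c1, (hZ 0).2 one_pos]
  abel

end Pool.Agent.MP_4f1c5b_al.H20
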