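import Pool.Agent.MP_4f1c5b_al.H20.Spec

/-! Every twist class has a member of bounded level. -/

namespace Pool.Agent.MP_4f1c5b_al.H20

open IsLocalRing Pool.Agent.MP_4f1c5b_al.H1

namespace BdA

theorem descend {Γ Q B : Type} [Group Γ] [Group Q] [Monoid B] (f : Γ →* Q)
    (hf : Function.Surjective f) (a : Γ →* B) (h : ∀ g, f g = 1 → a g = 1) :
    ∃ σ : Q →* B, ∀ g, σ (f g) = a g := by
  have key : ∀ g g', f g = f g' → a g = a g' := fun g g' e => by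
    rw [← mul_inv_cancel_left g' g, map_mul, h (g'⁻¹ * g) (by rw [map_mul, map_inv, e]; simp),
      mul_one]
  choose s hs using hf
  exact ⟨⟨⟨fun q => a (s q), h _ (hs 1)⟩, fun q q' => by
    rw [← map_mul]
    exact key _ _ (by rw [map_mul, hs, hs, hs])⟩, fun g => key _ _ (hs _)⟩

variable {O : Type} [CommRing O] {n : ℕ} {π : O}

theorem cong_iff (m : ℕ) (g : GL (Fin n) O) : Cong π m g ↔ g.1.map (rm π m) = 1 := by
  rw [← Matrix.map_one (rm π m) (map_zero _) (map_one _), ← Matrix.ext_iff]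
  refine forall_congr' fun r => forall_congr' fun s => ?_
  rw [Matrix.map_apply, Matrix.map_apply, Ideal.Quotient.eq, Ideal.mem_span_singleton]

theorem ex_map (h : Tame n O) (m : ℕ) (x : Matrix (Fin n) (Fin n) O) :
    (ex O n x).map (rm π m) = ex (Rm π m) n (x.map (rm π m)) :=
  map_ex h (rm π m) (rm π m).mapMatrix (fun a s => by
    ext i j
    simp) x

end BdA

open BdA

theorem rowBd : ExS → LevS → ModS → GenS → FkS → TwaS → OrbS → Bd1S → BdS := by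
  intro hE hL hM hG hF hT hO hB o O _ _ _ _ _ _ _ n D S π b c had hπ ht hlat
  obtain ⟨ν, hν⟩ := hB o O n D S π b c hπ hlat
  refine ⟨ν, fun j a => ?_⟩
  obtain ⟨hL1, hL2⟩ := hL O n π (grp S O) had hπ
  obtain ⟨M0, hM0⟩ := hL1 _ a.1 a.2.1
  obtain ⟨M, hM1, hM2⟩ : ∃ M, M0 ≤ M ∧ 2 * j + ν ≤ M := ⟨_, le_max_left _ _, le_max_right _ _⟩
  obtain ⟨p, P, e, Ad, ι, f, h⟩ := hM o O n D S π b c M hπ ht hlat
  have hfin := (hG O π M hπ).1
  have hfinP : Finite P := Finite.of_equiv _ e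
  have hker : ∀ g : grp S O, f g = 1 ↔ Cong π M g.1 := fun g => by
    rw [cong_iff, ← h.hf]
    exact ⟨fun e => by rw [e]; rfl, fun e => Subtype.ext (Units.ext e)⟩
  obtain ⟨σ, hσ⟩ := descend f h.surj a.1 fun g hg => hM0 g fun r s =>
    (pow_dvd_pow π hM1).trans ((hker g).1 hg r s)
  have hi : Irred σ := Irred.of_comp f (by
    rw [show σ.comp f = a.1 from MonoidHom.ext hσ]
    exact a.2.2)
  obtain ⟨hF1, hF2⟩ := hF P p e Ad h.exp.kd
  obtain ⟨hO1, hO2, -⟩ := hO _ n p h.lie P e Ad (ht.map (rm π M)) h.exp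
  obtain ⟨hT1, hT2, -, -, hT5⟩ := hT P p e Ad h.lie.der h.exp.kd hO1
  obtain ⟨ω, hω⟩ := hF1 _ σ hi
  obtain ⟨ω', h1, h2⟩ := hν j M p P e Ad ι f h ω hM2 (by rw [← hω.1, hO2])
  have hcls : ω' ∈ cls Ad h.lie.der ω := ⟨1, fun x hx => by
    rw [h1 x hx]
    congr 1
    refine Subtype.ext ?_
    rw [h.exp.hAd]
    simp⟩
  obtain ⟨d', σ', hi', hω'⟩ := hF2 ω'
  obtain rfl : d' = Nat.card (ResidueField O) ^ j :=
    Nat.pow_left_injective two_ne_zero ((hω'.1.symm.trans (hT2 ω ω' hcls)).trans hω.1)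
  obtain ⟨χ, Pm, hχ⟩ := (hT1 _ σ σ' ω ω' hi hi' hω hω').2 hcls
  refine ⟨⟨σ'.comp f, hL2 M _ _ fun g hg => ?_, hi'.comp f h.surj⟩,
    ⟨χ.comp f, Pm, hL2 M _ _ fun g hg => ?_, fun g => ?_⟩, fun g hg => ?_⟩
  · rw [MonoidHom.comp_apply, (hker g).2 hg, map_one]
  · rw [MonoidHom.comp_apply, (hker g).2 hg, map_one]
  · rw [← hσ]
    exact hχ (f g)
  obtain ⟨u, hu⟩ := (hlat.grp g.1).1 g.2
  have kit := hE _ _ n _ (fil_mat (ht.map (rm π (2 * j + ν))))
  have hx : (∑ i, u i • b i) ∈ mt_J O n 1 :=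
    sum_mem fun i _ => Submodule.smul_mem _ _ (hlat.mem i)
  have h0 : (∑ i, u i • b i).map (rm π (2 * j + ν)) = 0 :=
    kit.inj _ _ (fun r s hrs => by rw [Matrix.map_apply, hx r s hrs, map_zero]) (zero_mem _)
      (by rw [← ex_map ht, ← hu, (cong_iff _ _).1 hg, kit.zero])
  choose u1 hu1 using hlat.pure u (2 * j + ν) fun r s =>
    Ideal.mem_span_singleton.1 (Ideal.Quotient.eq_zero_iff_mem.1 (congrFun (congrFun h0 r) s))
  have hfg : f g = e (ι fun i => rm π M (u i)) := Subtype.ext (Units.ext (by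
    rw [h.hf, h.exp.he, h.hι, hu, ex_map ht]))
  change σ' (f g) = 1
  rw [hfg]
  refine hT5 _ σ' ω' (DistribSMul.toAddMonoidHom p (rm π M (π ^ (2 * j + ν)))).range hω'
    ?_ ?_ _ ⟨ι fun i => rm π M (u1 i), ?_⟩
  · rintro g _ ⟨x, rfl⟩
    refine ⟨Ad g x, Subtype.ext ?_⟩
    rw [h.exp.hAd, DistribSMul.toAddMonoidHom_apply, DistribSMul.toAddMonoidHom_apply,
      Submodule.coe_smul, Submodule.coe_smul, h.exp.hAd, mul_smul_comm, smul_mul_assoc]
  · rintro _ ⟨x, rfl⟩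
    exact h2 x
  · rw [DistribSMul.toAddMonoidHom_apply, ← map_smul]
    congr 1
    funext i
    rw [Pi.smul_apply, smul_eq_mul, ← map_mul, ← hu1]

end Pool.Agent.MP_4f1c5b_al.H20
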