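import Pool.Agent.MP_4f1c5b_al.H20.Spec

/-!
A character whose orbit has a given size agrees on the derived algebra with a character of bounded
level.
-/

namespace Pool.Agent.MP_4f1c5b_al.H20

open Classical IsLocalRing Pool.Agent.MP_4f1c5b_al.H1

namespace Bd1A

theorem ann {O R N : Type} [CommRing O] [IsDomain O] [IsDiscreteValuationRing O]
    [Finite (ResidueField O)] [CommRing R] [AddCommGroup N] [Module R N] [Finite N] (hG : GenS)
    {π : O} (hπ : Irreducible π) (ρ : O →+* R) {k : ℕ}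
    (hN : Nat.card N = Nat.card (ResidueField O) ^ k) (y : N) : ρ (π ^ k) • y = 0 := by
  by_contra hne
  have key : ∀ a : O, ρ a • y = 0 → π ^ (k + 1) ∣ a := fun a ha => by
    by_cases h0 : a = 0
    · rw [h0]
      exact dvd_zero _
    obtain ⟨m, hm⟩ := IsDiscreteValuationRing.associated_pow_irreducible h0 hπ
    refine dvd_trans (pow_dvd_pow π ?_) hm.symm.dvd
    by_contra hlt
    obtain ⟨t, ht⟩ := hm.dvd.trans (pow_dvd_pow π (show m ≤ k by omega))
    exact hne (by rw [ht, mul_comm, map_mul, mul_smul, ha, smul_zero])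
  have hs : Function.Surjective (rm π (k + 1)) := Ideal.Quotient.mk_surjective
  have hinj : Function.Injective fun r : Rm π (k + 1) => ρ (Function.surjInv hs r) • y := by
    intro r r' e
    rw [← Function.surjInv_eq hs r, ← Function.surjInv_eq hs r']
    refine Ideal.Quotient.eq.2 (Ideal.mem_span_singleton.2 (key _ ?_))
    rw [map_sub, sub_smul]
    exact sub_eq_zero.2 e
  have h1 := Nat.card_le_card_of_injective _ hinj
  rw [(hG O π (k + 1) hπ).2.1, hN] at h1
  exact absurd h1 (not_le.2 (Nat.pow_lt_pow_right Finite.one_lt_card (Nat.lt_succ_self k)))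

theorem ext_char {A : Type} [AddCommGroup A] [Finite A] (B L : AddSubgroup A) (ω : AddChar A ℂ)
    (h : ∀ x ∈ B, x ∈ L → ω x = 1) :
    ∃ ω' : AddChar A ℂ, (∀ x ∈ B, ω' x = ω x) ∧ ∀ x ∈ L, ω' x = 1 := by
  let φ : Multiplicative B →* Multiplicative A := AddMonoidHom.toMultiplicative B.subtype
  obtain ⟨χ, h1, h2⟩ := exists_ext (G := Multiplicative A) (AddSubgroup.toSubgroup L)
    (by rw [commutator_eq_bot]; exact bot_le) φ (ω.toMonoidHom.comp φ).toHomUnits
    fun b hb => Units.ext (h _ (Multiplicative.toAdd b).2 hb)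
  refine ⟨AddChar.toMonoidHomEquiv.symm ((Units.coeHom ℂ).comp χ), fun x hx => ?_, fun x hx => ?_⟩
  · exact congrArg Units.val (h2 (Multiplicative.ofAdd ⟨x, hx⟩))
  · exact congrArg Units.val (h1 (Multiplicative.ofAdd x) hx)

section Lie

variable {R : Type} [CommRing R] {n : ℕ} {p : Submodule R (Matrix (Fin n) (Fin n) R)} (h : IsLie p)

theorem b_add (x x' y : p) : h.b (x + x') y = h.b x y + h.b x' y :=
  Subtype.ext (by simp only [IsLie.b, Submodule.coe_add]; noncomm_ring)

theorem b_smul (r : R) (x y : p) : h.b (r • x) y = r • h.b x y :=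
  Subtype.ext (by simp [IsLie.b, smul_sub])

theorem b_smul' (r : R) (x y : p) : h.b x (r • y) = r • h.b x y :=
  Subtype.ext (by simp [IsLie.b, smul_sub])

theorem der_smul (r : R) {z : p} (hz : z ∈ h.der) : r • z ∈ h.der := by
  induction hz using AddSubgroup.closure_induction with
  | mem z hz =>
    obtain ⟨x, y, rfl⟩ := hz
    exact AddSubgroup.subset_closure ⟨r • x, y, (b_smul h r x y).symm⟩
  | zero => rw [smul_zero]; exact zero_mem _
  | add x y _ _ hx hy => rw [smul_add]; exact add_mem hx hy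
  | neg x _ hx => rw [smul_neg]; exact neg_mem hx

/-- The radical of the form attached to `ω`. -/
def Rad (ω : AddChar p ℂ) : Submodule R p where
  carrier := {y | ∀ x, ω (h.b y x) = 1}
  add_mem' := fun {y y'} hy hy' x => by rw [b_add, AddChar.map_add_eq_mul, hy x, hy' x, mul_one]
  zero_mem' := fun x => by
    rw [← zero_smul R (0 : p), b_smul, zero_smul, AddChar.map_zero_eq_one]
  smul_mem' := fun r y hy x => by rw [b_smul, ← b_smul', hy]

theorem triv (ω : AddChar p ℂ) {r : R} (hr : ∀ y, r • y ∈ Rad h ω) {z : p} (hz : z ∈ h.der) :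
    ω (r • z) = 1 := by
  induction hz using AddSubgroup.closure_induction with
  | mem z hz =>
    obtain ⟨x, y, rfl⟩ := hz
    rw [← b_smul]
    exact hr x y
  | zero => rw [smul_zero, AddChar.map_zero_eq_one]
  | add x y _ _ hx hy => rw [smul_add, AddChar.map_add_eq_mul, hx, hy, mul_one]
  | neg x _ hx => rw [smul_neg, AddChar.map_neg_eq_inv, hx, inv_one]

end Lie

theorem br_ex {O : Type} [CommRing O] {n D : ℕ} {b : Fin D → Matrix (Fin n) (Fin n) O}
    {c : Fin D → Fin D → Fin D → O} (hb : ∀ i j, b i * b j - b j * b i = ∑ k, c i j k • b k)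
    (x y : Fin D → O) : ∃ a : Fin D → O, ∑ k, a k • b k =
      (∑ k, x k • b k) * (∑ k, y k • b k) - (∑ k, y k • b k) * ∑ k, x k • b k := by
  refine ⟨fun k => ∑ i, ∑ j, x i * y j * c i j k, ?_⟩
  rw [Finset.sum_mul_sum, Finset.sum_mul_sum, Finset.sum_comm (f := fun i j => y i • b i * x j • b j),
    ← Finset.sum_sub_distrib]
  simp only [Finset.sum_smul]
  rw [Finset.sum_comm]
  refine Finset.sum_congr rfl fun i _ => ?_
  rw [Finset.sum_comm, ← Finset.sum_sub_distrib]
  refine Finset.sum_congr rfl fun j _ => ?_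
  simp only [smul_mul_smul_comm, mul_comm (y j), ← smul_sub, hb, Finset.smul_sum, smul_smul]

theorem sat {O M : Type} [CommRing O] [AddCommGroup M] [Module O M] [IsNoetherian O M] (π : O)
    (L : Submodule O M) : ∃ ν : ℕ, ∀ (k : ℕ) (a : M), π ^ (k + ν) • a ∈ L → π ^ ν • a ∈ L := by
  let N : ℕ →o Submodule O M := ⟨fun k => L.comap (π ^ k • LinearMap.id), fun k l hkl a ha => by
    obtain ⟨t, rfl⟩ := Nat.exists_eq_add_of_le hkl
    show π ^ (k + t) • a ∈ L
    rw [add_comm, pow_add, mul_smul]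
    exact L.smul_mem _ ha⟩
  obtain ⟨ν, hν⟩ := monotone_stabilizes_iff_noetherian.2 inferInstance N
  exact ⟨ν, fun k a ha => (hν (k + ν) (Nat.le_add_left _ _)).ge ha⟩

end Bd1A

open Bd1A

theorem rowBd1 : GenS → Bd1S := by
  intro hG o O _ _ _ _ _ _ n D S π b c hπ hL
  let L : Submodule O (Fin D → O) := Submodule.span O {a | ∃ x y : Fin D → O, ∑ k, a k • b k =
    (∑ k, x k • b k) * (∑ k, y k • b k) - (∑ k, y k • b k) * ∑ k, x k • b k}
  obtain ⟨ν, hν⟩ := sat π L
  refine ⟨ν, fun j M p P e Ad ι f h ω hM hc => ?_⟩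
  have : Finite (Rm π M) := (hG O π M hπ).1
  let Φ : (Fin D → O) → p := fun a => ι fun i => rm π M (a i)
  have Φ0 : Φ 0 = 0 := (congrArg ι (funext fun _ => map_zero _)).trans (map_zero ι)
  have Φa : ∀ a a', Φ (a + a') = Φ a + Φ a' := fun a a' =>
    (congrArg ι (funext fun _ => map_add _ _ _)).trans (map_add ι _ _)
  have Φs : ∀ (t : O) a, Φ (t • a) = rm π M t • Φ a := fun t a =>
    (congrArg ι (funext fun _ => map_mul _ _ _)).trans (map_smul ι (rm π M t) fun i => rm π M (a i))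
  have Φsurj : ∀ x, ∃ a, Φ a = x := fun x => by
    choose a ha using fun i => Ideal.Quotient.mk_surjective (ι.symm x i)
    exact ⟨a, (congrArg ι (funext ha)).trans (ι.apply_symm_apply x)⟩
  have Φb : ∀ a x y : Fin D → O, ∑ k, a k • b k =
      (∑ k, x k • b k) * (∑ k, y k • b k) - (∑ k, y k • b k) * ∑ k, x k • b k →
      Φ a = h.lie.b (Φ x) (Φ y) := fun a x y ha => Subtype.ext (by
    show (Φ a).1 = (Φ x).1 * (Φ y).1 - (Φ y).1 * (Φ x).1
    simp only [Φ, h.hι, ha, ← RingHom.mapMatrix_apply, map_sub, map_mul])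
  have d1 : ∀ z ∈ h.lie.der, ∃ a ∈ L, Φ a = z := fun z hz => by
    induction hz using AddSubgroup.closure_induction with
    | mem z hz =>
      obtain ⟨x, y, rfl⟩ := hz
      obtain ⟨x, rfl⟩ := Φsurj x
      obtain ⟨y, rfl⟩ := Φsurj y
      obtain ⟨a, ha⟩ := br_ex hL.br x y
      exact ⟨a, Submodule.subset_span ⟨x, y, ha⟩, Φb a x y ha⟩
    | zero => exact ⟨0, zero_mem _, Φ0⟩
    | add x y _ _ hx hy =>
      obtain ⟨a, ha, rfl⟩ := hx
      obtain ⟨a', ha', rfl⟩ := hy
      exact ⟨a + a', add_mem ha ha', Φa a a'⟩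
    | neg x _ hx =>
      obtain ⟨a, ha, rfl⟩ := hx
      exact ⟨(-1 : O) • a, L.smul_mem _ ha, by
        rw [Φs, map_neg, map_one]
        exact neg_one_smul (Rm π M) (Φ a)⟩
  have d2 : ∀ a ∈ L, Φ a ∈ h.lie.der := fun a ha => by
    induction ha using Submodule.span_induction with
    | mem a ha =>
      obtain ⟨x, y, ha⟩ := ha
      exact AddSubgroup.subset_closure ⟨_, _, Φb a x y ha⟩
    | zero => rw [Φ0]; exact zero_mem _
    | add x y _ _ hx hy => rw [Φa]; exact add_mem hx hy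
    | smul t x _ hx => rw [Φs]; exact der_smul _ _ hx
  have hq : Nat.card (p ⧸ Rad h.lie ω) = Nat.card (ResidueField O) ^ (2 * j) := by
    have h1 := Submodule.card_eq_card_quotient_mul_card (Rad h.lie ω)
    have h2 : Nat.card (Rad h.lie ω) = h.lie.rad ω := rfl
    have h3 : 0 < Nat.card (Rad h.lie ω) := Nat.card_pos
    rw [← hc, ← h2, ← pow_mul, mul_comm j 2, mul_comm] at h1
    exact (Nat.eq_of_mul_eq_mul_left h3 h1).symm
  have hr : ∀ y, rm π M (π ^ (2 * j)) • y ∈ Rad h.lie ω := fun y => by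
    rw [← Submodule.Quotient.mk_eq_zero, Submodule.Quotient.mk_smul]
    have : Finite (p ⧸ Rad h.lie ω) := Finite.of_surjective _ (Submodule.Quotient.mk_surjective _)
    exact ann hG hπ _ hq _
  obtain ⟨ω', h1, h2⟩ := ext_char h.lie.der
    (DistribSMul.toAddMonoidHom p (rm π M (π ^ (2 * j + ν)))).range ω fun z hz hz' => by
      obtain ⟨a, ha, rfl⟩ := d1 z hz
      obtain ⟨x, hx⟩ := hz'
      obtain ⟨a1, rfl⟩ := Φsurj x
      have e1 : Φ (π ^ (2 * j + ν) • a1) = Φ a := (Φs _ _).trans hx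
      have e2 : ∀ i, π ^ (2 * j + ν) ∣ a i := fun i => by
        have := Ideal.mem_span_singleton.1 (Ideal.Quotient.eq.1 (congrFun (ι.injective e1) i))
        exact (dvd_sub_right (Dvd.intro _ rfl)).1 ((pow_dvd_pow π hM).trans this)
      choose a2 ha2 using e2
      have e3 : a = π ^ (2 * j + ν) • a2 := funext ha2
      rw [e3] at ha ⊢
      rw [pow_add, mul_smul, Φs]
      exact triv h.lie ω hr (d2 _ (hν _ _ ha))
  exact ⟨ω', h1, fun x => h2 _ ⟨x, rfl⟩⟩

end Pool.Agent.MP_4f1c5b_al.H20
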