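import Pool.Agent.MP_4f1c5b_al.H20.Spec

/-! The orbit formula in coordinates. -/

namespace Pool.Agent.MP_4f1c5b_al.H20

open Classical

namespace CooA

variable {R : Type} [CommRing R] {n D : ℕ} {p : Submodule R (Matrix (Fin n) (Fin n) R)}
  {c : Fin D → Fin D → Fin D → R} {ψ : AddChar R ℂ}

theorem dual (hψ : ∀ a : R, a ≠ 0 → ∃ b, ψ (a * b) ≠ 1) (v : Fin D → R) :
    (∀ a : Fin D → R, ψ (∑ j, a j * v j) = 1) ↔ v = 0 := by
  refine ⟨fun h => funext fun j => ?_, fun h a => by simp [h]⟩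
  by_contra hne
  obtain ⟨b, hb⟩ := hψ _ hne
  refine hb ?_
  have := h (Pi.single j b)
  rw [Finset.sum_eq_single j (fun i _ hi => by simp [hi]) (by simp)] at this
  simpa [mul_comm] using this

theorem dual2 (hψ : ∀ a : R, a ≠ 0 → ∃ b, ψ (a * b) ≠ 1) (v : Fin D × Fin D → R) :
    (∀ a a' : Fin D → R, ψ (∑ j, ∑ l, a j * a' l * v (j, l)) = 1) ↔ v = 0 := by
  refine ⟨fun h => funext fun ⟨j, l⟩ => ?_, fun h a a' => by simp [h]⟩
  refine congrFun ((dual hψ fun j => v (j, l)).1 fun a => ?_) j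
  rw [← h a (Pi.single l 1)]
  congr 1
  refine Finset.sum_congr rfl fun i _ => ?_
  rw [Finset.sum_eq_single l (fun i _ hi => by simp [hi]) (by simp)]
  simp

/-- The bracket as a bilinear map. -/
noncomputable def bl (h : IsLie p) : p →ₗ[R] p →ₗ[R] p :=
  LinearMap.mk₂ R h.b
    (fun x y z => Subtype.ext (by simp only [IsLie.b, Submodule.coe_add]; noncomm_ring))
    (fun a x y => Subtype.ext (by
      simp only [IsLie.b, Submodule.coe_smul, smul_mul_assoc, mul_smul_comm, smul_sub]))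
    (fun x y z => Subtype.ext (by simp only [IsLie.b, Submodule.coe_add]; noncomm_ring))
    (fun a x y => Subtype.ext (by
      simp only [IsLie.b, Submodule.coe_smul, smul_mul_assoc, mul_smul_comm, smul_sub]))

theorem br_eq (h : IsLie p) (ι : (Fin D → R) ≃ₗ[R] p)
    (hc : ∀ i j, h.b (ι (Pi.single i 1)) (ι (Pi.single j 1)) = ι (c i j)) (z a : Fin D → R) :
    h.b (ι z) (ι a) = ι fun k => ∑ i, ∑ j, z i * a j * c i j k := by
  have e : ∀ z : Fin D → R, ι z = ∑ i, z i • ι (Pi.single i 1) := fun z => by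
    simp only [← map_smul, ← map_sum]
    congr 1
    funext k
    simp [Finset.sum_apply, Pi.single_apply]
  have e1 : h.b (ι z) (ι a) = ∑ i, ∑ j, (z i * a j) • ι (c i j) := by
    change bl h (ι z) (ι a) = _
    rw [e z, e a, map_sum (bl h), LinearMap.sum_apply]
    refine Finset.sum_congr rfl fun i _ => ?_
    rw [map_sum]
    refine Finset.sum_congr rfl fun j _ => ?_
    rw [map_smul, map_smul, LinearMap.smul_apply, smul_smul, mul_comm, ← hc]
    rfl
  rw [e1]
  simp only [← map_smul, ← map_sum]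
  congr 1
  funext k
  simp [Finset.sum_apply]

theorem pair0 (a a' u : Fin D → R) : ∑ k, (∑ j, ∑ l, a j * a' l * c j l k) * u k =
    ∑ j, ∑ l, a j * a' l * (M0 c).mulVec u (j, l) := by
  simp only [Finset.sum_mul, Matrix.mulVec, dotProduct, M0, Finset.mul_sum]
  rw [Finset.sum_comm]
  refine Finset.sum_congr rfl fun j _ => ?_
  rw [Finset.sum_comm]
  exact Finset.sum_congr rfl fun l _ => Finset.sum_congr rfl fun k _ => by ring

theorem pair1 (z a y : Fin D → R) : ∑ k, (∑ i, ∑ j, z i * a j * c i j k) * y k =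
    ∑ j, a j * (M1 c y).mulVec z j := by
  rw [pair0, Finset.sum_comm]
  simp only [Matrix.mulVec, dotProduct, M0, M1, Finset.mul_sum, Finset.sum_mul]
  exact Finset.sum_congr rfl fun j _ => Finset.sum_congr rfl fun l _ =>
    Finset.sum_congr rfl fun k _ => by ring

theorem pair2 (z y : Fin D → R) : (M0 c).mulVec ((M1 c y).mulVec z) = (M2 c y).mulVec z := by
  funext jl
  simp only [Matrix.mulVec, dotProduct, M0, M1, M2, Finset.mul_sum, Finset.sum_mul]
  rw [Finset.sum_comm]
  exact Finset.sum_congr rfl fun j _ => Finset.sum_congr rfl fun l _ =>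
    Finset.sum_congr rfl fun k _ => by ring

/-- The character with the coordinates `y`. -/
noncomputable def w (ι : (Fin D → R) ≃ₗ[R] p) (ψ : AddChar R ℂ) (y : Fin D → R) : AddChar p ℂ :=
  ψ.compAddMonoidHom
    { toFun := fun x => ∑ k, ι.symm x k * y k
      map_zero' := by simp
      map_add' := fun x x' => by simp [add_mul, Finset.sum_add_distrib] }

theorem w_apply (ι : (Fin D → R) ≃ₗ[R] p) (y a : Fin D → R) :
    w ι ψ y (ι a) = ψ (∑ k, a k * y k) := by
  simp [w]

theorem w_inj (hψ : ∀ a : R, a ≠ 0 → ∃ b, ψ (a * b) ≠ 1) (ι : (Fin D → R) ≃ₗ[R] p) :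
    Function.Injective (w ι ψ) := fun y y' e => by
  rw [← sub_eq_zero, ← dual hψ]
  intro a
  have e1 : ψ (∑ k, a k * y k) = ψ (∑ k, a k * y' k) := by rw [← w_apply ι, ← w_apply ι, e]
  have e2 : ψ (∑ k, a k * y' k) ≠ 0 := (ψ.val_isUnit _).ne_zero
  simp only [Pi.sub_apply, mul_sub, Finset.sum_sub_distrib]
  rw [AddChar.map_sub_eq_div, e1, div_self e2]

end CooA

open CooA in
theorem rowCoo : CooS := by
  intro R _ _ n D p h ι c ψ d hψ hc
  have hp : Nat.card p = Nat.card R ^ D := by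
    rw [← Nat.card_congr ι.toEquiv, Nat.card_fun, Nat.card_eq_fintype_card (α := Fin D),
      Fintype.card_fin]
  have : Finite p := Finite.of_equiv _ ι.toEquiv
  have hb : Function.Bijective (w ι ψ) := by
    have := Fintype.ofFinite p
    refine (Nat.bijective_iff_injective_and_card _).2 ⟨w_inj hψ ι, ?_⟩
    rw [Nat.card_congr ι.toEquiv, Nat.card_eq_fintype_card, Nat.card_eq_fintype_card,
      AddChar.card_eq]
  have s := ι.surjective
  have r1 : ∀ y, h.rad (w ι ψ y) = kc (M1 c y) := fun y =>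
    (Nat.card_congr (ι.toEquiv.subtypeEquiv fun z => by
      rw [← dual hψ, s.forall]
      simp only [LinearEquiv.coe_toEquiv, br_eq h ι hc, w_apply, pair1])).symm
  have r2 : ∀ y, h.rad2 (w ι ψ y) = kc (M2 c y) := fun y =>
    (Nat.card_congr (ι.toEquiv.subtypeEquiv fun z => by
      rw [← dual2 hψ, s.forall₂]
      refine forall₂_congr fun a a' => ?_
      rw [LinearEquiv.coe_toEquiv, br_eq h ι hc, br_eq h ι hc, w_apply, pair1, pair0, pair2])).symm
  have r0 : h.kap = kc (M0 c) :=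
    (Nat.card_congr ((Equiv.ofBijective _ hb).subtypeEquiv fun y => by
      rw [← dual2 hψ, s.forall₂]
      simp only [Equiv.ofBijective_apply, br_eq h ι hc, w_apply, pair0])).symm
  refine (finsum_eq_of_bijective _ hb fun y => ?_).symm
  simp only [FF1, r1, r2, r0, hp, Nat.cast_pow]

end Pool.Agent.MP_4f1c5b_al.H20
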