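import Pool.Agent.MP_4f1c5b_al.H20.Spec

/-!
The derivative of the truncated exponential.
-/

namespace Pool.Agent.MP_4f1c5b_al.H20

open Finset

namespace DexpA

variable {A S : Type} [CommRing A] [Ring S] [Algebra A S]

/-- The iterated commutators, shifted by one. -/
def g (z w : S) : ℕ → S
  | 0 => 0
  | i + 1 => (fun w => w * z - z * w)^[i] w

theorem g_succ (z w : S) (i : ℕ) :
    g z w (i + 1) = g z w i * z - z * g z w i + if i = 0 then w else 0 := by
  cases i with
  | zero => simp [g]
  | succ i => simp [g, Function.iterate_succ_apply']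

theorem d_pow (δ : S →ₗ[A] S) (hδ : ∀ a b, δ (a * b) = δ a * b + a * δ b) (z : S) (m : ℕ) :
    δ (z ^ m) = ∑ i ∈ range (m + 1), m.choose i • (z ^ (m - i) * g z (δ z) i) := by
  induction m with
  | zero =>
    have := hδ 1 1
    simp only [mul_one, one_mul] at this
    simpa [g] using this
  | succ m ih =>
    rw [sum_choose_succ_nsmul (fun i j => z ^ j * g z (δ z) i) m, pow_succ, hδ, ih, sum_mul,
      ← sum_add_distrib]
    have e : z ^ m * δ z = ∑ i ∈ range (m + 1),
        m.choose i • (z ^ (m - i) * if i = 0 then δ z else 0) := by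
      rw [sum_eq_single 0 (fun i _ hi => by simp [hi]) (by simp)]
      simp
    rw [e, ← sum_add_distrib]
    refine sum_congr rfl fun i hi => ?_
    have h : m + 1 - i = m - i + 1 := by have := mem_range.1 hi; omega
    rw [g_succ, h, pow_succ, smul_mul_assoc, ← smul_add, ← smul_add]
    congr 1
    noncomm_ring

variable {n : ℕ} {J : ℕ → Submodule A S}

theorem g_mem (h : Fil A S n J) {z w : S} (hz : z ∈ J 1) (hw : w ∈ J 1) (i : ℕ) :
    g z w i ∈ J i := by
  induction i with
  | zero => exact zero_mem _
  | succ i ih =>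
    rw [g_succ]
    refine add_mem (sub_mem (h.mul ih hz) (add_comm 1 i ▸ h.mul hz ih)) ?_
    split_ifs with k
    · rw [k]; exact hw
    · exact zero_mem _

theorem pow_mul_mem (h : Fil A S n J) {z w : S} (hz : z ∈ J 1) {i : ℕ} (hw : w ∈ J i) (j : ℕ) :
    z ^ j * w ∈ J (j + i) := by
  induction j with
  | zero => simpa using hw
  | succ j ih =>
    rw [pow_succ', mul_assoc, show j + 1 + i = 1 + (j + i) by omega]
    exact h.mul hz ih

theorem inv_choose (h : Tame n A) {m i : ℕ} (hm : m ≤ n) (hi : i ≤ m) :
    Ring.inverse (m.factorial : A) * (m.choose i : A) =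
      Ring.inverse ((m - i).factorial : A) * Ring.inverse (i.factorial : A) := by
  have e : (m.factorial : A) = m.choose i * i.factorial * (m - i).factorial := by
    exact_mod_cast congrArg (Nat.cast : ℕ → A) (Nat.choose_mul_factorial_mul_factorial hi).symm
  have h1 := Ring.inverse_mul_cancel _ (h.fac hm)
  have h2 := Ring.inverse_mul_cancel _ (h.fac (hi.trans hm))
  have h3 := Ring.inverse_mul_cancel _ (h.fac (k := m - i) (by omega))
  generalize Ring.inverse (m.factorial : A) = a at *
  generalize Ring.inverse (i.factorial : A) = b at *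
  generalize Ring.inverse ((m - i).factorial : A) = c at *
  rw [e] at h1
  linear_combination (c * b) * h1 - (a * m.choose i * c * (m - i).factorial) * h2 -
    (a * m.choose i) * h3

end DexpA

open DexpA in
theorem rowDexp : DexpS := by
  intro A S _ _ _ n J δ z h hδ hz hw
  have e1 : ∑ j ∈ range n, Ring.inverse ((j + 1).factorial : A) •
      (fun w => w * z - z * w)^[j] (δ z) =
      ∑ i ∈ range (n + 1), Ring.inverse (i.factorial : A) • g z (δ z) i := by
    rw [sum_range_succ']
    simp [g]
  have e2 : δ (ex A n z) = ∑ m ∈ range (n + 1), ∑ i ∈ range (m + 1),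
      (Ring.inverse ((m - i).factorial : A) • z ^ (m - i)) *
        (Ring.inverse (i.factorial : A) • g z (δ z) i) := by
    rw [ex, map_sum]
    refine sum_congr rfl fun m hm => ?_
    rw [map_smul, d_pow δ hδ, smul_sum]
    refine sum_congr rfl fun i hi => ?_
    rw [smul_mul_smul_comm, ← inv_choose h.tame (Nat.lt_succ_iff.1 (mem_range.1 hm))
      (Nat.lt_succ_iff.1 (mem_range.1 hi)), mul_smul, Nat.cast_smul_eq_nsmul]
  rw [e1, e2, sum_range_diag_flip (n + 1) fun i j => (Ring.inverse (j.factorial : A) • z ^ j) *
    (Ring.inverse (i.factorial : A) • g z (δ z) i), mul_sum]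
  refine sum_congr rfl fun i hi => ?_
  rw [ex, sum_mul]
  refine sum_subset (range_subset_range.2 (by omega)) fun j _ hj => ?_
  have hj' : n ≤ j + i := by
    have := mem_range.not.1 hj
    omega
  rw [smul_mul_smul_comm, h.top _ (h.anti hj' (pow_mul_mem h hz (g_mem h hz hw i) j)), smul_zero]

end Pool.Agent.MP_4f1c5b_al.H20
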