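import Pool.Agent.MP_4f1c5b_al.H20.Spec

/-!
Definable systems of centres for finite families closed under differentiation.
-/

namespace Pool.Agent.MP_4f1c5b_al.H20

open Classical IsLocalRing Polynomial

namespace DiagA

variable {R : Type} [CommRing R]

theorem pdiv {T : R[X]} {e : ℕ} (hT : T.natDegree ≤ e + 1) (n : ℕ) : ∀ f : R[X],
    f.natDegree ≤ e + n → ∃ (m : ℕ) (Q r : R[X]), r.natDegree ≤ e ∧
      C (T.coeff (e + 1)) ^ m * f = Q * T + r := by
  induction n with
  | zero => exact fun f hf => ⟨0, 0, f, hf, by simp⟩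
  | succ n ih =>
    intro f hf
    obtain ⟨m, Q, r, h1, h2⟩ := ih (C (T.coeff (e + 1)) * f - monomial n (f.coeff (e + 1 + n)) * T)
      (natDegree_le_iff_coeff_eq_zero.2 fun k hk => by
        obtain ⟨j, rfl⟩ : ∃ j, k = j + n := ⟨k - n, by omega⟩
        rw [coeff_sub, coeff_C_mul, coeff_monomial_mul]
        by_cases hj : j = e + 1
        · rw [hj, mul_comm, sub_self]
        · rw [coeff_eq_zero_of_natDegree_lt (p := f) (by omega),
            coeff_eq_zero_of_natDegree_lt (p := T) (n := j) (by omega)]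
          simp)
    refine ⟨m + 1, Q + C (T.coeff (e + 1)) ^ m * monomial n (f.coeff (e + 1 + n)), r, h1, ?_⟩
    linear_combination h2

theorem prem (f h : R[X]) (e : ℕ) : ∃ (m : ℕ) (r : R[X]), r.natDegree ≤ e ∧
    ∀ (O : Type) [CommRing O] (φ : R →+* O) (t : O), (h.map φ).natDegree ≤ e + 1 →
      (h.map φ).eval t = 0 → (r.map φ).eval t = φ (h.coeff (e + 1)) ^ m * (f.map φ).eval t := by
  let T : R[X] := ∑ i ∈ Finset.range (e + 2), monomial i (h.coeff i)
  have hc : ∀ k, T.coeff k = if k < e + 2 then h.coeff k else 0 := fun k => by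
    simp [T, coeff_monomial]
  obtain ⟨m, Q, r, h1, h2⟩ := pdiv (T := T) (e := e)
    (natDegree_le_iff_coeff_eq_zero.2 fun k hk => by rw [hc, if_neg (by omega)])
    f.natDegree f (Nat.le_add_left _ _)
  refine ⟨m, r, h1, fun O _ φ t h3 h4 => ?_⟩
  have h5 : T.map φ = h.map φ := by
    ext k
    rw [coeff_map, hc]
    split_ifs with hk
    · rw [coeff_map]
    · rw [map_zero, coeff_eq_zero_of_natDegree_lt (by omega)]
  have h6 := congrArg (fun p => (p.map φ).eval t) h2
  rw [hc, if_pos (by omega)] at h6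
  simpa [h5, h4] using h6.symm

/-- All iterated derivatives. -/
def ders (F : Set R[X]) : Set R[X] := {g | ∃ f ∈ F, ∃ l, g = derivative^[l] f}

theorem ders_fin {F : Set R[X]} (h : F.Finite) : (ders F).Finite := by
  refine (h.biUnion fun f _ => (Set.finite_Iic (f.natDegree + 1)).image
    fun l => derivative^[l] f).subset ?_
  rintro _ ⟨f, hf, l, rfl⟩
  refine Set.mem_biUnion hf ?_
  by_cases hl : l ≤ f.natDegree + 1
  · exact ⟨l, hl, rfl⟩
  · exact ⟨f.natDegree + 1, Set.mem_Iic.2 le_rfl,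
      (iterate_derivative_eq_zero (Nat.lt_succ_self f.natDegree)).trans
        (iterate_derivative_eq_zero (show f.natDegree < l by omega)).symm⟩

/-- The conclusion for one family. -/
def Con (N : ℕ) (F : Set R[X]) : Prop :=
  ∃ G : Set R, G.Finite ∧ ∀ (O : Type) [CommRing O] [IsDomain O] [IsDiscreteValuationRing O]
    [IsAdicComplete (maximalIdeal O) O] [Finite (ResidueField O)] (π : O) (X : Type)
    (B : Set (X → ℤ)) (pt : X → R →+* O), Irreducible π → Tame N O →
    (∀ g ∈ G, Df π B fun x => pt x g) →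
      ∃ (I : Type) (_ : Finite I) (c : I → X → O), Prep π B pt F c

theorem base {N : ℕ} {F : Set R[X]} (hF : F.Finite) (hd : ∀ f ∈ F, f.natDegree ≤ 0) :
    Con N F := by
  refine ⟨_, hF.image fun f => f.coeff 0, fun O _ _ _ _ _ π X B pt _ _ hG =>
    ⟨Unit, inferInstance, fun _ _ => 0, ⟨(), fun _ => rfl⟩, fun _ _ => Df.const _,
      fun f hf _ => (hG _ ⟨f, hf, rfl⟩).eq fun x => ?_, fun f hf x t h1 h2 => absurd ?_ h1⟩⟩
  · rw [← coeff_zero_eq_eval_zero, coeff_map]
  · rw [eq_C_of_natDegree_le_zero (hd f hf), map_C] at h2 ⊢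
    rw [eval_C] at h2
    rw [h2, C_0]

theorem step (hS : StepS) {N : ℕ} {H F' : Set R[X]} {f : R[X]} (hH : H.Finite)
    (h1 : ∀ h ∈ H, derivative h ∈ H) (h2 : derivative f ∈ H) (h3 : f.natDegree ≤ N)
    {D : ℕ} (hD : D ≤ N) (h4 : ∀ h ∈ H, h.natDegree ≤ D) (h5 : H ⊆ F')
    (h6 : ∀ h ∈ H, ∀ e < D, (prem f h e).choose_spec.choose ∈ F') (hF : Con N F') :
    Con N (insert f H) := by
  obtain ⟨G, hG, hF⟩ := hF
  refine ⟨_, hG.union (((hH.insert f).image2 (fun g j => g.coeff j) (Set.finite_Iic N))),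
    fun O _ _ _ _ _ π X B pt hπ hN hB => ?_⟩
  obtain ⟨I, _, c, hc⟩ := hF O π X B pt hπ hN fun g hg => hB g (Or.inl hg)
  have co : ∀ g ∈ insert f H, ∀ j ≤ N, Df π B fun x => pt x (g.coeff j) := fun g hg j hj =>
    hB _ (Or.inr ⟨g, hg, j, hj, rfl⟩)
  have := hH.to_subtype
  obtain ⟨i0, hi0⟩ := hc.zero
  let P : I → H × Fin D → X → Prop := fun i p x =>
    (∀ j ∈ Finset.range (N + 1), p.2 + 1 < j → pt x (p.1.1.coeff j) = 0) ∧
      ¬ pt x (p.1.1.coeff (p.2 + 1)) = 0 ∧ (p.1.1.map (pt x)).eval (c i x) = 0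
  have c1 : ∀ p : H × Fin D, Df π B fun x => pt x (p.1.1.coeff (p.2 + 1)) := fun p =>
    co _ (Or.inr p.1.2) _ (by have := p.2.2; omega)
  have hP : ∀ i p, DP B (P i p) := fun i p =>
    (DP.ball _ fun j hj => (DP.const _).imp
      ((co _ (Or.inr p.1.2) j (Nat.lt_succ_iff.1 (Finset.mem_range.1 hj))).zero hπ)).and
      (((c1 p).zero hπ).not.and ((hc.val _ (h5 p.1.2) i).zero hπ))
  have hR : ∀ i, DP B fun x => ∃ p, P i p x := fun i => DP.ex (hP i)
  refine hS O π N X I R B pt H f (fun i x => if ∃ p, P i p x then c i x else c i0 x) hπ hN h1 h2 h3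
    (fun h hh => (h4 h hh).trans hD) ⟨⟨i0, fun x => by rw [ite_self, hi0]⟩, fun i j => ?_,
      fun g hg i => ?_, fun g hg x t g1 g2 => ?_⟩ fun i => ?_
  · refine (Df.ite (hR i) (Df.ite (hR j) (hc.diff i j) (hc.diff i i0))
      (Df.ite (hR j) (hc.diff i0 j) (hc.diff i0 i0))).eq fun x => ?_
    split_ifs <;> rfl
  · refine (Df.ite (hR i) (hc.val g (h5 hg) i) (hc.val g (h5 hg) i0)).eq fun x => ?_
    split_ifs <;> rfl
  · obtain ⟨i, rfl⟩ := hc.root g (h5 hg) x t g1 g2
    refine ⟨i, if_pos ?_⟩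
    obtain ⟨e, he⟩ := Nat.exists_eq_succ_of_ne_zero (n := (g.map (pt x)).natDegree) fun h0 => by
      rw [eq_C_of_natDegree_eq_zero h0] at g1 g2
      rw [eval_C] at g2
      exact g1 (by rw [g2, C_0])
    have hl := (natDegree_map_le (f := pt x) (p := g)).trans (h4 g hg)
    refine ⟨(⟨g, hg⟩, ⟨e, by omega⟩), fun j _ hj => ?_, ?_, g2⟩
    · rw [← coeff_map]
      exact coeff_eq_zero_of_natDegree_lt (he ▸ hj)
    · rw [← coeff_map]
      exact fun h0 => g1 (leadingCoeff_eq_zero.1 (by rw [leadingCoeff, he]; exact h0))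
  · refine Df.cover (ι := Option (H × Fin D))
      (P := fun o x => o.elim (¬ ∃ p, P i p x) fun p => P i p x)
      (a := fun o x => o.elim (pt x (f.coeff 0)) fun p =>
        if P i p x then (f.map (pt x)).eval (c i x) else 0) ?_ ?_ (fun x => ?_) ?_
    · rintro (_ | p)
      exacts [(hR i).not, hP i p]
    · rintro (_ | p)
      · exact co f (Or.inl rfl) 0 (Nat.zero_le _)
      · refine Df.cancel hπ (Df.ite (hP i p) (hc.val _ (h6 _ p.1.2 _ p.2.2) i) (Df.const 0))
          (Df.ite (hP i p) ((c1 p).pow hπ (prem f p.1.1 p.2).choose) (Df.const 1)) fun x => ?_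
        by_cases hx : P i p x
        · simp only [Option.elim, if_pos hx]
          refine ⟨pow_ne_zero _ hx.2.1, (prem f p.1.1 p.2).choose_spec.choose_spec.2 O (pt x) _
            (natDegree_le_iff_coeff_eq_zero.2 fun j hj => ?_) hx.2.2⟩
          rw [coeff_map]
          by_cases hj' : j ≤ N
          · exact hx.1 j (Finset.mem_range.2 (by omega)) hj
          · have := h4 _ p.1.2
            rw [coeff_eq_zero_of_natDegree_lt (by omega), map_zero]
        · simp [if_neg hx]
    · by_cases hx : ∃ p, P i p x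
      · exact hx.elim fun p hp => ⟨some p, hp⟩
      · exact ⟨none, hx⟩
    · rintro (_ | p) x hx
      · simp only [Option.elim] at hx ⊢
        rw [if_neg hx, hi0, ← coeff_zero_eq_eval_zero, coeff_map]
        exact ⟨rfl, rfl⟩
      · simp only [Option.elim] at hx ⊢
        rw [if_pos hx, if_pos ⟨p, hx⟩]
        exact ⟨rfl, rfl⟩

theorem main (hS : StepS) (N D : ℕ) (hD : D ≤ N) : ∀ F : Set R[X], F.Finite →
    (∀ f ∈ F, derivative f ∈ F) → (∀ f ∈ F, f.natDegree ≤ D) → Con N F := by
  induction D with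
  | zero => exact fun F h1 _ h3 => base h1 h3
  | succ D ih =>
    have key : ∀ (k : ℕ) (F : Set R[X]), F.Finite → (∀ f ∈ F, derivative f ∈ F) →
        (∀ f ∈ F, f.natDegree ≤ D + 1) → {f ∈ F | f.natDegree = D + 1}.ncard < k → Con N F := by
      intro k
      induction k with
      | zero => exact fun _ _ _ _ h => absurd h (Nat.not_lt_zero _)
      | succ k ihk =>
        intro F h1 h2 h3 h4
        by_cases h5 : ∃ f ∈ F, f.natDegree = D + 1
        swap
        · push Not at h5
          exact ih (by omega) F h1 h2 fun f hf => by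
            have := h3 f hf
            have := h5 f hf
            omega
        obtain ⟨f, hf, hfd⟩ := h5
        have hder : ∀ g ∈ F, derivative g ∈ F \ {f} := fun g hg => ⟨h2 g hg, fun e => by
          have h6 := natDegree_derivative_le g
          have := h3 g hg
          rw [show derivative g = f from e] at h6
          omega⟩
        let Q : Set R[X] := Set.image2 (fun h e => (prem f h e).choose_spec.choose) F (Set.Iic D)
        have hQ : ∀ g ∈ ders Q, g.natDegree ≤ D := by
          rintro _ ⟨_, ⟨h, -, e, he, rfl⟩, l, rfl⟩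
          exact (natDegree_iterate_derivative _ l).trans ((Nat.sub_le _ _).trans
            ((prem f h e).choose_spec.choose_spec.1.trans he))
        rw [← Set.insert_sdiff_self_of_mem hf]
        refine step hS (F' := F \ {f} ∪ ders Q) (h1.subset Set.sdiff_subset)
          (fun h hh => hder h hh.1) (hder f hf) (hfd.le.trans hD) hD (fun h hh => h3 h hh.1)
          Set.subset_union_left
          (fun h hh e he => Or.inr ⟨_, ⟨h, hh.1, e, Nat.lt_succ_iff.1 he, rfl⟩, 0, rfl⟩)
          (ihk _ ((h1.subset Set.sdiff_subset).union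
            (ders_fin (h1.image2 _ (Set.finite_Iic D)))) ?_ ?_ ?_)
        · rintro g (hg | ⟨r, hr, l, rfl⟩)
          · exact Or.inl (hder g hg.1)
          · exact Or.inr ⟨r, hr, l + 1, (Function.iterate_succ_apply' _ _ _).symm⟩
        · rintro g (hg | hg)
          exacts [h3 g hg.1, (hQ g hg).trans (Nat.le_succ D)]
        · refine lt_of_lt_of_le (Set.ncard_lt_ncard ⟨?_, fun h6 => ?_⟩
            (h1.subset (Set.sep_subset _ _))) (Nat.lt_succ_iff.1 h4)
          · rintro g ⟨hg | hg, hg'⟩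
            · exact ⟨hg.1, hg'⟩
            · have := hQ g hg
              omega
          · rcases (h6 ⟨hf, hfd⟩).1 with h7 | h7
            · exact h7.2 rfl
            · have := hQ f h7
              omega
    exact fun F h1 h2 h3 => key _ F h1 h2 h3 (Nat.lt_succ_self _)

end DiagA

theorem rowDiag : StepS → DiagS := fun hS _ _ F N h1 h2 h3 => DiagA.main hS N N le_rfl F h1 h2 h3

end Pool.Agent.MP_4f1c5b_al.H20
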