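import Pool.Agent.MP_4f1c5b_al.H20.Spec

/-!
The properties of the truncated exponential on a filtered algebra.
-/

namespace Pool.Agent.MP_4f1c5b_al.H20

open Finset

namespace ExA

variable {A S : Type} [CommRing A] [Ring S] [Algebra A S] {n : ℕ} {J : ℕ → Submodule A S}

theorem coef (h : Tame n A) {i j : ℕ} (hij : i + j ≤ n) :
    Ring.inverse ((i + j).factorial : A) * ((i + j).choose i : A) =
      Ring.inverse (i.factorial : A) * Ring.inverse (j.factorial : A) := by
  have h1 := Ring.mul_inverse_cancel _ (h.fac (k := i) (by omega))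
  have h2 := Ring.mul_inverse_cancel _ (h.fac (k := j) (by omega))
  have h3 := Ring.inverse_mul_cancel _ (h.fac (k := i + j) hij)
  have h4 : ((i + j).factorial : A) = ((i + j).choose i : A) * i.factorial * j.factorial := by
    have := Nat.choose_mul_factorial_mul_factorial (Nat.le_add_right i j)
    rw [Nat.add_sub_cancel_left] at this
    rw [← this]
    push_cast
    ring
  set K := Ring.inverse ((i + j).factorial : A)
  set a := Ring.inverse (i.factorial : A)
  set b := Ring.inverse (j.factorial : A)
  rw [h4] at h3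
  linear_combination (-(K * ((i + j).choose i : A))) * h1
    - (K * ((i + j).choose i : A) * i.factorial * a) * h2 + a * b * h3

theorem tri {M : Type} [AddCommMonoid M] (T : ℕ × ℕ → M) (n : ℕ)
    (hT : ∀ p : ℕ × ℕ, n < p.1 + p.2 → T p = 0) :
    ∑ k ∈ range (n + 1), ∑ p ∈ antidiagonal k, T p =
      ∑ p ∈ range (n + 1) ×ˢ range (n + 1), T p := by
  have h1 : ∑ p ∈ (range (n + 1) ×ˢ range (n + 1)).filter (fun p => p.1 + p.2 ≤ n), T p =
      ∑ p ∈ range (n + 1) ×ˢ range (n + 1), T p := by
    refine Finset.sum_filter_of_ne fun p _ hp => ?_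
    by_contra hc
    exact hp (hT p (by omega))
  rw [← h1, ← Finset.sum_fiberwise_of_maps_to (t := range (n + 1))
    (g := fun p : ℕ × ℕ => p.1 + p.2)]
  · refine Finset.sum_congr rfl fun k hk => Finset.sum_congr ?_ fun _ _ => rfl
    ext p
    simp only [HasAntidiagonal.mem_antidiagonal, mem_filter, mem_product, mem_range] at hk ⊢
    omega
  · intro p hp
    simp only [mem_filter, mem_product, mem_range] at hp ⊢
    omega

theorem key {R : Type} [Ring R] [Algebra A R] (h : Tame n A) (φ : R →ₗ[A] S) (u v : R)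
    (huv : Commute u v) (h0 : ∀ i j, n < i + j → φ (u ^ i * v ^ j) = 0) :
    φ (ex A n (u + v)) = φ (ex A n u * ex A n v) := by
  have e1 : φ (ex A n (u + v)) = ∑ k ∈ range (n + 1), ∑ p ∈ antidiagonal k,
      (Ring.inverse (p.1.factorial : A) * Ring.inverse (p.2.factorial : A)) •
        φ (u ^ p.1 * v ^ p.2) := by
    simp only [ex, map_sum, map_smul]
    refine Finset.sum_congr rfl fun k hk => ?_
    rw [huv.add_pow', map_sum, Finset.smul_sum]
    refine Finset.sum_congr rfl fun p hp => ?_
    rw [HasAntidiagonal.mem_antidiagonal] at hp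
    rw [mem_range] at hk
    subst hp
    rw [← coef h (by omega), map_nsmul, ← Nat.cast_smul_eq_nsmul A, smul_smul]
  rw [e1, tri _ n]
  · simp only [ex]
    rw [Finset.sum_mul_sum, Finset.sum_product, map_sum]
    refine Finset.sum_congr rfl fun i _ => ?_
    rw [map_sum]
    refine Finset.sum_congr rfl fun j _ => ?_
    rw [smul_mul_smul_comm, map_smul]
  · intro p hp
    rw [h0 _ _ hp, smul_zero]

theorem pow_mem (h : Fil A S n J) {x : S} (hx : x ∈ J 1) (k : ℕ) : x ^ (k + 1) ∈ J (k + 1) := by
  induction k with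
  | zero => simpa using hx
  | succ k ih => rw [pow_succ]; exact h.mul ih hx

theorem pow_mul_mem (h : Fil A S n J) {x w : S} {i : ℕ} (hx : x ∈ J 1) (hw : w ∈ J i) (k : ℕ) :
    x ^ k * w ∈ J (k + i) := by
  cases k with
  | zero => simpa using hw
  | succ k => exact h.mul (pow_mem h hx k) hw

theorem mul_pow_mem (h : Fil A S n J) {x w : S} {i : ℕ} (hx : x ∈ J 1) (hw : w ∈ J i) (k : ℕ) :
    w * x ^ k ∈ J (i + k) := by
  cases k with
  | zero => simpa using hw
  | succ k => exact h.mul hw (pow_mem h hx k)

theorem pow_sub (h : Fil A S n J) {x y : S} {i : ℕ} (hx : x ∈ J 1) (hy : y ∈ J 1)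
    (hxy : x - y ∈ J i) (k : ℕ) : x ^ (k + 2) - y ^ (k + 2) ∈ J (i + 1) := by
  have step : ∀ m : ℕ, x ^ (m + 1) - y ^ (m + 1) ∈ J i →
      x ^ (m + 2) - y ^ (m + 2) ∈ J (i + 1) := by
    intro m hm
    have e : x ^ (m + 2) - y ^ (m + 2) =
        x * (x ^ (m + 1) - y ^ (m + 1)) + (x - y) * y ^ (m + 1) := by
      rw [pow_succ' x (m + 1), pow_succ' y (m + 1)]
      noncomm_ring
    rw [e]
    refine Submodule.add_mem _ ?_ ?_
    · rw [add_comm i 1]
      exact h.mul hx hm
    · exact h.anti (by omega) (mul_pow_mem h hy hxy (m + 1))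
  induction k with
  | zero => exact step 0 (by simpa using hxy)
  | succ k ih => exact step (k + 1) (h.anti (Nat.le_succ i) ih)

theorem ex_zero : ex A n (0 : S) = 1 := by
  simp [ex, Finset.sum_range_succ']

theorem ex_sub (h : Fil A S n J) (i : ℕ) (x y : S) (hx : x ∈ J 1) (hy : y ∈ J 1)
    (hxy : x - y ∈ J i) : ex A n x - ex A n y - (x - y) ∈ J (i + 1) := by
  cases n with
  | zero =>
    have h1 : x = 0 := h.top x (h.anti (Nat.zero_le 1) hx)
    have h2 : y = 0 := h.top y (h.anti (Nat.zero_le 1) hy)
    simp [h1, h2]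
  | succ m =>
    have e : ex A (m + 1) x - ex A (m + 1) y - (x - y) = ∑ k ∈ range m,
        Ring.inverse ((k + 2).factorial : A) • (x ^ (k + 2) - y ^ (k + 2)) := by
      simp only [ex, Finset.sum_range_succ', smul_sub, Finset.sum_sub_distrib]
      simp only [zero_add, Nat.factorial_one, Nat.factorial_zero, Nat.cast_one,
        Ring.inverse_one, one_smul, pow_one, pow_zero]
      abel
    rw [e]
    exact Submodule.sum_mem _ fun k _ => Submodule.smul_mem _ _ (pow_sub h hx hy hxy k)

theorem conj_pow' {g g' : S} (h1 : g * g' = 1) (h2 : g' * g = 1) (x : S) (k : ℕ) :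
    (g * x * g') ^ k = g * x ^ k * g' := by
  induction k with
  | zero => simp [h1]
  | succ k ih =>
    rw [pow_succ, ih, pow_succ]
    calc g * x ^ k * g' * (g * x * g') = g * x ^ k * (g' * g) * x * g' := by
          simp only [mul_assoc]
      _ = g * (x ^ k * x) * g' := by rw [h2]; simp only [mul_one, mul_assoc]

theorem ex_ad (h : Fil A S n J) (x y : S) (hx : x ∈ J 1) (hy : y ∈ J 1) :
    ex A n y * x * ex A n (-y) = ∑ k ∈ range (n + 1),
      Ring.inverse (k.factorial : A) • (fun z => y * z - z * y)^[k] x := by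
  let u : Module.End A S := LinearMap.mulLeft A y
  let v : Module.End A S := LinearMap.mulRight A (-y)
  have hu : ∀ (k : ℕ) (z : S), (u ^ k) z = y ^ k * z := by
    intro k z
    simp only [u, LinearMap.pow_mulLeft, LinearMap.mulLeft_apply]
  have hv : ∀ (k : ℕ) (z : S), (v ^ k) z = z * (-y) ^ k := by
    intro k z
    simp only [v, LinearMap.pow_mulRight, LinearMap.mulRight_apply]
  have huv : Commute u v := by
    refine LinearMap.ext fun z => ?_
    simp only [u, v, Module.End.mul_apply, LinearMap.mulLeft_apply, LinearMap.mulRight_apply,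
      mul_assoc]
  have hk := key h.tame (LinearMap.applyₗ x : Module.End A S →ₗ[A] S) u v huv (by
    intro i j hij
    rw [LinearMap.applyₗ_apply_apply, Module.End.mul_apply, hv, hu]
    exact h.top _ (h.anti (by omega)
      (pow_mul_mem h hy (mul_pow_mem h (Submodule.neg_mem _ hy) hx j) i)))
  rw [LinearMap.applyₗ_apply_apply, LinearMap.applyₗ_apply_apply, Module.End.mul_apply] at hk
  have e1 : ∀ z : S, (ex A n u) z = ex A n y * z := by
    intro z
    simp only [ex, LinearMap.sum_apply, LinearMap.smul_apply, hu, Finset.sum_mul, smul_mul_assoc]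
  have e2 : ∀ z : S, (ex A n v) z = z * ex A n (-y) := by
    intro z
    simp only [ex, LinearMap.sum_apply, LinearMap.smul_apply, hv, Finset.mul_sum, mul_smul_comm]
  have e3 : (fun z => y * z - z * y) = ⇑(u + v) := by
    funext z
    simp only [u, v, LinearMap.add_apply, LinearMap.mulLeft_apply, LinearMap.mulRight_apply,
      mul_neg, sub_eq_add_neg]
  rw [e2, e1] at hk
  rw [mul_assoc, ← hk, e3]
  simp only [ex, LinearMap.sum_apply, LinearMap.smul_apply, Module.End.pow_apply]

end ExA

open ExA in
theorem rowEx : ExS := by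
  intro A S _ _ _ n J h
  refine ⟨ex_sub h, ?_, ?_, ?_, ?_, ex_zero, ?_, ex_ad h⟩
  · intro x y hx hy hxy
    have : ∀ i, x - y ∈ J i := by
      intro i
      induction i with
      | zero => exact h.anti (Nat.zero_le 1) (Submodule.sub_mem _ hx hy)
      | succ i ih =>
        have := ex_sub h i x y hx hy ih
        rw [hxy, sub_self, zero_sub] at this
        simpa using Submodule.neg_mem _ this
    exact sub_eq_zero.1 (h.top _ (this n))
  · intro u hu
    have : ∀ i, ∃ z ∈ J 1, ex A n z - (1 + u) ∈ J (i + 1) := by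
      intro i
      induction i with
      | zero =>
        refine ⟨0, Submodule.zero_mem _, ?_⟩
        rw [ex_zero]
        simpa using Submodule.neg_mem _ hu
      | succ i ih =>
        obtain ⟨z, hz, he⟩ := ih
        have hz' : z - (ex A n z - (1 + u)) ∈ J 1 :=
          Submodule.sub_mem _ hz (h.anti (by omega) he)
        refine ⟨_, hz', ?_⟩
        have := ex_sub h (i + 1) _ z hz' hz (by simpa using Submodule.neg_mem _ he)
        convert this using 1
        abel
    obtain ⟨z, hz, he⟩ := this n
    exact ⟨z, hz, sub_eq_zero.1 (h.top _ (h.anti (Nat.le_succ n) he))⟩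
  · intro x hx
    have := ex_sub h 0 x 0 hx (Submodule.zero_mem _) (by
      simpa using h.anti (Nat.zero_le 1) hx)
    rw [ex_zero] at this
    have h2 := Submodule.add_mem _ this hx
    simpa using h2
  · intro x y hx hy hxy
    refine key h.tame (LinearMap.id : S →ₗ[A] S) x y hxy ?_
    intro i j hij
    rw [LinearMap.id_apply]
    cases j with
    | zero =>
      cases i with
      | zero => omega
      | succ i =>
        rw [pow_zero, mul_one]
        exact h.top _ (h.anti (by omega) (pow_mem h hx i))
    | succ j => exact h.top _ (h.anti (by omega) (pow_mul_mem h hx (pow_mem h hy j) i))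
  · intro g g' x h1 h2
    simp only [ex, Finset.mul_sum, Finset.sum_mul, conj_pow' h1 h2, mul_smul_comm,
      smul_mul_assoc]

end Pool.Agent.MP_4f1c5b_al.H20
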