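import Pool.Agent.MP_4f1c5b_al.H20.Spec

/-!
Removal of the bad factors of the denominators and the vanishing at zero.
-/

namespace Pool.Agent.MP_4f1c5b_al.H20

open Polynomial AlgebraicGeometry CategoryTheory IsLocalRing Filter Pool.Agent.MP_4f1c5b_al.H1

namespace FinA

variable {o : Type} [CommRing o] {n r : ℕ}

/-- The numerator at a given ring. -/
noncomputable def num (A : Fin r → ℚ[X][X]) (q : ℚ) (c : Fin r → ℚ) : ℚ[X] :=
  ∑ i, C (c i) * (A i).map (evalRingHom q)

/-- The formula over a common denominator. -/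
def SP (S : Set (MvPolynomial (Fin n × Fin n) o)) (V : Fin r → Over (Spec (CommRingCat.of o)))
    (A : Fin r → ℚ[X][X]) (D : ℚ[X][X]) : Prop :=
  ∃ N : ℕ, ∀ (O : Type) [CommRing O] [IsDomain O] [IsDiscreteValuationRing O] [CharZero O]
    [Algebra o O] [IsAdicComplete (maximalIdeal O) O] [Finite (ResidueField O)]
    [TopologicalSpace O], IsAdic (maximalIdeal O) → N ≤ ringChar (ResidueField O) →
      ∀ᶠ s : ℝ in atTop, HasSum (fun d : ℕ => (rt (grp S O) d : ℝ) * (d : ℝ) ^ (-s))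
        (aeval ((Nat.card (ResidueField O) : ℝ) ^ (-s))
          (num A (Nat.card (ResidueField O)) fun i => cnt (V i) (ResidueField O)) /
          aeval ((Nat.card (ResidueField O) : ℝ) ^ (-s))
            (D.map (evalRingHom (Nat.card (ResidueField O) : ℚ))))

variable {S : Set (MvPolynomial (Fin n × Fin n) o)} {V : Fin r → Over (Spec (CommRingCat.of o))}

theorem two_le (F : Type) [Field F] [Finite F] : 2 ≤ Nat.card F :=
  (char_prime F).two_le.trans (char_le_card F)

theorem large_map {D : ℚ[X][X]} (hD : D ≠ 0) :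
    Large o V fun q _ => D.map (evalRingHom q) ≠ 0 ∧ (D.map (evalRingHom q)).degree = D.degree :=
  (large_ne (leadingCoeff_ne_zero.2 hD)).mono fun q _ h => by
    have h1 := degree_map_eq_of_leadingCoeff_ne_zero (evalRingHom q) (p := D) h
    refine ⟨fun h0 => ?_, h1⟩
    rw [h0, degree_zero] at h1
    exact hD (degree_eq_bot.1 h1.symm)

theorem sp_iff {A : Fin r → ℚ[X][X]} {D : ℚ[X][X]} : SP S V A D ↔ Formula S V A fun _ => D := by
  refine exists_congr fun N => ?_
  refine forall_congr' fun O => ?_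
  simp only [← mul_div_assoc, ← Finset.sum_div, ev_map, num, map_sum, map_mul, aeval_C,
    eq_ratCast, Rat.cast_natCast]

theorem sp_of {A B : Fin r → ℚ[X][X]} (hB : ∀ i, B i ≠ 0) (h : Formula S V A B) :
    SP S V (fun i => A i * ∏ j ∈ Finset.univ.erase i, B j) (∏ i, B i) := by
  obtain ⟨N, hN⟩ := h
  obtain ⟨N', hN'⟩ := large_map (V := V) (Finset.prod_ne_zero_iff.2 fun i (_ : i ∈ Finset.univ) =>
    hB i)
  have hBD : ∀ i, B i * ∏ j ∈ Finset.univ.erase i, B j = ∏ i, B i := fun i =>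
    Finset.mul_prod_erase _ _ (Finset.mem_univ i)
  refine sp_iff.2 ⟨max N N', fun O _ _ _ _ _ _ _ _ hO hp => ?_⟩
  filter_upwards [hN O hO ((le_max_left _ _).trans hp),
    ev_ne (hN' O ((le_max_right _ _).trans hp)).1 (two_le (ResidueField O))] with s hs hs'
  refine Eq.mp (congrArg (fun x => HasSum _ x) (Finset.sum_congr rfl fun i _ => ?_)) hs
  rw [← ev_map, ← hBD i, ev_eq, map_mul] at hs'
  rw [← hBD i]
  simp only [ev_eq, map_mul]
  have := left_ne_zero_of_mul hs'
  have := right_ne_zero_of_mul hs'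
  field_simp

theorem SP.of_num {A A' : Fin r → ℚ[X][X]} {D : ℚ[X][X]} (h : SP S V A D)
    (e : Large o V fun q c => num A q c = num A' q c) : SP S V A' D := by
  obtain ⟨N, hN⟩ := h
  obtain ⟨N', hN'⟩ := e
  refine ⟨max N N', fun O _ _ _ _ _ _ _ _ hO hp => ?_⟩
  rw [← hN' O ((le_max_right _ _).trans hp)]
  exact hN O hO ((le_max_left _ _).trans hp)

theorem SP.cancel {A : Fin r → ℚ[X][X]} {φ D : ℚ[X][X]} (hφ : φ ≠ 0)
    (h : SP S V (fun i => φ * A i) (φ * D)) : SP S V A D := by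
  obtain ⟨N, hN⟩ := h
  obtain ⟨N', hN'⟩ := large_map (V := V) hφ
  refine ⟨max N N', fun O _ _ _ _ _ _ _ _ hO hp => ?_⟩
  filter_upwards [hN O hO ((le_max_left _ _).trans hp),
    ev_ne (hN' O ((le_max_right _ _).trans hp)).1 (two_le (ResidueField O))] with s hs hs'
  refine Eq.mp (congrArg (fun x => HasSum _ x) ?_) hs
  have e : ∀ q c, num (fun i => φ * A i) q c = φ.map (evalRingHom q) * num A q c := by
    intro q c
    simp only [num, Polynomial.map_mul, Finset.mul_sum]
    exact Finset.sum_congr rfl fun i _ => by ring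
  rw [e, Polynomial.map_mul, map_mul, map_mul, mul_div_mul_left _ _ hs']

theorem pseudo {R : Type} [CommRing R] [IsDomain R] {φ : R[X]} (hφ : φ ≠ 0) (A : R[X]) :
    ∃ (m : ℕ) (Q T : R[X]), C φ.leadingCoeff ^ m * A = φ * Q + T ∧ T.degree < φ.degree := by
  induction h : A.natDegree using Nat.strong_induction_on generalizing A with
  | _ k ih =>
  by_cases h1 : A.degree < φ.degree
  · exact ⟨0, 0, A, by simp, h1⟩
  have hA : A ≠ 0 := by
    rintro rfl
    exact h1 (by rw [degree_zero]; exact bot_lt_iff_ne_bot.2 (degree_ne_bot.2 hφ))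
  have h2 : φ.natDegree ≤ A.natDegree := natDegree_le_natDegree (not_lt.1 h1)
  have hl := leadingCoeff_ne_zero.2 hφ
  have hl' := leadingCoeff_ne_zero.2 hA
  set W := C A.leadingCoeff * X ^ (A.natDegree - φ.natDegree) with hW
  have d1 : (C φ.leadingCoeff * A).degree = A.degree := degree_C_mul hl
  have d2 : (φ * W).degree = A.degree := by
    rw [degree_mul, hW, degree_C_mul_X_pow _ hl', degree_eq_natDegree hφ, degree_eq_natDegree hA,
      ← Nat.cast_add, Nat.add_sub_cancel' h2]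
  have d3 : (C φ.leadingCoeff * A - φ * W).degree < A.degree := by
    rw [← d1]
    refine degree_sub_lt_left (d1.trans d2.symm) (mul_ne_zero (C_ne_zero.2 hl) hA) ?_
    simp [hW]
  by_cases h0 : C φ.leadingCoeff * A - φ * W = 0
  · refine ⟨1, W, 0, by rw [pow_one, add_zero]; exact sub_eq_zero.1 h0, ?_⟩
    rw [degree_zero]; exact bot_lt_iff_ne_bot.2 (degree_ne_bot.2 hφ)
  obtain ⟨m, Q, T, e, hT⟩ := ih _ (h ▸ natDegree_lt_natDegree h0 d3) _ rfl
  exact ⟨m + 1, Q + C φ.leadingCoeff ^ m * W, T, by linear_combination e, hT⟩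

theorem bin_root {q : ℕ} {D : ℚ[X]} (h : Bin q D) {y : ℂ} (hy : aeval y D = 0) :
    ∃ (a : ℤ) (b : ℕ), 0 < b ∧ (q : ℂ) ^ a * y ^ b = 1 := by
  induction h using Submonoid.closure_induction with
  | mem F hF =>
    obtain ⟨a, b, hb, rfl⟩ := hF
    refine ⟨a, b, hb, ?_⟩
    simp only [map_sub, map_one, map_mul, aeval_C, map_pow, aeval_X, eq_ratCast, Rat.cast_zpow,
      Rat.cast_natCast] at hy
    exact (sub_eq_zero.1 hy).symm
  | one => simp at hy
  | mul F G _ _ hF hG =>
    rw [map_mul, mul_eq_zero] at hy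
    exact hy.elim hF hG

/-- The vector of numerators is fixed by the matrix `e`. -/
def Fix (e : Fin r → Fin r → ℚ[X]) (A : Fin r → ℚ[X][X]) : Prop :=
  ∀ i, A i = ∑ j, C (e i j) * A j

theorem kill {e : Fin r → Fin r → ℚ[X]} (he : ∀ α ∈ Rel V, ∀ i, ∑ j, e i j * α j = 0)
    {T : Fin r → ℚ[X][X]} (h : Large o V fun q c => num T q c = 0) (i : Fin r) :
    ∑ j, C (e i j) * T j = 0 := by
  ext1 k
  simp only [finsetSum_coeff, coeff_C_mul, coeff_zero]
  refine he _ (mem_rel.2 (h.mono fun q c h => ?_)) i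
  have := congrArg (fun P => coeff P k) h
  simp only [num, finsetSum_coeff, coeff_C_mul, coeff_map, coe_evalRingHom, coeff_zero] at this
  rw [← this]
  exact Finset.sum_congr rfl fun i _ => mul_comm _ _

theorem bad_dvd (pole : PoleS) (k1 : Key1S) (k2 : Key2S) (dir : DirS) (hS : IsGroup S)
    {e : Fin r → Fin r → ℚ[X]} (he : ∀ α ∈ Rel V, ∀ i, ∑ j, e i j * α j = 0)
    {A : Fin r → ℚ[X][X]} {φ D : ℚ[X][X]} (hφ : Irreducible φ) (hD : D ≠ 0)
    (hb : ¬ (Associated φ (X - 1) ∨ rd_Good φ)) (h : SP S V A (φ * D)) (hA : Fix e A) (i : Fin r) :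
    φ ∣ A i := by
  classical
  have h0 : 0 < φ.natDegree :=
    Nat.pos_of_ne_zero fun h => hb (Or.inr (k2.2.1 φ hφ.ne_zero h))
  have h1 : ¬ ∀ N : ℕ, ∃ (p f : ℕ) (a : ℤ) (b : ℕ) (y : ℂ), p.Prime ∧ N ≤ p ∧ 0 < f ∧ 0 < b ∧
      aeval y (φ.map (evalRingHom ((p : ℚ) ^ f))) = 0 ∧ ((p : ℂ) ^ f) ^ a * y ^ b = 1 := by
    intro h1
    obtain ⟨a, b, hb', h2⟩ := k1 φ hφ.ne_zero h1
    exact hb (k2.1 φ a b hφ h0 hb' h2)
  push Not at h1
  obtain ⟨N1, h1⟩ := h1
  obtain ⟨N2, h2⟩ := pole o n S hS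
  obtain ⟨N3, h3⟩ := h
  obtain ⟨N4, h4⟩ := large_map (V := V) (mul_ne_zero hφ.ne_zero hD)
  have h5 : Large o V fun q c => φ.map (evalRingHom q) ∣ num A q c := by
    refine ⟨max (max N1 N2) (max N3 N4), fun O _ _ _ _ _ _ _ hp => ?_⟩
    simp only [max_le_iff] at hp
    let _ : TopologicalSpace O := (maximalIdeal O).adicTopology
    have hO : IsAdic (maximalIdeal O) := rfl
    obtain ⟨DO, T, hb, hT⟩ := h2 O hO hp.1.2
    have h6 := dir _ _ _ _ (two_le _) (h4 O hp.2.2).1 (h3 O hO hp.2.1)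
    have h7 : DO * num A (Nat.card (ResidueField O)) (fun i => cnt (V i) (ResidueField O)) =
        φ.map (evalRingHom (Nat.card (ResidueField O) : ℚ)) *
          (D.map (evalRingHom (Nat.card (ResidueField O) : ℚ)) * T) := by
      apply Polynomial.coe_injective ℚ
      simp only [Polynomial.coe_mul]
      rw [← h6, ← hT, Polynomial.map_mul, Polynomial.coe_mul]
      ring
    have h8 : IsCoprime (φ.map (evalRingHom (Nat.card (ResidueField O) : ℚ))) DO := by
      refine (isCoprime_iff_aeval_ne_zero_of_isAlgClosed ℚ ℂ _ _).2 fun y => ?_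
      by_contra h9
      push Not at h9
      obtain ⟨a, b, hb', h10⟩ := bin_root hb h9.2
      have := Fintype.ofFinite (ResidueField O)
      obtain ⟨f, hp', hf⟩ := FiniteField.card (ResidueField O) (ringChar (ResidueField O))
      rw [← Nat.card_eq_fintype_card] at hf
      refine h1 _ f a b y hp' hp.1.1 f.2 hb' ?_ ?_
      · have := h9.1
        rwa [hf, Nat.cast_pow] at this
      · rwa [hf, Nat.cast_pow] at h10
    exact h8.dvd_of_dvd_mul_left ⟨_, h7⟩
  choose m Q T hQ hT using pseudo hφ.ne_zero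
  set M := ∑ j, m (A j) with hM
  have hm : ∀ j, m (A j) ≤ M := fun j =>
    Finset.single_le_sum (f := fun j => m (A j)) (fun _ _ => Nat.zero_le _) (Finset.mem_univ j)
  set L := C φ.leadingCoeff with hL
  let T' : Fin r → ℚ[X][X] := fun j => L ^ (M - m (A j)) * T (A j)
  let Q' : Fin r → ℚ[X][X] := fun j => L ^ (M - m (A j)) * Q (A j)
  have hQ' : ∀ j, L ^ M * A j = φ * Q' j + T' j := fun j => by
    have : L ^ M = L ^ (M - m (A j)) * L ^ m (A j) := by
      rw [← pow_add, Nat.sub_add_cancel (hm j)]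
    rw [this, mul_assoc, hQ]; simp only [Q', T']; ring
  have hT' : ∀ j, (T' j).degree < φ.degree := fun j => by
    refine lt_of_le_of_lt ?_ (hT (A j))
    simp only [T', hL, ← C_pow]
    exact (degree_C_mul (pow_ne_zero _ (leadingCoeff_ne_zero.2 hφ.ne_zero))).le
  have h9 : Large o V fun q c => num T' q c = 0 := by
    refine (h5.and (large_map hφ.ne_zero)).mono fun q c ⟨h6, h7, h8⟩ => ?_
    have e1 : num T' q c = (L ^ M).map (evalRingHom q) * num A q c -
        φ.map (evalRingHom q) * num Q' q c := by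
      simp only [num, Finset.mul_sum, ← Finset.sum_sub_distrib]
      refine Finset.sum_congr rfl fun j _ => ?_
      have := congrArg (Polynomial.map (evalRingHom q)) (hQ' j)
      rw [Polynomial.map_mul, Polynomial.map_add, Polynomial.map_mul] at this
      linear_combination (-C (c j)) * this
    refine eq_zero_of_dvd_of_degree_lt (p := φ.map (evalRingHom q)) ?_ ?_
    · rw [e1]; exact dvd_sub (h6.mul_left _) (dvd_mul_right _ _)
    · rw [h8]
      refine (degree_sum_le _ _).trans_lt ((Finset.sup_lt_iff ?_).2 fun j _ => ?_)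
      · exact bot_lt_iff_ne_bot.2 (degree_ne_bot.2 hφ.ne_zero)
      · rw [← smul_eq_C_mul]
        exact ((degree_smul_le _ _).trans degree_map_le).trans_lt (hT' j)
  have h10 : φ ∣ L ^ M * A i := by
    refine ⟨∑ j, C (e i j) * Q' j, ?_⟩
    rw [hA i, Finset.mul_sum, Finset.mul_sum, ← add_zero (Finset.sum _ fun j => φ * _),
      ← kill he h9 i, ← Finset.sum_add_distrib]
    exact Finset.sum_congr rfl fun j _ => by linear_combination C (e i j) * hQ' j
  refine (hφ.prime.dvd_or_dvd h10).resolve_left fun h => ?_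
  have h11 := natDegree_le_of_dvd (hφ.prime.dvd_of_dvd_pow h)
    (C_ne_zero.2 (leadingCoeff_ne_zero.2 hφ.ne_zero))
  rw [natDegree_C] at h11
  omega

theorem good_ne {B : ℚ[X][X]} (h : rd_Good B) : B ≠ 0 := by
  rintro rfl
  obtain ⟨k, u, h1, h2⟩ := h
  rw [map_zero, eq_comm, mul_eq_zero] at h1
  rcases h1 with h1 | h1
  · exact pow_ne_zero k PowerSeries.X_ne_zero h1
  · simp [h1] at h2

theorem xone_ne : (X - 1 : ℚ[X][X]) ≠ 0 := by simpa using X_sub_C_ne_zero (1 : ℚ[X])

theorem remove (pole : PoleS) (k1 : Key1S) (k2 : Key2S) (dir : DirS) (hS : IsGroup S)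
    {e : Fin r → Fin r → ℚ[X]} (he : ∀ α ∈ Rel V, ∀ i, ∑ j, e i j * α j = 0)
    {ρ : Fin r → RatFunc ℚ} (D : ℚ[X][X]) (hD : D ≠ 0) : ∀ (t : ℕ) (B0 : ℚ[X][X])
    (A : Fin r → ℚ[X][X]), rd_Good B0 → SP S V A (D * ((X - 1) ^ t * B0)) → Fix e A →
    (∀ i, IsRed (A i) (D * ((X - 1) ^ t * B0)) (ρ i)) → ∃ (t : ℕ) (B0 : ℚ[X][X])
    (A : Fin r → ℚ[X][X]), rd_Good B0 ∧ SP S V A ((X - 1) ^ t * B0) ∧ Fix e A ∧
      ∀ i, IsRed (A i) ((X - 1) ^ t * B0) (ρ i) := by
  induction D using WfDvdMonoid.induction_on_irreducible with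
  | zero => exact absurd rfl hD
  | unit u hu =>
    intro t B0 A h1 h2 h3 h4
    have e1 : u * ((X - 1) ^ t * B0) = (X - 1) ^ t * (u * B0) := by ring
    rw [e1] at h2 h4
    exact ⟨t, _, A, rd_Good_mul (k2.2.1 u hD (natDegree_eq_zero_of_isUnit hu)) h1, h2, h3, h4⟩
  | mul D φ hD0 hφ ih =>
    intro t B0 A h1 h2 h3 h4
    by_cases hb : Associated φ (X - 1) ∨ rd_Good φ
    · rcases hb with hb | hb
      · obtain ⟨u, rfl⟩ := hb.symm
        have e1 : (X - 1 : ℚ[X][X]) * (u : ℚ[X][X]) * D * ((X - 1) ^ t * B0) =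
            D * ((X - 1) ^ (t + 1) * ((u : ℚ[X][X]) * B0)) := by ring
        rw [e1] at h2 h4
        exact ih hD0 _ _ A (rd_Good_mul (k2.2.1 u u.ne_zero
          (natDegree_eq_zero_of_isUnit u.isUnit)) h1) h2 h3 h4
      · have e1 : φ * D * ((X - 1) ^ t * B0) = D * ((X - 1) ^ t * (φ * B0)) := by ring
        rw [e1] at h2 h4
        exact ih hD0 _ _ A (rd_Good_mul hb h1) h2 h3 h4
    · rw [mul_assoc] at h2 h4
      choose A' hA' using bad_dvd pole k1 k2 dir hS he hφ
        (mul_ne_zero hD0 (mul_ne_zero (pow_ne_zero t xone_ne) (good_ne h1))) hb h2 h3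
      obtain rfl : A = fun i => φ * A' i := funext hA'
      refine ih hD0 t B0 A' h1 (h2.cancel hφ.ne_zero) (fun i => ?_) fun i => ?_
      · apply mul_left_cancel₀ hφ.ne_zero
        refine (h3 i).trans ?_
        rw [Finset.mul_sum]
        exact Finset.sum_congr rfl fun j _ => by ring
      · obtain ⟨w, hw, hw'⟩ := h4 i
        refine ⟨w, mul_left_cancel₀ (k2.2.2 φ hφ.ne_zero) ?_, hw'⟩
        simp only [ev_eq, map_mul] at hw ⊢
        linear_combination hw

theorem good_pow {t : ℕ} {B0 A : ℚ[X][X]} {ρ : RatFunc ℚ} (h : rd_Good B0)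
    (hA : (X - 1) ^ (t + 1) ∣ A) (hr : IsRed A ((X - 1) ^ t * B0) ρ) : VanishAtZero ρ := by
  obtain ⟨o, u, hu, hu0⟩ := h
  obtain ⟨D, rfl⟩ := hA
  obtain ⟨w, hw, rfl⟩ := hr
  have hy : PowerSeries.map (algebraMap ℚ[X] (RatFunc ℚ)) (rd_E (X - 1)) ≠ 0 := by
    intro h0
    have := congrArg (PowerSeries.coeff 1) h0
    rw [PowerSeries.coeff_map, map_sub, map_sub, rd_E_X, rd_y_one, map_one, map_zero,
      PowerSeries.coeff_one, if_neg one_ne_zero, sub_zero] at this
    exact RatFunc.algebraMap_ne_zero (neg_ne_zero.2 X_ne_zero) this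
  have h1 : PowerSeries.map (algebraMap ℚ[X] (RatFunc ℚ)) (rd_E ((X - 1) * D)) =
      PowerSeries.X ^ o * (w * PowerSeries.map (algebraMap ℚ[X] (RatFunc ℚ)) u) := by
    apply mul_left_cancel₀ (pow_ne_zero t hy)
    rw [rd_ev, rd_ev] at hw
    simp only [map_mul, map_pow, hu, PowerSeries.map_X] at hw ⊢
    linear_combination hw
  have h2 := congrArg (PowerSeries.coeff o) h1
  rw [PowerSeries.coeff_map, PowerSeries.coeff_X_pow_mul', if_pos le_rfl, Nat.sub_self,
    PowerSeries.coeff_zero_eq_constantCoeff_apply] at h2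
  refine (rd_van _).2 ⟨PowerSeries.coeff o (rd_E ((X - 1) * D)), _, hu0, ?_, ?_⟩
  · rw [← coe_evalRingHom, ← PowerSeries.coeff_map, map_mul, map_mul, map_sub, map_sub, rd_E_X,
      rd_y_zero, map_one, map_one, sub_self, zero_mul, map_zero]
  · rw [h2, map_mul, ← PowerSeries.coeff_zero_eq_constantCoeff_apply (PowerSeries.map _ u),
      PowerSeries.coeff_map, PowerSeries.coeff_zero_eq_constantCoeff_apply]

end FinA

open FinA

theorem main_of (pole : PoleS) (k1 : Key1S) (k2 : Key2S) (dir : DirS)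
    {k : Type} [Field k] [NumberField k] {n : ℕ}
    {S : Set (MvPolynomial (Fin n × Fin n) (NumberField.RingOfIntegers k))} (hS : IsGroup S)
    (hna : ∃ g ∈ grp S k, ∃ h ∈ grp S k, g * h ≠ h * g) {r : ℕ}
    {V : Fin r → Over (Spec (CommRingCat.of (NumberField.RingOfIntegers k)))}
    {A B : Fin r → ℚ[X][X]} {ρ : Fin r → RatFunc ℚ} (h : Pres S V A B ρ) :
    ∃ (A' B' : Fin r → ℚ[X][X]) (ρ' : Fin r → RatFunc ℚ), Pres S V A' B' ρ' ∧
      (∀ i, VanishAtZero (ρ' i)) ∧ ∀ c : Fin r → ℤ,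
        (∀ α ∈ Rel V, ∑ i, (α i).eval 1 * (c i : ℚ) = 0) → ∑ i, c i • ρ' i = ∑ i, c i • ρ i := by
  classical
  obtain ⟨hV, hAB, hN⟩ := h
  have hF := sp_of (fun i => (hAB i).1) hN
  set D := ∏ i, B i with hD
  have hD0 : D ≠ 0 := Finset.prod_ne_zero_iff.2 fun i _ => (hAB i).1
  set A1 : Fin r → ℚ[X][X] := fun i => A i * ∏ j ∈ Finset.univ.erase i, B j with hA1
  have hBD : ∀ i, B i * ∏ j ∈ Finset.univ.erase i, B j = D := fun i =>
    Finset.mul_prod_erase _ _ (Finset.mem_univ i)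
  obtain ⟨E, hE0, hE1⟩ := exists_proj V
  let e : Fin r → Fin r → ℚ[X] := fun i j => E (Pi.single j 1) i
  have he : ∀ (α : Fin r → ℚ[X]) i, E α i = ∑ j, e i j * α j := by
    intro α i
    conv_lhs => rw [pi_eq_sum_univ' α]
    simp [e, mul_comm]
  have he0 : ∀ α ∈ Rel V, ∀ i, ∑ j, e i j * α j = 0 := fun α hα i => by
    rw [← he, hE0 α hα]; rfl
  let A' : Fin r → ℚ[X][X] := fun i => ∑ j, C (e i j) * A1 j
  choose w hw hw' using fun i => (hAB i).2
  have hr : ∀ i, IsRed (A' i) D (PowerSeries.constantCoeff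
      (∑ j, ev (C (e i j)) (1 + PowerSeries.X) yser * w j)) := by
    intro i
    refine ⟨_, ?_, rfl⟩
    simp only [A', A1, ev_eq, map_sum, map_mul, Finset.sum_mul]
    refine Finset.sum_congr rfl fun j _ => ?_
    rw [← hBD j, map_mul, ← ev_eq (A j), hw j, ev_eq]
    ring
  have hnum : Large _ V fun q c => num A1 q c = num A' q c := by
    refine (Large.all (V := V) fun j => mem_rel.1 (hE1 (Pi.single j 1))).mono fun q c h1 => ?_
    simp only [num, A', Polynomial.map_sum, Polynomial.map_mul, map_C, Finset.mul_sum,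
      ← mul_assoc, ← C_mul]
    rw [Finset.sum_comm]
    refine Finset.sum_congr rfl fun j _ => ?_
    rw [← Finset.sum_mul, ← map_sum]
    congr 2
    have h3 := h1 j
    simp only [Pi.sub_apply, eval_sub, sub_mul, Finset.sum_sub_distrib] at h3
    rw [sub_eq_zero] at h3
    have h4 : ∑ i, eval q ((Pi.single j 1 : Fin r → ℚ[X]) i) * c i = c j := by
      rw [Finset.sum_eq_single j] <;> simp +contextual
    rw [← h4, ← h3]
    exact Finset.sum_congr rfl fun i _ => mul_comm _ _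
  have hfix : Fix e A' := by
    intro i
    have h1 := kill he0 (T := fun j => A' j - A1 j) (hnum.mono fun q c h => by
      have : num (fun j => A' j - A1 j) q c = num A' q c - num A1 q c := by
        simp only [num, Polynomial.map_sub, mul_sub, Finset.sum_sub_distrib]
      rw [this, h, sub_self]) i
    simp only [mul_sub, Finset.sum_sub_distrib] at h1
    exact (sub_eq_zero.1 h1).symm
  obtain ⟨t, B0, A2, hg, hsp, hfx, hred⟩ := remove pole k1 k2 dir hS he0 D hD0 0 1 A'
    (rd_Good_of (by simp)) (by simpa using hF.of_num hnum) hfix (by simpa using hr)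
  have hne : (X - 1) ^ t * B0 ≠ 0 := mul_ne_zero (pow_ne_zero t xone_ne) (good_ne hg)
  have hrel : ∀ j < t + 1, (fun i => (taylor 1 (A2 i)).coeff j) ∈ Rel V := by
    intro j hj
    obtain ⟨N, hN⟩ := hsp
    obtain ⟨N', hN'⟩ := large_map (V := V) hne
    refine ⟨max N N', fun O _ _ _ _ _ _ _ hp => ?_⟩
    let _ : TopologicalSpace O := (maximalIdeal O).adicTopology
    have hO : IsAdic (maximalIdeal O) := rfl
    have h2 := two_le (ResidueField O)
    obtain ⟨Nn, T⟩ := tower_of_uni hO (grp S O) (fun g hg => by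
      obtain ⟨H, hH⟩ := hS O
      rw [grp, ← hH, Subgroup.closure_eq, ← SetLike.mem_coe, hH] at hg
      exact ⟨hg.1, hg.2.1⟩) (nonab_of_field hS hna O)
    have h3 := dvd_of_dirichlet (char_prime _) h2 _ (Tower.rt_zero _)
      (T.dvd_sum (char_prime _)) _ _ (hN' O ((le_max_right _ _).trans hp)).1 t
      (by simp [Polynomial.map_mul]) (hN O hO ((le_max_left _ _).trans hp))
    have h4 := (dvd_iff_taylor _ _).1 h3 j hj
    rw [← h4, num, map_sum, finsetSum_coeff]
    refine Finset.sum_congr rfl fun i _ => ?_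
    have h5 := map_taylor (A2 i) 1 (evalRingHom (Nat.card (ResidueField O) : ℚ))
    rw [map_one] at h5
    rw [taylor_mul, taylor_C, coeff_C_mul, ← h5, coeff_map, mul_comm]
    rfl
  refine ⟨A2, fun _ => (X - 1) ^ t * B0, _, ⟨hV, fun i => ⟨hne, hred i⟩, sp_iff.1 hsp⟩,
    fun i => good_pow hg ?_ (hred i), fun c hc => ?_⟩
  · refine (dvd_iff_taylor _ _).2 fun j hj => ?_
    have h1 := he0 _ (hrel j hj) i
    rw [hfx i]
    simpa [taylor_mul] using h1
  · simp only [hw', cc_ev, Finset.smul_sum]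
    rw [Finset.sum_comm]
    refine Finset.sum_congr rfl fun j _ => ?_
    have h3 := hc _ (hE1 (Pi.single j 1))
    simp only [Pi.sub_apply, eval_sub, sub_mul, Finset.sum_sub_distrib] at h3
    rw [sub_eq_zero] at h3
    have h4 : ∑ i, eval 1 ((Pi.single j 1 : Fin r → ℚ[X]) i) * (c i : ℚ) = c j := by
      rw [Finset.sum_eq_single j] <;> simp +contextual
    rw [h4] at h3
    have h5 : ((c j : ℤ) : RatFunc ℚ) = algebraMap ℚ (RatFunc ℚ) (c j) := by simp
    simp only [zsmul_eq_mul, ← mul_assoc]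
    rw [← Finset.sum_mul, h5, ← h3, map_sum]
    congr 1
    refine Finset.sum_congr rfl fun i _ => ?_
    rw [map_mul, mul_comm]
    simp [e]

theorem pole_of (lat : LatS) (kir : KirS) (pp : PpS) (rc : RecS) : PoleS := by
  intro o _ n S hS
  choose N hN using pp
  refine ⟨n + ∑ D ∈ Finset.range (n * n + 1), N D + 1, fun O _ _ _ _ _ _ _ _ hO hp => ?_⟩
  obtain ⟨π, hπ⟩ := IsDiscreteValuationRing.exists_irreducible O
  have ht : Tame (n + ∑ D ∈ Finset.range (n * n + 1), N D) O := tame_of_char hp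
  obtain ⟨D, b, c, hD, hL⟩ := lat o O n S π hS hπ (ht.mono (Nat.le_add_right _ _))
  obtain ⟨ν, hν⟩ := kir o O n D S π b c hO hπ (ht.mono (Nat.le_add_right _ _)) hL
  obtain ⟨Φ, h1, h2⟩ := hN D O π c ν hπ (ht.mono ((Finset.single_le_sum
    (fun _ _ => Nat.zero_le _) (Finset.mem_range.2 (Nat.lt_succ_of_le hD))).trans
      (Nat.le_add_left _ _)))
  obtain ⟨D', T, h3, h4⟩ := rc _ Φ (by
    have := two_le (ResidueField O)
    exact_mod_cast (by omega : Nat.card (ResidueField O) ≠ 0)) h1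
  exact ⟨D', T, h3, by simpa only [h2, ← hν] using h4⟩

end Pool.Agent.MP_4f1c5b_al.H20
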