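import Pool.Agent.MP_4f1c5b_al.H20.Spec
import Pool.Agent.MP_4f1c5b_al.H1.Rep

/-!
Row Fk: the character formula of the orbit method for a finite group.
-/

namespace Pool.Agent.MP_4f1c5b_al.H20

open Classical Pool.Agent.MP_4f1c5b_al.H1

namespace FkA

variable {Q A : Type} [Group Q] [AddCommGroup A] {e : A ≃ Q} {Ad : Q → A →+ A}

theorem ad_one (h : KD e Ad) (x : A) : Ad 1 x = x :=
  e.injective (by rw [h.conj]; simp)

theorem ad_mul (h : KD e Ad) (g k : Q) (x : A) : Ad (g * k) x = Ad g (Ad k x) :=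
  e.injective (by rw [h.conj, h.conj, h.conj]; group)

theorem e_zero (h : KD e Ad) : e 0 = 1 := by simpa using h.nsmul 0 0

/-- The action of a group element as a permutation. -/
def adE (h : KD e Ad) (g : Q) : A ≃ A where
  toFun := Ad g
  invFun := Ad g⁻¹
  left_inv x := by rw [← ad_mul h, inv_mul_cancel, ad_one h]
  right_inv x := by rw [← ad_mul h, mul_inv_cancel, ad_one h]

theorem orb_self (h : KD e Ad) (ω : AddChar A ℂ) : ω ∈ orb Ad ω :=
  ⟨1, fun x => by rw [ad_one h]⟩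

theorem orb_trans (h : KD e Ad) {a b c : AddChar A ℂ} (h1 : b ∈ orb Ad a) (h2 : c ∈ orb Ad b) :
    c ∈ orb Ad a := by
  obtain ⟨g, hg⟩ := h1
  obtain ⟨k, hk⟩ := h2
  exact ⟨g * k, fun x => by rw [hk, hg, ad_mul h]⟩

theorem orb_symm (h : KD e Ad) {a b : AddChar A ℂ} (h1 : b ∈ orb Ad a) : a ∈ orb Ad b := by
  obtain ⟨g, hg⟩ := h1
  exact ⟨g⁻¹, fun x => by rw [hg, ← ad_mul h, mul_inv_cancel, ad_one h]⟩

omit [Group Q] in
theorem comp_mem (a : AddChar A ℂ) (g : Q) : a.compAddMonoidHom (Ad g) ∈ orb Ad a :=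
  ⟨g, fun _ => rfl⟩

variable [Fintype A]

/-- The orbit as a finite set. -/
noncomputable def O (Ad : Q → A →+ A) (ω : AddChar A ℂ) : Finset (AddChar A ℂ) :=
  Finset.univ.filter (· ∈ orb Ad ω)

omit [Group Q] in
theorem mem_O {a b : AddChar A ℂ} : b ∈ O Ad a ↔ b ∈ orb Ad a := by simp [O]

/-- The sum of the characters of an orbit. -/
noncomputable def S (Ad : Q → A →+ A) (ω : AddChar A ℂ) (x : A) : ℂ := ∑ a ∈ O Ad ω, a x

theorem S_ad (h : KD e Ad) (ω : AddChar A ℂ) (g : Q) (x : A) : S Ad ω (Ad g x) = S Ad ω x := by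
  unfold S
  refine Finset.sum_nbij' (fun a => a.compAddMonoidHom (Ad g))
    (fun a => a.compAddMonoidHom (Ad g⁻¹)) (fun a ha => ?_) (fun a ha => ?_) (fun a _ => ?_)
    (fun a _ => ?_) (fun a _ => rfl)
  · exact mem_O.2 (orb_trans h (mem_O.1 ha) (comp_mem a g))
  · exact mem_O.2 (orb_trans h (mem_O.1 ha) (comp_mem a g⁻¹))
  · ext y
    change a (Ad g (Ad g⁻¹ y)) = a y
    rw [← ad_mul h, mul_inv_cancel, ad_one h]
  · ext y
    change a (Ad g⁻¹ (Ad g y)) = a y
    rw [← ad_mul h, inv_mul_cancel, ad_one h]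

theorem orth (a b : AddChar A ℂ) :
    ∑ x, a (-x) * b x = if a = b then (Fintype.card A : ℂ) else 0 := by
  have h1 := AddChar.sum_eq_ite (b - a)
  simp only [AddChar.sub_apply, sub_eq_zero] at h1
  simp only [mul_comm (a _), h1, eq_comm]

omit [Group Q] in
theorem conv (a b : AddChar A ℂ) (u : A) :
    ∑ x, S Ad a (-x) * S Ad b (x + u) = Fintype.card A * ∑ c ∈ O Ad a ∩ O Ad b, c u := by
  unfold S
  simp only [Finset.sum_mul_sum]
  rw [Finset.sum_comm]
  have h1 : ∀ c ∈ O Ad a, ∑ x, ∑ c' ∈ O Ad b, c (-x) * c' (x + u) =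
      if c ∈ O Ad b then (Fintype.card A : ℂ) * c u else 0 := by
    intro c _
    rw [Finset.sum_comm]
    have h2 : ∀ c' ∈ O Ad b, ∑ x, c (-x) * c' (x + u) =
        if c = c' then (Fintype.card A : ℂ) * c' u else 0 := by
      intro c' _
      simp only [AddChar.map_add_eq_mul, ← mul_assoc]
      rw [← Finset.sum_mul, orth, ite_mul, zero_mul]
    rw [Finset.sum_congr rfl h2, Finset.sum_ite_eq]
  rw [Finset.sum_congr rfl h1, ← Finset.sum_filter, Finset.mul_sum, Finset.filter_mem_eq_inter]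

variable {d : ℕ}

/-- The operator attached to an orbit. -/
noncomputable def T (e : A ≃ Q) (Ad : Q → A →+ A) (σ : Q →* Matrix (Fin d) (Fin d) ℂ)
    (ω : AddChar A ℂ) : Matrix (Fin d) (Fin d) ℂ := ∑ x, S Ad ω (-x) • σ (e x)

theorem T_comm (h : KD e Ad) (σ : Q →* Matrix (Fin d) (Fin d) ℂ) (ω : AddChar A ℂ) (g : Q) :
    T e Ad σ ω * σ g = σ g * T e Ad σ ω := by
  unfold T
  rw [Finset.sum_mul, Finset.mul_sum]
  refine (Equiv.sum_comp (adE h g) fun x => S Ad ω (-x) • σ (e x) * σ g).symm.trans ?_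
  refine Finset.sum_congr rfl fun x _ => ?_
  change S Ad ω (-(Ad g x)) • σ (e (Ad g x)) * σ g = _
  rw [← map_neg, S_ad h, h.conj, smul_mul_assoc, mul_smul_comm, ← map_mul, ← map_mul,
    inv_mul_cancel_right]

theorem T_mul (h : KD e Ad) (σ : Q →* Matrix (Fin d) (Fin d) ℂ) (a b : AddChar A ℂ) :
    T e Ad σ a * T e Ad σ b =
      ∑ u, ((Fintype.card A : ℂ) * ∑ c ∈ O Ad a ∩ O Ad b, c (-u)) • σ (e u) := by
  obtain ⟨Θ, hΘ⟩ := h.kv
  unfold T
  rw [Finset.sum_mul_sum, ← Fintype.sum_prod_type']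
  have h1 : ∀ z : A × A, S Ad a (-z.1) • σ (e z.1) * S Ad b (-z.2) • σ (e z.2) =
      (S Ad a (-(Θ z).1) * S Ad b (-(Θ z).2)) • σ (e ((Θ z).1 + (Θ z).2)) := by
    intro z
    obtain ⟨⟨g, hg⟩, ⟨k, hk⟩, hz⟩ := hΘ z
    rw [← hz, hg, hk, ← map_neg, ← map_neg, S_ad h, S_ad h, map_mul, smul_mul_smul_comm]
  rw [Finset.sum_congr rfl fun z _ => h1 z,
    Equiv.sum_comp Θ fun z => (S Ad a (-z.1) * S Ad b (-z.2)) • σ (e (z.1 + z.2)),
    Fintype.sum_prod_type]
  have h2 : ∀ x : A, ∑ y, (S Ad a (-x) * S Ad b (-y)) • σ (e (x + y)) =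
      ∑ u, (S Ad a (-x) * S Ad b (x + -u)) • σ (e u) := by
    intro x
    refine (Equiv.sum_comp (Equiv.addLeft (-x)) _).symm.trans ?_
    refine Finset.sum_congr rfl fun u _ => ?_
    simp only [Equiv.coe_addLeft, neg_add, neg_neg, add_neg_cancel_left]
  rw [Finset.sum_congr rfl fun x _ => h2 x, Finset.sum_comm]
  refine Finset.sum_congr rfl fun u _ => ?_
  rw [← Finset.sum_smul, conv]

/-- The Fourier coefficient of the character. -/
noncomputable def F (e : A ≃ Q) (σ : Q →* Matrix (Fin d) (Fin d) ℂ) (a : AddChar A ℂ) : ℂ :=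
  ∑ x, a (-x) * (σ (e x)).trace

theorem F_orb (h : KD e Ad) (σ : Q →* Matrix (Fin d) (Fin d) ℂ) {a b : AddChar A ℂ}
    (hb : b ∈ orb Ad a) : F e σ b = F e σ a := by
  obtain ⟨g, hg⟩ := hb
  unfold F
  refine Eq.trans ?_ (Equiv.sum_comp (adE h g) fun x => a (-x) * (σ (e x)).trace)
  refine Finset.sum_congr rfl fun x _ => ?_
  change _ = a (-(Ad g x)) * (σ (e (Ad g x))).trace
  rw [hg, map_neg, h.conj, map_mul, Matrix.trace_mul_comm, ← map_mul, inv_mul_cancel_left]

theorem T_trace (h : KD e Ad) (σ : Q →* Matrix (Fin d) (Fin d) ℂ) (a : AddChar A ℂ) :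
    (T e Ad σ a).trace = (O Ad a).card * F e σ a := by
  unfold T S
  rw [Matrix.trace_sum]
  simp only [Matrix.trace_smul, smul_eq_mul, Finset.sum_mul]
  rw [Finset.sum_comm]
  change ∑ b ∈ O Ad a, F e σ b = _
  rw [Finset.sum_congr rfl fun b hb => F_orb h σ (mem_O.1 hb), Finset.sum_const, nsmul_eq_mul]

theorem inversion (σ : Q →* Matrix (Fin d) (Fin d) ℂ) (u : A) :
    ∑ a, F e σ a * a u = Fintype.card A * (σ (e u)).trace := by
  unfold F
  simp only [Finset.sum_mul]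
  rw [Finset.sum_comm]
  have h1 : ∀ x : A, ∑ a : AddChar A ℂ, a (-x) * (σ (e x)).trace * a u =
      if u = x then (Fintype.card A : ℂ) * (σ (e x)).trace else 0 := by
    intro x
    have h2 : ∀ a : AddChar A ℂ, a (-x) * (σ (e x)).trace * a u =
        a (u - x) * (σ (e x)).trace := fun a => by
      rw [sub_eq_add_neg, AddChar.map_add_eq_mul]; ring
    simp only [h2]
    rw [← Finset.sum_mul, AddChar.sum_apply_eq_ite, ite_mul, zero_mul]
    simp only [sub_eq_zero]
  rw [Finset.sum_congr rfl fun x _ => h1 x, Finset.sum_ite_eq, if_pos (Finset.mem_univ _)]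

theorem O_pos (h : KD e Ad) (a : AddChar A ℂ) : ((O Ad a).card : ℂ) ≠ 0 :=
  Nat.cast_ne_zero.2 (Finset.card_pos.2 ⟨a, mem_O.2 (orb_self h a)⟩).ne'

theorem key [Fintype Q] (h : KD e Ad) {σ : Q →* Matrix (Fin d) (Fin d) ℂ} (hσ : Irred σ)
    {ω : AddChar A ℂ} (h0 : T e Ad σ ω ≠ 0) : Chr e Ad σ ω := by
  have hd : (d : ℂ) ≠ 0 := Nat.cast_ne_zero.2 hσ.1
  have hA : (Fintype.card A : ℂ) ≠ 0 := Nat.cast_ne_zero.2 Fintype.card_ne_zero
  have hO := O_pos h ω
  obtain ⟨c, hc⟩ := schur hσ (T_comm h σ ω)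
  have hc0 : c ≠ 0 := fun h1 => h0 (by rw [hc, h1, zero_smul])
  have h1 : T e Ad σ ω * T e Ad σ ω = (Fintype.card A : ℂ) • T e Ad σ ω := by
    rw [T_mul h, Finset.inter_self]
    unfold T S
    rw [Finset.smul_sum]
    simp only [mul_smul]
  have h2 : c = Fintype.card A := by
    have h3 := congrArg Matrix.trace h1
    rw [hc] at h3
    simp only [smul_mul_assoc, one_mul, Matrix.trace_smul, smul_eq_mul, Matrix.trace_one,
      Fintype.card_fin] at h3
    exact mul_right_cancel₀ (mul_ne_zero hc0 hd) h3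
  have h3 : ((O Ad ω).card : ℂ) * F e σ ω = Fintype.card A * d := by
    rw [← T_trace h, hc, h2]
    simp
  have h4 : ∀ a, a ∉ O Ad ω → F e σ a = 0 := by
    intro a ha
    have h5 : O Ad ω ∩ O Ad a = ∅ := Finset.eq_empty_of_forall_notMem fun b hb => by
      rw [Finset.mem_inter] at hb
      exact ha (mem_O.2 (orb_trans h (mem_O.1 hb.1) (orb_symm h (mem_O.1 hb.2))))
    have h6 := T_mul h σ ω a
    rw [h5, hc] at h6
    simp only [Finset.sum_empty, mul_zero, zero_smul, Finset.sum_const_zero, smul_mul_assoc,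
      one_mul] at h6
    have h7 := T_trace h σ a
    rw [(smul_eq_zero.1 h6).resolve_left hc0, Matrix.trace_zero] at h7
    exact (mul_eq_zero.1 h7.symm).resolve_left (O_pos h a)
  have h5 : ∀ u, ((O Ad ω).card : ℂ) * (σ (e u)).trace = d * S Ad ω u := by
    intro u
    have h6 := inversion (e := e) σ u
    rw [← Finset.sum_subset (Finset.subset_univ (O Ad ω))
      (fun a _ ha => by rw [h4 a ha, zero_mul]),
      Finset.sum_congr rfl fun b hb => by rw [F_orb h σ (mem_O.1 hb)], ← Finset.mul_sum] at h6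
    refine mul_left_cancel₀ hA ?_
    change F e σ ω * S Ad ω u = _ at h6
    linear_combination (S Ad ω u) * h3 - ((O Ad ω).card : ℂ) * h6
  have h6 : ((O Ad ω).card : ℂ) = d ^ 2 := by
    have h7 := rp_self hσ
    rw [← Equiv.sum_comp e, ← Nat.card_congr e, Nat.card_eq_fintype_card] at h7
    have h8 := conv (Ad := Ad) ω ω 0
    simp only [add_zero, Finset.inter_self, AddChar.map_zero_eq_one, Finset.sum_const,
      nsmul_eq_mul, mul_one] at h8
    have h9 : ((O Ad ω).card : ℂ) ^ 2 * ∑ x, (σ (e x)).trace * (σ (e x)⁻¹).trace =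
        (d : ℂ) ^ 2 * ∑ x, S Ad ω (-x) * S Ad ω x := by
      rw [Finset.mul_sum, Finset.mul_sum]
      refine Finset.sum_congr rfl fun x _ => ?_
      rw [← h.neg]
      linear_combination ((O Ad ω).card * (σ (e (-x))).trace) * h5 x + (d * S Ad ω x) * h5 (-x)
    rw [h7, h8] at h9
    refine mul_right_cancel₀ (mul_ne_zero hA hO) ?_
    linear_combination h9
  have h7 : orb Ad ω = (O Ad ω : Set (AddChar A ℂ)) := Set.ext fun b => mem_O.symm
  refine ⟨?_, fun x => ?_⟩
  · rw [h7, Set.ncard_coe_finset]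
    exact_mod_cast h6
  · rw [h7, finsum_mem_coe_finset]
    refine mul_left_cancel₀ hd ?_
    change _ = d * S Ad ω x
    rw [← h5, h6]
    ring

end FkA

open FkA in
theorem rowFk : FkS := by
  intro Q A _ _ _ _ e Ad h
  have := Fintype.ofFinite Q
  have := Fintype.ofFinite A
  refine ⟨fun d σ hσ => ?_, fun ω => ?_⟩
  · by_contra hn
    have h1 : ∀ a, F e σ a = 0 := fun a => by
      have h2 : T e Ad σ a = 0 := by
        by_contra h2
        exact hn ⟨a, key h hσ h2⟩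
      have h3 := T_trace h σ a
      rw [h2, Matrix.trace_zero] at h3
      exact (mul_eq_zero.1 h3.symm).resolve_left (O_pos h a)
    have h2 := inversion (e := e) σ 0
    simp only [h1, zero_mul, Finset.sum_const_zero, e_zero h, map_one, Matrix.trace_one,
      Fintype.card_fin] at h2
    exact mul_ne_zero (Nat.cast_ne_zero.2 Fintype.card_ne_zero) (Nat.cast_ne_zero.2 hσ.1) h2.symm
  · by_contra hn
    have h1 : (fun g => S Ad ω (e.symm g)) = 0 := rp_complete fun d σ hσ => by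
      have h2 : T e Ad σ ω = 0 := by
        by_contra h2
        exact hn ⟨d, σ, hσ, key h hσ h2⟩
      rw [← h2, ← Equiv.sum_comp e, ← Equiv.sum_comp (Equiv.neg A)]
      refine Finset.sum_congr rfl fun x _ => ?_
      simp only [Equiv.neg_apply, Equiv.symm_apply_apply]
      rw [← h.neg, neg_neg]
    have h2 := congrFun h1 (e 0)
    simp only [Equiv.symm_apply_apply, S, AddChar.map_zero_eq_one, Finset.sum_const,
      nsmul_eq_mul, mul_one, Pi.zero_apply] at h2
    exact O_pos h ω h2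

end Pool.Agent.MP_4f1c5b_al.H20
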