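import Pool.Agent.MP_4f1c5b_al.H20.Spec

/-!
Row Gen: the finite quotients of a discrete valuation ring, and a Dirichlet series identity.
-/

namespace Pool.Agent.MP_4f1c5b_al.H20

open Classical IsLocalRing Polynomial Filter Pool.Agent.MP_4f1c5b_al.H1

namespace GenA

theorem card_rm (O : Type) [CommRing O] [IsDomain O] [IsDiscreteValuationRing O] (π : O)
    (m : ℕ) (hπ : Irreducible π) : Nat.card (Rm π m) = Nat.card (ResidueField O) ^ m := by
  have h1 : maximalIdeal O = Ideal.span {π} := hπ.maximalIdeal_eq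
  have h2 : Ideal.span {π ^ m} = maximalIdeal O ^ m := by
    rw [h1, Ideal.span_singleton_pow]
  have h3 := cardQuot_pow_of_prime (S := O) (P := maximalIdeal O)
    (IsDiscreteValuationRing.not_a_field O) (i := m)
  rw [Submodule.cardQuot_apply, Submodule.cardQuot_apply, ← h2] at h3
  exact h3

theorem gen : GenS := by
  intro O _ _ _ _ π m hπ
  have hc := card_rm O π m hπ
  have hf : Finite (Rm π m) := by
    refine Nat.finite_of_card_ne_zero ?_
    rw [hc]
    exact pow_ne_zero _ Nat.card_pos.ne'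
  refine ⟨hf, hc, ?_⟩
  cases m with
  | zero =>
    refine ⟨1, fun a ha => absurd ?_ ha⟩
    obtain ⟨x, rfl⟩ := Ideal.Quotient.mk_surjective a
    rw [Ideal.Quotient.eq_zero_iff_mem, Ideal.mem_span_singleton, pow_zero]
    exact one_dvd _
  | succ m =>
    have hs : rm π (m + 1) (π ^ m) ≠ 0 := by
      intro h
      rw [Ideal.Quotient.eq_zero_iff_mem, Ideal.mem_span_singleton,
        pow_dvd_pow_iff hπ.ne_zero hπ.not_isUnit] at h
      omega
    obtain ⟨ψ, hψ⟩ := AddChar.exists_apply_ne_zero.2 hs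
    refine ⟨ψ, fun a ha => ?_⟩
    obtain ⟨x, rfl⟩ := Ideal.Quotient.mk_surjective a
    have hx : x ≠ 0 := by
      rintro rfl
      exact ha (map_zero _)
    obtain ⟨k, u, rfl⟩ := IsDiscreteValuationRing.eq_unit_mul_pow_irreducible hx hπ
    have hk : k ≤ m := by
      by_contra hk
      refine ha ?_
      rw [Ideal.Quotient.eq_zero_iff_mem, Ideal.mem_span_singleton]
      exact Dvd.dvd.mul_left (pow_dvd_pow π (by omega)) _
    refine ⟨rm π (m + 1) (↑u⁻¹ * π ^ (m - k)), ?_⟩
    have e : (u : O) * π ^ k * (↑u⁻¹ * π ^ (m - k)) = π ^ m := by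
      rw [mul_mul_mul_comm, Units.mul_inv, one_mul, ← pow_add, Nat.add_sub_cancel' hk]
    rw [← map_mul, e]
    exact hψ

theorem dir : DirS := by
  intro q r P B hq hB hs
  have hq0 : 0 < q := by omega
  have hq1 : (1 : ℝ) < q := by exact_mod_cast hq
  let f : ℕ → ℚ := fun n => r n
  let δ : ℕ → ℚ := Pi.single 1 1
  have hne : ∀ᶠ s : ℝ in atTop, aeval ((q : ℝ) ^ (-s)) B ≠ 0 := by
    have h1 : ((fun s : ℝ => (q : ℝ) ^ (-s)) ⁻¹' B.rootSet ℝ).Finite :=
      (B.rootSet_finite ℝ).preimage fun s _ s' _ h =>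
        neg_injective ((Real.strictMono_rpow_of_base_gt_one hq1).injective h)
    filter_upwards [atTop_le_cofinite h1.eventually_cofinite_notMem] with s hs h
    exact hs ((mem_rootSet_of_ne hB).2 h)
  have hδ : ∀ s, dr_HS δ s 1 := fun s => by
    have := hasSum_single (f := fun n : ℕ => (δ n : ℝ) * (n : ℝ) ^ (-s)) 1 fun n hn => by
      simp [δ, hn]
    simpa [δ, dr_HS] using this
  have key : ∀ n, n ≠ 0 → aeval (dr_T q) B f n = aeval (dr_T q) P δ n := fun n hn => by
    refine dr_unique ?_ hn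
    filter_upwards [hs, hne] with s h1 h2
    have h3 : dr_HS f s (aeval ((q : ℝ) ^ (-s)) P / aeval ((q : ℝ) ^ (-s)) B) := by
      simpa only [dr_HS, f, Rat.cast_natCast] using h1
    refine ⟨_, h3.aeval hq0 B, ?_⟩
    rw [mul_div_cancel₀ _ h2]
    simpa using (hδ s).aeval hq0 P
  have key2 : ∀ n, ¬ q ∣ n → (B : PowerSeries ℚ) * dr_Psi q n f = P * dr_Psi q n δ := by
    intro n hn
    rw [← dr_Psi_aeval hq0 hn, ← dr_Psi_aeval hq0 hn]
    ext a
    simp only [dr_Psi, PowerSeries.coeff_mk]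
    exact key _ (mul_ne_zero (pow_ne_zero _ hq0.ne') (by rintro rfl; exact hn (dvd_zero q)))
  have h1 : dr_Psi q 1 δ = 1 := by
    ext b
    cases b with
    | zero => simp [dr_Psi, δ]
    | succ b =>
      have : q ≠ 1 := by omega
      simp [dr_Psi, δ, PowerSeries.coeff_one, this]
  have h2 := key2 1 (by rw [Nat.dvd_one]; omega)
  rw [h1, mul_one] at h2
  rw [← h2]
  simp only [dr_Psi, mul_one, f]

end GenA

theorem rowGen : GenS ∧ DirS := ⟨GenA.gen, GenA.dir⟩

end Pool.Agent.MP_4f1c5b_al.H20
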