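import Pool.Agent.MP_4f1c5b_al.H20.Spec

/-!
The size of the kernel of a matrix modulo `π ^ m` in terms of the valuations of its minors.
-/

namespace Pool.Agent.MP_4f1c5b_al.H20

open Classical IsLocalRing

namespace ImA

section Ring

variable {R : Type} [CommRing R]

/-- A change of rank one. -/
theorem dvd_rank_one {k : ℕ} (x y : R) (c w : Fin k → R) (t : Finset (Fin k)) :
    ∀ A : Matrix (Fin k) (Fin k) R, x ∣ y * A.det → (∀ i, x ∣ y * (A.updateRow i w).det) →
      x ∣ y * (Matrix.of fun i j => A i j + (if i ∈ t then c i else 0) * w j).det := by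
  induction t using Finset.induction_on with
  | empty =>
    intro A h _
    convert h using 3
    ext i j
    simp
  | insert a t ha ih =>
    intro A h0 h1
    have key := ih (A.updateRow a (A a + c a • w)) ?_ fun i => ?_
    · convert key using 3
      ext i j
      by_cases e : i = a
      · subst e; simp [ha]
      · simp [e]
    · rw [Matrix.det_updateRow_add, Matrix.det_updateRow_smul, Matrix.updateRow_eq_self, mul_add,
        mul_left_comm]
      exact dvd_add h0 ((h1 a).mul_left _)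
    · by_cases e : i = a
      · rw [e, Matrix.updateRow_idem]; exact h1 a
      · have h2 := Matrix.det_updateRow_add_smul_self (A.updateRow i w) (Ne.symm e) (c a)
        rw [Matrix.updateRow_self, Matrix.updateRow_ne (Ne.symm e)] at h2
        rw [Matrix.updateRow_comm _ (Ne.symm e), h2]
        exact h1 i

variable {ι : Type} {D : ℕ}

theorem det_cons {k : ℕ} (M M' : Matrix ι (Fin D) R) (c : ι → R) (i0 : ι) (j0 : Fin D)
    (h : ∀ i j, M i j = M' i j + c i * M i0 j) (hc : ∀ i, M' i j0 = 0) (r : Fin k → ι)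
    (s : Fin k → Fin D) :
    (M.submatrix (Fin.cons i0 r : Fin (k + 1) → ι) (Fin.cons j0 s : Fin (k + 1) → Fin D)).det =
      M i0 j0 * (M'.submatrix r s).det := by
  let B : Matrix (Fin (k + 1)) (Fin (k + 1)) R := Matrix.of fun i j =>
    (Fin.cons (M i0) (fun i => M' (r i)) : Fin (k + 1) → Fin D → R) i
      ((Fin.cons j0 s : Fin (k + 1) → Fin D) j)
  rw [Matrix.det_eq_of_forall_row_eq_smul_add_const (B := B)
    (Fin.cons 0 fun i => c (r i) : Fin (k + 1) → R) 0 rfl, Matrix.det_succ_column_zero,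
    Fin.sum_univ_succ, Finset.sum_eq_zero fun i _ => by simp [B, hc]]
  · simp only [Fin.val_zero, pow_zero, one_mul, add_zero]
    rfl
  · intro i j
    refine Fin.cases ?_ (fun i => ?_) i
    · simp [B]
    · exact h _ _

theorem kc_step (M M' : Matrix ι (Fin D) R) (c : ι → R) (d : Fin D → R) (p : R) (i0 : ι)
    (j0 : Fin D) (h : ∀ i j, M i j = M' i j + c i * M i0 j) (hd : ∀ j, M i0 j = p * d j)
    (hr : ∀ j, M' i0 j = 0) (hc : ∀ i, M' i j0 = 0) (h1 : d j0 = 1) :
    kc M' = kc M * Nat.card (Set.range fun y : R => p * y) := by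
  let K : AddSubgroup (Fin D → R) := (LinearMap.ker M'.mulVecLin).toAddSubgroup
  have hK : ∀ z, z ∈ K ↔ M'.mulVec z = 0 := fun z => Iff.rfl
  let f : K →+ R :=
    { toFun := fun z => M.mulVec z.1 i0
      map_zero' := by simp
      map_add' := fun a b => by simp [Matrix.mulVec_add] }
  have hf : ∀ z : K, f z = M.mulVec z.1 i0 := fun _ => rfl
  have hM : ∀ z i, M.mulVec z i = M'.mulVec z i + c i * M.mulVec z i0 := by
    intro z i
    simp only [Matrix.mulVec, dotProduct, Finset.mul_sum, ← Finset.sum_add_distrib]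
    exact Finset.sum_congr rfl fun j _ => by rw [h i j]; ring
  have hM0 : ∀ z, M.mulVec z i0 = 0 → (M.mulVec z = 0 ↔ M'.mulVec z = 0) := by
    intro z hz
    rw [show M.mulVec z = M'.mulVec z from funext fun i => by rw [hM, hz, mul_zero, add_zero]]
  have e1 : Nat.card f.ker = kc M := Nat.card_congr
    { toFun := fun z => ⟨z.1.1, (hM0 _ z.2).2 z.1.2⟩
      invFun := fun z => ⟨⟨z.1, (hM0 _ (congrFun z.2 i0)).1 z.2⟩, congrFun z.2 i0⟩
      left_inv := fun _ => rfl
      right_inv := fun _ => rfl }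
  have e2 : (f.range : Set R) = Set.range fun y : R => p * y := by
    ext x
    constructor
    · rintro ⟨z, rfl⟩
      refine ⟨d ⬝ᵥ z.1, ?_⟩
      simp only [hf, Matrix.mulVec, dotProduct, Finset.mul_sum, hd, mul_assoc]
    · rintro ⟨y, rfl⟩
      refine ⟨⟨Pi.single j0 y, (hK _).2 (funext fun i => by simp [hc])⟩, ?_⟩
      simp [hf, hd, h1]
  rw [← e1, ← e2]
  change Nat.card K = _ * Nat.card f.range
  rw [← AddSubgroup.index_ker, AddSubgroup.card_mul_index]

end Ring

variable {O : Type} [CommRing O] [IsDomain O] [IsDiscreteValuationRing O] {π : O}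

theorem card_range (hπ : Irreducible π) {m a : ℕ} (ha : a ≤ m) {u : O} (hu : IsUnit u) :
    Nat.card (Set.range fun y : Rm π m => rm π m (π ^ a * u) * y) = Nat.card (Rm π (m - a)) := by
  let g : O →ₗ[O] Rm π m :=
    (Ideal.span {π ^ m}).mkQ ∘ₗ LinearMap.mulLeft O (π ^ a * u)
  have hg : ∀ y, g y = rm π m (π ^ a * u * y) := fun _ => rfl
  have h1 : LinearMap.ker g = Ideal.span {π ^ (m - a)} := by
    ext y
    rw [LinearMap.mem_ker, hg, Ideal.Quotient.eq_zero_iff_mem, Ideal.mem_span_singleton,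
      Ideal.mem_span_singleton, mul_assoc]
    conv_lhs => rw [← Nat.add_sub_cancel' ha, pow_add]
    rw [mul_dvd_mul_iff_left (pow_ne_zero a hπ.ne_zero), hu.dvd_mul_left]
  have h2 : (LinearMap.range g : Set (Rm π m)) =
      Set.range fun y : Rm π m => rm π m (π ^ a * u) * y := by
    ext x
    constructor
    · rintro ⟨y, rfl⟩
      exact ⟨rm π m y, by rw [hg, map_mul (rm π m) _ y]⟩
    · rintro ⟨y, rfl⟩
      obtain ⟨y, rfl⟩ := Ideal.Quotient.mk_surjective y
      exact ⟨y, by rw [hg, map_mul (rm π m) _ y]⟩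
  rw [← h2]
  change Nat.card (LinearMap.range g) = Nat.card (O ⧸ Ideal.span {π ^ (m - a)})
  rw [← h1]
  exact (Nat.card_congr g.quotKerEquivRange.toEquiv).symm

theorem vv_pow (hπ : Irreducible π) (k : ℕ) : vv (π ^ k) = k :=
  (rv_of hπ isUnit_one (mul_one _).symm).1

theorem main (hπ : Irreducible π) {ι : Type} [Fintype ι] {D m q : ℕ}
    (hq : ∀ n, Nat.card (Rm π n) = q ^ n) (n : ℕ) : ∀ M : Matrix ι (Fin D) O,
    (Finset.univ.filter fun j => ∃ i, M i j ≠ 0).card = n → ∃ e : ℕ,
      kc (M.map (rm π m)) * q ^ e = q ^ (m * D) ∧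
      (∀ (k : ℕ) (r : Fin k → ι) (s : Fin k → Fin D),
        π ^ (k * m) ∣ π ^ e * (M.submatrix r s).det) ∧
      ∃ (k : ℕ) (r : Fin k → ι) (s : Fin k → Fin D), (M.submatrix r s).det ≠ 0 ∧
        e + vv (M.submatrix r s).det = k * m := by
  induction n using Nat.strong_induction_on with
  | _ n ih =>
  intro M hn
  by_cases h0 : ∀ i j, π ^ m ∣ M i j
  · refine ⟨0, ?_, fun k r s => ?_, 0, Fin.elim0, Fin.elim0, by simp, ?_⟩
    · have : M.map (rm π m) = 0 := by
        ext i j
        exact Ideal.Quotient.eq_zero_iff_mem.2 (Ideal.mem_span_singleton.2 (h0 i j))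
      rw [this, pow_zero, mul_one, pow_mul, ← hq, kc,
        Nat.card_congr (Equiv.subtypeUnivEquiv fun z => Matrix.zero_mulVec z), Nat.card_fun,
        Nat.card_eq_fintype_card (α := Fin D), Fintype.card_fin]
    · choose N hN using h0
      have : M.submatrix r s = π ^ m • (Matrix.of N).submatrix r s := by
        ext i j
        exact hN _ _
      rw [this, Matrix.det_smul, Fintype.card_fin, ← pow_mul, mul_comm m, pow_zero, one_mul]
      exact dvd_mul_right _ _
    · simpa using vv_pow hπ 0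
  push Not at h0
  obtain ⟨i1, j1, h1⟩ := h0
  obtain ⟨⟨i0, j0⟩, -, hp, hmin⟩ := (exists_min hπ Finset.univ
    fun u : ι × Fin D => M u.1 u.2).resolve_left fun h =>
      h1 (by rw [show M i1 j1 = 0 from h (i1, j1) (Finset.mem_univ _)]; exact dvd_zero _)
  simp only at hp hmin
  have ha : vv (M i0 j0) ≤ m := by
    by_contra h
    exact h1 ((pow_dvd_pow π (not_le.1 h).le).trans (hmin (i1, j1) (Finset.mem_univ _)))
  obtain ⟨u, hu, hpu, -⟩ := rv_spec hπ hp
  generalize hva : vv (M i0 j0) = a at ha hmin hpu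
  have hdv : ∀ i j, ∃ t, M i j = M i0 j0 * t := fun i j => by
    rw [hpu]; exact hu.mul_right_dvd.2 (hmin (i, j) (Finset.mem_univ _))
  choose t ht using hdv
  have h11 : t i0 j0 = 1 := mul_left_cancel₀ hp (by rw [← ht, mul_one])
  let M' : Matrix ι (Fin D) O := Matrix.of fun i j => M i j - t i j0 * M i0 j
  have hM : ∀ i j, M i j = M' i j + t i j0 * M i0 j := fun i j => (sub_add_cancel _ _).symm
  have hr : ∀ j, M' i0 j = 0 := fun j => by simp [M', h11]
  have hc : ∀ i, M' i j0 = 0 := fun i => sub_eq_zero.2 (by rw [mul_comm]; exact ht i j0)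
  obtain ⟨e, e1, e2, k, r, s, e3, e4⟩ := ih _ (by
    rw [← hn]
    refine Finset.card_lt_card ⟨fun j hj => ?_, fun h => ?_⟩
    · simp only [Finset.mem_filter, Finset.mem_univ, true_and] at hj ⊢
      by_contra h
      push Not at h
      obtain ⟨i, hi⟩ := hj
      exact hi (by simp [M', h])
    · obtain ⟨i, hi⟩ := (Finset.mem_filter.1
        (h (Finset.mem_filter.2 ⟨Finset.mem_univ j0, i0, hp⟩))).2
      exact hi (hc i)) M' rfl
  refine ⟨m - a + e, ?_, fun k r s => ?_, k + 1, Fin.cons i0 r, Fin.cons j0 s, ?_, ?_⟩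
  · rw [← e1, kc_step (M.map (rm π m)) (M'.map (rm π m)) (fun i => rm π m (t i j0))
      (fun j => rm π m (t i0 j)) (rm π m (π ^ a * u)) i0 j0, card_range hπ ha hu, hq, pow_add,
      mul_assoc]
    · intro i j
      simp only [Matrix.map_apply, ← map_mul, ← map_add, ← hM]
    · intro j
      rw [Matrix.map_apply, ← map_mul, ← hpu, ← ht]
    · intro j
      rw [Matrix.map_apply, hr, map_zero]
    · intro i
      rw [Matrix.map_apply, hc, map_zero]
    · rw [h11, map_one]
  · rcases k with _ | k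
    · simp
    have key := dvd_rank_one (π ^ ((k + 1) * m)) (π ^ (m - a + e)) (fun i => t (r i) j0)
      (fun j => M i0 (s j)) Finset.univ (M'.submatrix r s) ?_ fun i => ?_
    · convert key using 3
      ext i j
      simpa using hM _ _
    · rw [pow_add, mul_assoc]
      exact (e2 _ r s).mul_left _
    · rw [Matrix.det_succ_row _ i, Finset.mul_sum]
      refine Finset.dvd_sum fun j _ => ?_
      rw [Matrix.updateRow_self, Matrix.submatrix_updateRow_succAbove, Matrix.submatrix_submatrix]
      obtain ⟨x, hx⟩ := hmin (i0, s j) (Finset.mem_univ _)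
      obtain ⟨y, hy⟩ := e2 k (r ∘ i.succAbove) (s ∘ j.succAbove)
      refine ⟨(-1) ^ ((i : ℕ) + j) * x * y, ?_⟩
      have h2 : π ^ ((k + 1) * m) = π ^ (k * m) * π ^ (m - a) * π ^ a := by
        rw [← pow_add, ← pow_add]; congr 1; rw [add_mul]; omega
      simp only at hx
      rw [hx, h2, pow_add]
      linear_combination π ^ (m - a) * (-1) ^ ((i : ℕ) + j) * π ^ a * x * hy
  · rw [det_cons M M' _ i0 j0 hM hc]
    exact mul_ne_zero hp e3
  · rw [det_cons M M' _ i0 j0 hM hc, (rv_mul hπ hp e3).1, hva, add_mul]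
    omega

end ImA

theorem rowIm : GenS → ImS := by
  intro hG O _ _ _ _ π ι _ D m M hπ
  obtain ⟨e, e1, e2, k, r, s, e3, e4⟩ := ImA.main (m := m) hπ (fun n => (hG O π n hπ).2.1) _ M rfl
  refine ⟨e, e1, fun k r s h => ?_, k, ?_, r, s, e3, ?_⟩
  · have h1 := ((pow_dvd_iff hπ).1 (e2 k r s)).resolve_left
      (mul_ne_zero (pow_ne_zero _ hπ.ne_zero) h)
    rw [(rv_mul hπ (pow_ne_zero _ hπ.ne_zero) h).1, ImA.vv_pow hπ] at h1
    have h2 : ((k * m : ℕ) : ℤ) ≤ ((e + vv (M.submatrix r s).det : ℕ) : ℤ) := Int.ofNat_le.2 h1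
    push_cast at h2
    linarith
  · have h : Function.Injective s := fun a b hab => by_contra fun hne =>
      e3 (Matrix.det_zero_of_column_eq hne fun i => by simp [hab])
    simpa using Fintype.card_le_of_injective s h
  · have h2 : ((e + vv (M.submatrix r s).det : ℕ) : ℤ) = ((k * m : ℕ) : ℤ) := by rw [e4]
    push_cast at h2
    linarith

end Pool.Agent.MP_4f1c5b_al.H20
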