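import Pool.Agent.MP_4f1c5b_al.H20.Spec

/-! A curve with points `(p ^ f, y)`, `y` a root of a power of `p ^ f`, for unboundedly many
primes `p` has infinitely many such points with one fixed exponent. -/

namespace Pool.Agent.MP_4f1c5b_al.H20

open Polynomial

namespace Key1A

theorem norm_rat {p : ℕ} [Fact p.Prime] {c : ℚ} (h0 : c ≠ 0) (h1 : c.num.natAbs < p)
    (h2 : c.den < p) : ‖(c : PadicAlgCl p)‖ = 1 := by
  have h : ∀ n : ℕ, n ≠ 0 → n < p → ‖(n : ℚ_[p])‖ = 1 := fun n hn hp =>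
    Padic.norm_natCast_eq_one_iff.2 ((Nat.Prime.coprime_iff_not_dvd Fact.out).2
      fun hd => absurd (Nat.le_of_dvd (Nat.pos_of_ne_zero hn) hd) (not_le.2 hp))
  have h3 : ‖(c.num : ℚ_[p])‖ = 1 := by
    have h4 := h _ (Int.natAbs_ne_zero.2 (Rat.num_ne_zero.2 h0)) h1
    rcases Int.natAbs_eq c.num with h5 | h5 <;> rw [h5]
    · rw [Int.cast_natCast, h4]
    · rw [Int.cast_neg, norm_neg, Int.cast_natCast, h4]
  rw [← map_ratCast (algebraMap ℚ_[p] (PadicAlgCl p)), norm_algebraMap', Rat.cast_def, norm_div,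
    h3, h _ c.den_nz h2, div_one]

/-- The index set of the monomials. -/
noncomputable def sup2 (φ : ℚ[X][X]) : Finset (Σ _ : ℕ, ℕ) :=
  φ.support.sigma fun j => (φ.coeff j).support

theorem aeval_eq {K : Type} [Field K] [CharZero K] (φ : ℚ[X][X]) (q : ℚ) (y : K) :
    aeval y (φ.map (evalRingHom q)) =
      ∑ x ∈ sup2 φ, (((φ.coeff x.1).coeff x.2 : ℚ) : K) * (q : K) ^ x.2 * y ^ x.1 := by
  rw [aeval_def, eval₂_map, eval₂_eq_sum, sum_def, sup2, Finset.sum_sigma]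
  refine Finset.sum_congr rfl fun j _ => ?_
  dsimp only
  rw [← Finset.sum_mul, RingHom.comp_apply, coe_evalRingHom, eval_eq_sum, sum_def, map_sum]
  simp

/-- Two monomials have the same size. -/
theorem two {φ : ℚ[X][X]} (hφ : φ ≠ 0) {p f : ℕ} {a : ℤ} {b : ℕ} {y : ℂ} (hp : p.Prime)
    (hc : ∀ x ∈ sup2 φ, ((φ.coeff x.1).coeff x.2).num.natAbs < p ∧
      ((φ.coeff x.1).coeff x.2).den < p) (hf : 0 < f) (hb : 0 < b)
    (h0 : aeval y (φ.map (evalRingHom ((p : ℚ) ^ f))) = 0) (h1 : ((p : ℂ) ^ f) ^ a * y ^ b = 1) :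
    ∃ x ∈ sup2 φ, ∃ x' ∈ sup2 φ, x ≠ x' ∧
      (x.2 : ℤ) * b - x.1 * a = (x'.2 : ℤ) * b - x'.1 * a := by
  have : Fact p.Prime := ⟨hp⟩
  have hq : ((p : ℚ) ^ f) ^ a ≠ 0 := zpow_ne_zero _ (pow_ne_zero _ (Nat.cast_ne_zero.2 hp.ne_zero))
  let R : ℚ[X] := C (((p : ℚ) ^ f) ^ a) * X ^ b - 1
  have hR : aeval y R = 0 := by simp [R, h1]
  have hR0 : R ≠ 0 := fun h => by
    have h2 := congrArg (coeff · 0) h
    simp [R, hb.ne] at h2
  have hy : IsIntegral ℚ y := IsAlgebraic.isIntegral ⟨R, hR0, hR⟩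
  obtain ⟨z, hz⟩ := IsAlgClosed.exists_aeval_eq_zero (PadicAlgCl p) (minpoly ℚ y)
    (minpoly.degree_pos hy).ne'
  have tr : ∀ P : ℚ[X], aeval y P = 0 → aeval z P = 0 := fun P hP => by
    obtain ⟨Q, rfl⟩ := minpoly.dvd ℚ y hP
    rw [map_mul, hz, zero_mul]
  have h2 := tr _ h0
  have h3 : (((p : PadicAlgCl p) ^ f) ^ a) * z ^ b = 1 := by
    simpa [R, sub_eq_zero] using tr R hR
  set t : ℝ := ‖(p : PadicAlgCl p) ^ f‖ with ht
  have hp1 : ‖(p : PadicAlgCl p)‖ < 1 := by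
    rw [← map_natCast (algebraMap ℚ_[p] (PadicAlgCl p)), norm_algebraMap']
    exact Padic.norm_p_lt_one
  have ht0 : 0 < t := norm_pos_iff.2 (pow_ne_zero _ (Nat.cast_ne_zero.2 hp.ne_zero))
  have ht1 : t < 1 := by
    rw [ht, norm_pow]
    exact pow_lt_one₀ (norm_nonneg _) hp1 hf.ne'
  have h4 : ‖z‖ ^ b = t ^ (-a) := by
    have h5 := congrArg norm h3
    rw [norm_mul, norm_zpow, norm_pow z, norm_one, ← ht] at h5
    rw [zpow_neg]
    exact eq_inv_of_mul_eq_one_right h5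
  rw [aeval_eq] at h2
  set F : (Σ _ : ℕ, ℕ) → PadicAlgCl p := fun x => (((φ.coeff x.1).coeff x.2 : ℚ) : PadicAlgCl p) *
    (((p : ℚ) ^ f : ℚ) : PadicAlgCl p) ^ x.2 * z ^ x.1 with hF
  have h5 : ∀ x ∈ sup2 φ, ‖F x‖ ^ b = t ^ ((x.2 : ℤ) * b - x.1 * a) := fun x hx => by
    have h6 : (φ.coeff x.1).coeff x.2 ≠ 0 := mem_support_iff.1 (Finset.mem_sigma.1 hx).2
    simp only [hF]
    rw [norm_mul, norm_mul, norm_rat h6 (hc x hx).1 (hc x hx).2, one_mul, norm_pow, norm_pow,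
      Rat.cast_pow, Rat.cast_natCast, ← ht, mul_pow, ← pow_mul ‖z‖, mul_comm x.1 b, pow_mul ‖z‖, h4,
      ← pow_mul, ← zpow_natCast, ← zpow_natCast, ← zpow_mul, ← zpow_add₀ ht0.ne']
    congr 1
    push_cast
    ring
  have hne : (sup2 φ).Nonempty := by
    obtain ⟨j, hj⟩ := support_nonempty.2 hφ
    obtain ⟨i, hi⟩ := support_nonempty.2 (mem_support_iff.1 hj)
    exact ⟨⟨j, i⟩, Finset.mem_sigma.2 ⟨hj, hi⟩⟩
  by_contra hcon
  have h6 := IsUltrametricDist.norm_sum_eq_sup'_of_pairwise_ne (f := F) hne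
    fun x hx x' hx' hxx h => hcon ⟨x, hx, x', hx', hxx, zpow_right_injective₀ ht0 ht1.ne (by
      show t ^ _ = t ^ _
      rw [← h5 x hx, ← h5 x' hx', h])⟩
  obtain ⟨x, hx⟩ := hne
  have h7 : ‖F x‖ ≤ 0 := by
    have h8 := Finset.le_sup' (fun x => ‖F x‖) hx
    rw [← h6, h2, norm_zero] at h8
    exact h8
  have h8 := h5 x hx
  rw [le_antisymm h7 (norm_nonneg _), zero_pow hb.ne'] at h8
  exact (zpow_pos ht0 _).ne h8

theorem dvd_fact {n δ : ℕ} (hn : 0 < n) (h : n.totient ≤ δ) : n ∣ (2 * δ).factorial := by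
  refine (Nat.dvd_iff_prime_pow_dvd_dvd _ _).2 fun r k hr hk => ?_
  rcases k with _ | k
  · exact one_dvd _
  have h1 := Nat.le_of_dvd (Nat.totient_pos.2 hn) (Nat.totient_dvd_of_dvd hk)
  rw [Nat.totient_prime_pow_succ hr] at h1
  refine Nat.dvd_factorial (pow_pos hr.pos _) ?_
  obtain ⟨s, rfl⟩ : ∃ s, r = s + 2 := ⟨r - 2, by have := hr.two_le; omega⟩
  have h2 : s + 2 - 1 = s + 1 := rfl
  rw [h2] at h1
  rw [pow_succ]
  nlinarith [Nat.zero_le ((s + 2) ^ k * s)]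

/-- Roots of unity of bounded degree have bounded order. -/
theorem unity {P : ℚ[X]} (hP : P ≠ 0) {δ : ℕ} (hδ : P.natDegree ≤ δ) {y : ℂ}
    (hy : aeval y P = 0) (c : ℚ) (k b : ℕ) (hb : 0 < b) (h : ((c : ℂ) * y ^ k) ^ b = 1) :
    ((c : ℂ) * y ^ k) ^ (2 * δ).factorial = 1 := by
  have hi : IsIntegral ℚ y := IsAlgebraic.isIntegral ⟨P, hP, hy⟩
  let K := IntermediateField.adjoin ℚ {y}
  have : FiniteDimensional ℚ K := IntermediateField.adjoin.finiteDimensional hi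
  let η : K := (c : K) * IntermediateField.AdjoinSimple.gen ℚ y ^ k
  have e : (η : ℂ) = (c : ℂ) * y ^ k := by simp [η]
  have h1 : η ^ b = 1 := Subtype.ext (by simp [e, h])
  have h2 : 0 < orderOf η := orderOf_pos_iff.2 (isOfFinOrder_iff_pow_eq_one.2 ⟨b, hb, h1⟩)
  have h3 := cyclotomic_eq_minpoly_rat (IsPrimitiveRoot.orderOf η) h2
  have h4 : (orderOf η).totient ≤ δ := by
    rw [← natDegree_cyclotomic _ ℚ, h3]
    refine (minpoly.natDegree_le η).trans ?_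
    rw [IntermediateField.adjoin.finrank hi]
    exact (natDegree_le_natDegree (minpoly.degree_le_of_ne_zero ℚ y hP hy)).trans hδ
  have h5 : η ^ (2 * δ).factorial = 1 := orderOf_dvd_iff_pow_eq_one.1 (dvd_fact h2 h4)
  rw [← e]
  exact_mod_cast congrArg Subtype.val h5

end Key1A

open Key1A

theorem rowKey1 : Key1S := by
  intro φ hφ h
  by_contra hcon
  let M := (2 * φ.natDegree).factorial
  have hM : 0 < M := Nat.factorial_pos _
  let S : ℤ → ℕ → Set ℕ := fun a b => {q : ℕ | 0 < q ∧ ∃ y : ℂ,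
    aeval y (φ.map (evalRingHom (q : ℚ))) = 0 ∧ (q : ℂ) ^ a * y ^ b = 1}
  have hfin : ∀ a b, 0 < b → (S a b).Finite := fun a b hb =>
    Set.not_infinite.1 fun h1 => hcon ⟨a, b, hb, h1⟩
  let U : Set ℕ := ⋃ x ∈ sup2 φ, ⋃ x' ∈ sup2 φ, ⋃ _ : x'.1 < x.1,
    S (((x.2 : ℤ) - x'.2) * M) ((x.1 - x'.1) * M)
  have hU : U.Finite := (sup2 φ).finite_toSet.biUnion fun x _ =>
    (sup2 φ).finite_toSet.biUnion fun x' _ => Set.finite_iUnion fun hx =>
      hfin _ _ (Nat.mul_pos (Nat.sub_pos_of_lt hx) hM)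
  have hV : {q : ℕ | φ.leadingCoeff.IsRoot (q : ℚ)}.Finite :=
    (finite_setOfPred_isRoot (leadingCoeff_ne_zero.2 hφ)).preimage Nat.cast_injective.injOn
  obtain ⟨B, hB⟩ := (hU.union hV).bddAbove
  obtain ⟨p, f, a, b, y, hp, hN, hf, hb, h0, h1⟩ := h (B + 1 + (sup2 φ).sup fun x =>
    ((φ.coeff x.1).coeff x.2).num.natAbs + ((φ.coeff x.1).coeff x.2).den)
  have hq : B < p ^ f := lt_of_lt_of_le (by omega) (Nat.le_self_pow hf.ne' p)
  have hP : φ.map (evalRingHom ((p : ℚ) ^ f)) ≠ 0 := fun h2 => by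
    have h3 := congrArg (coeff · φ.natDegree) h2
    simp only [coeff_map, coeff_zero] at h3
    refine absurd (hB (Or.inr ?_)) (not_le.2 hq)
    show φ.leadingCoeff.IsRoot ((p ^ f : ℕ) : ℚ)
    rw [Nat.cast_pow]
    exact h3
  have hp0 : (p : ℂ) ^ f ≠ 0 := pow_ne_zero _ (Nat.cast_ne_zero.2 hp.ne_zero)
  have key : ∀ x ∈ sup2 φ, ∀ x' ∈ sup2 φ, x'.1 < x.1 →
      (x.2 : ℤ) * b - x.1 * a = (x'.2 : ℤ) * b - x'.1 * a → False := by
    intro x hx x' hx' hlt he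
    refine absurd (hB (Or.inl ?_)) (not_le.2 hq)
    refine Set.mem_iUnion₂.2 ⟨x, hx, Set.mem_iUnion₂.2 ⟨x', hx', Set.mem_iUnion.2 ⟨hlt,
      pow_pos hp.pos _, y, by rw [Nat.cast_pow]; exact h0, ?_⟩⟩⟩
    have h2 := unity hP natDegree_map_le h0 (((p : ℚ) ^ f) ^ ((x.2 : ℤ) - x'.2)) (x.1 - x'.1) b hb
      (by
        have e : ((x.2 : ℤ) - x'.2) * b = a * ((x.1 - x'.1 : ℕ) : ℤ) := by
          rw [Nat.cast_sub hlt.le]
          linarith
        push_cast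
        rw [mul_pow, ← zpow_natCast, ← zpow_mul, e, zpow_mul, zpow_natCast, ← pow_mul, mul_comm _ b,
          pow_mul, ← mul_pow, h1, one_pow])
    push_cast at h2 ⊢
    rw [zpow_mul, zpow_natCast, pow_mul, ← mul_pow]
    exact h2
  obtain ⟨x, hx, x', hx', hne, he⟩ := two hφ hp (fun x hx => by
    have := Finset.le_sup (f := fun x : Σ _ : ℕ, ℕ =>
      ((φ.coeff x.1).coeff x.2).num.natAbs + ((φ.coeff x.1).coeff x.2).den) hx
    omega) hf hb h0 h1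
  rcases lt_trichotomy x.1 x'.1 with h2 | h2 | h2
  · exact key x' hx' x hx h2 he.symm
  · apply hne
    rw [h2] at he
    have h3 : (x.2 : ℤ) = x'.2 :=
      mul_right_cancel₀ (Nat.cast_ne_zero.2 hb.ne') (sub_left_inj.1 he)
    exact Sigma.ext h2 (heq_of_eq (Nat.cast_injective h3))
  · exact key x hx x' hx' h2 he

end Pool.Agent.MP_4f1c5b_al.H20
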