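import Pool.Agent.MP_4f1c5b_al.H20.Spec
import Pool.Agent.MP_4f1c5b_al.H1.Red

/-!
Irreducible factors of the denominators and the substitution at `X = 1`.
-/

namespace Pool.Agent.MP_4f1c5b_al.H20

open Classical Polynomial Pool.Agent.MP_4f1c5b_al.H1

namespace Key2A

theorem split {R : Type} [CommRing R] {f : PowerSeries R} (h : f ≠ 0) :
    ∃ (o : ℕ) (u : PowerSeries R), f = PowerSeries.X ^ o * u ∧ PowerSeries.constantCoeff u ≠ 0 :=
  ⟨_, _, PowerSeries.X_pow_order_mul_divXPowOrder.symm,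
    fun e => h (PowerSeries.constantCoeff_divXPowOrder_eq_zero_iff.1 e)⟩

theorem cancel {R : Type} [CommRing R] [IsDomain R] {a b : ℕ} {u v : PowerSeries R}
    (hu : PowerSeries.constantCoeff u ≠ 0) (hab : a ≤ b)
    (h : PowerSeries.X ^ a * u = PowerSeries.X ^ b * v) : u = v := by
  obtain ⟨c, rfl⟩ := Nat.exists_eq_add_of_le hab
  rw [pow_add, mul_assoc] at h
  have h1 := mul_left_cancel₀ (pow_ne_zero a PowerSeries.X_ne_zero) h
  rcases c with _ | c
  · simpa using h1
  · exact absurd (by simp [h1]) hu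

theorem good_of_dvd {F G : ℚ[X][X]} (h : rd_Good (F * G)) : rd_Good F := by
  obtain ⟨o, u, h1, h2⟩ := h
  have h3 : PowerSeries.constantCoeff u ≠ 0 := fun e => h2 (by simp [e])
  have h4 : rd_E F * rd_E G ≠ 0 := by
    rw [← map_mul, h1]
    exact mul_ne_zero (pow_ne_zero _ PowerSeries.X_ne_zero) fun e => h3 (by simp [e])
  obtain ⟨a, v, a1, a2⟩ := split (left_ne_zero_of_mul h4)
  obtain ⟨b, w, b1, b2⟩ := split (right_ne_zero_of_mul h4)
  have h5 : PowerSeries.X ^ (a + b) * (v * w) = PowerSeries.X ^ o * u := by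
    rw [← h1, map_mul, a1, b1]; ring
  have h6 : v * w = u := (le_total (a + b) o).elim
    (fun e => cancel (by rw [map_mul]; exact mul_ne_zero a2 b2) e h5)
    fun e => (cancel h3 e h5.symm).symm
  rw [← h6, map_mul, eval_mul] at h2
  exact ⟨a, v, a1, left_ne_zero_of_mul h2⟩

theorem aev_ne {g : ℚ[X]} (h : g ≠ 0) : aeval (1 + PowerSeries.X : PowerSeries ℚ) g ≠ 0 := by
  have h1 : aeval (1 + PowerSeries.X : PowerSeries ℚ) g = (taylor 1 g : ℚ[X]) := by
    have := aeval_algHom_apply (coeToPowerSeries.algHom (R := ℚ) ℚ) (X + C 1) g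
    simpa [add_comm, taylor_apply, comp_eq_aeval] using this
  rw [h1, Ne, coe_eq_zero_iff]
  exact fun e => h (taylor_injective 1 (by simpa using e))

theorem map_y (k : ℕ) :
    PowerSeries.map (evalRingHom (-(k : ℚ))) rd_y = (1 + PowerSeries.X) ^ k := by
  ext d
  have h1 : ((1 + PowerSeries.X) ^ k : PowerSeries ℚ) = (((1 + X) ^ k : ℚ[X]) : PowerSeries ℚ) := by
    simp
  rw [h1, coeff_coe, coeff_one_add_X_pow]
  simp only [rd_y, PowerSeries.coeff_map, PowerSeries.coeff_mk, coe_evalRingHom, eval_mul, eval_C,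
    eval_comp, eval_neg, eval_X, neg_neg, descPochhammer_eval_eq_descFactorial,
    Nat.descFactorial_eq_factorial_mul_choose]
  have : (d.factorial : ℚ) ≠ 0 := Nat.cast_ne_zero.2 d.factorial_ne_zero
  push_cast
  field_simp

theorem map_E (k : ℕ) (φ : ℚ[X][X]) : PowerSeries.map (evalRingHom (-(k : ℚ))) (rd_E φ) =
    aeval (1 + PowerSeries.X : PowerSeries ℚ) (φ.eval (X ^ k)) := by
  refine DFunLike.congr_fun (Polynomial.ringHom_ext'
    (f := (PowerSeries.map (evalRingHom (-(k : ℚ)))).comp rd_E)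
    (g := (aeval (1 + PowerSeries.X : PowerSeries ℚ) : ℚ[X] →ₐ[ℚ] _).toRingHom.comp
      (evalRingHom (X ^ k))) (Polynomial.ringHom_ext' (RingHom.ext_rat _ _) ?_) ?_) φ
  · simp [rd_E]
  · simp [rd_E_X, map_y]

theorem E_ne {φ : ℚ[X][X]} (h : φ ≠ 0) : rd_E φ ≠ 0 := fun e => by
  refine h (φ.eq_zero_of_infinite_isRoot (Set.infinite_of_injective_forall_mem
    (f := fun k : ℕ => (X ^ k : ℚ[X])) (fun a b hab => ?_) fun k => ?_))
  · simpa using congrArg natDegree hab
  · have := map_E k φ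
    rw [e, map_zero] at this
    exact by_contra fun h1 => aev_ne h1 this.symm

theorem good_C {g : ℚ[X]} (h : g ≠ 0) : rd_Good (C g) := by
  obtain ⟨o, u, h1, h2⟩ := split (aev_ne h)
  have h3 : rd_E (C g) =
      PowerSeries.map (C : ℚ →+* ℚ[X]) (aeval (1 + PowerSeries.X : PowerSeries ℚ) g) := by
    refine DFunLike.congr_fun (Polynomial.ringHom_ext' (f := rd_E.comp C)
      (g := (PowerSeries.map (C : ℚ →+* ℚ[X])).comp
        (aeval (1 + PowerSeries.X : PowerSeries ℚ) : ℚ[X] →ₐ[ℚ] _).toRingHom)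
      (RingHom.ext_rat _ _) ?_) g
    simp [rd_E]
  refine ⟨o, PowerSeries.map C u, by simp [h3, h1], ?_⟩
  rw [← PowerSeries.coeff_zero_eq_constantCoeff_apply, PowerSeries.coeff_map, eval_C]
  simpa using h2

theorem dvd_of_inf {φ G : ℚ[X][X]} (hφ : Irreducible φ) (hd : 0 < φ.natDegree)
    (h : {q : ℕ | ∃ y : ℂ, aeval y (φ.map (evalRingHom (q : ℚ))) = 0 ∧
      aeval y (G.map (evalRingHom (q : ℚ))) = 0}.Infinite) : φ ∣ G := by
  have hp := hφ.isPrimitive hd.ne'
  have hi := (hp.irreducible_iff_irreducible_map_fraction_map (K := FractionRing ℚ[X])).1 hφ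
  refine hp.dvd_of_fraction_map_dvd_fraction_map (K := FractionRing ℚ[X]) (by_contra fun hn => ?_)
  have h1 := resultant_ne_zero _ _ (hi.coprime_iff_not_dvd.2 hn)
  have hj := IsFractionRing.injective ℚ[X] (FractionRing ℚ[X])
  rw [natDegree_map_eq_of_injective hj, natDegree_map_eq_of_injective hj, resultant_map_map] at h1
  obtain ⟨U, V, -, -, e⟩ :=
    exists_mul_add_mul_eq_C_resultant φ G le_rfl le_rfl (Or.inl hd.ne')
  refine h1 ((map_eq_zero_iff _ hj).2 ((φ.resultant G).eq_zero_of_infinite_isRoot ((h.image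
      (Nat.cast_injective (R := ℚ)).injOn).mono ?_)))
  rintro _ ⟨q, ⟨y, a1, a2⟩, rfl⟩
  have h2 := congrArg (fun F : ℚ[X][X] => aeval y (F.map (evalRingHom (q : ℚ)))) e
  simp only [Polynomial.map_add, Polynomial.map_mul, map_add, map_mul, a1, a2, zero_mul, zero_add,
    map_C, aeval_C] at h2
  exact (map_eq_zero _).1 h2.symm

end Key2A

theorem rowKey2 : Key2S := by
  refine ⟨fun φ a b hφ hd hb h => ?_, fun φ h0 hd => ?_, fun φ h0 => ?_⟩
  · have h1 : φ ∣ mon a.toNat b - mon (-a).toNat 0 := by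
      refine Key2A.dvd_of_inf hφ hd (h.mono ?_)
      rintro q ⟨hq, y, a1, a2⟩
      refine ⟨y, a1, ?_⟩
      have hq' : (q : ℂ) ≠ 0 := Nat.cast_ne_zero.2 hq.ne'
      have h2 : (q : ℂ) ^ a.toNat = (q : ℂ) ^ a * (q : ℂ) ^ (-a).toNat := by
        rw [← zpow_natCast, ← zpow_natCast, ← zpow_add₀ hq']
        congr 1
        omega
      simp only [mon, Polynomial.map_sub, Polynomial.map_mul, map_C, Polynomial.map_pow, map_X,
        map_sub, map_mul, map_pow, aeval_C, aeval_X, coe_evalRingHom, eval_X, eq_ratCast,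
        Rat.cast_natCast, pow_zero, mul_one, h2]
      linear_combination (q : ℂ) ^ (-a).toNat * a2
    obtain ⟨t, B0, h2, h3⟩ := rd_factor (B := mon a.toNat b - mon (-a).toNat 0)
      (Submonoid.subset_closure ⟨_, _, _, _, Or.inr ⟨fun e => hb.ne' (Prod.ext_iff.1 e).2, rfl⟩⟩)
    rw [h2] at h1
    rcases hφ.prime.dvd_or_dvd h1 with h4 | ⟨G, rfl⟩
    · exact Or.inl (hφ.associated_of_dvd (by simpa using irreducible_X_sub_C (1 : ℚ[X]))
        (hφ.prime.dvd_of_dvd_pow h4))
    · exact Or.inr (Key2A.good_of_dvd h3)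
  · rw [eq_C_of_natDegree_eq_zero hd] at h0 ⊢
    exact Key2A.good_C (C_ne_zero.1 h0)
  · rw [rd_ev]
    exact fun e => Key2A.E_ne h0 (PowerSeries.map_injective _ (RatFunc.algebraMap_injective ℚ)
      (by rw [e, map_zero]))

end Pool.Agent.MP_4f1c5b_al.H20
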