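import Pool.Agent.MP_4f1c5b_al.H20.Spec

/-! The orbit formula for the number of twist classes. -/

namespace Pool.Agent.MP_4f1c5b_al.H20

open Classical IsLocalRing Pool.Agent.MP_4f1c5b_al.H1

namespace KirA

theorem summand {o c r r2 N k d : ℕ} (hr : 0 < r) (hr2 : 0 < r2) (hN : 0 < N) (hk : 0 < k)
    (h1 : o * r = N) (h2 : c * r2 = N * k) :
    (if o = d ^ 2 then (1 : ℚ) / c else 0) =
      if d ^ 2 * r = N then (r2 : ℚ) / ((N : ℚ) * k) else 0 := by
  have e : o = d ^ 2 ↔ d ^ 2 * r = N := by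
    rw [← h1]
    exact ⟨fun h => by rw [h], fun h => (Nat.eq_of_mul_eq_mul_right hr h).symm⟩
  have hc : c ≠ 0 := by
    rintro rfl
    have := Nat.mul_pos hN hk
    omega
  have h3 : (c : ℚ) * r2 = N * k := by exact_mod_cast h2
  have h4 : (r2 : ℚ) ≠ 0 := by exact_mod_cast hr2.ne'
  have h5 : (c : ℚ) ≠ 0 := by exact_mod_cast hc
  refine if_congr e ?_ rfl
  rw [← h3]
  field_simp

variable {R : Type} [CommRing R] [Finite R] {n : ℕ} {p : Submodule R (Matrix (Fin n) (Fin n) R)}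

theorem b_zero (h : IsLie p) (x : p) : h.b 0 x = 0 := Subtype.ext (by simp [IsLie.b])

theorem rad_pos (h : IsLie p) (ω : AddChar p ℂ) : 0 < h.rad ω :=
  haveI : Nonempty {y : p // ∀ x, ω (h.b y x) = 1} := ⟨⟨0, fun x => by simp [b_zero]⟩⟩
  Nat.card_pos

theorem rad2_pos (h : IsLie p) (ω : AddChar p ℂ) : 0 < h.rad2 ω :=
  haveI : Nonempty {y : p // ∀ x x', ω (h.b y (h.b x x')) = 1} :=
    ⟨⟨0, fun x x' => by simp [b_zero]⟩⟩
  Nat.card_pos

theorem kap_pos (h : IsLie p) : 0 < h.kap :=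
  haveI : Nonempty {l : AddChar p ℂ // ∀ x y, l (h.b x y) = 1} := ⟨⟨1, fun x y => by simp⟩⟩
  Nat.card_pos

theorem br {o O : Type} [CommRing o] [CommRing O] [Algebra o O] {n D : ℕ}
    {S : Set (MvPolynomial (Fin n × Fin n) o)} {π : O} {b : Fin D → Matrix (Fin n) (Fin n) O}
    {c : Fin D → Fin D → Fin D → O} {m : ℕ}
    {p : Submodule (Rm π m) (Matrix (Fin n) (Fin n) (Rm π m))}
    {P : Subgroup (GL (Fin n) (Rm π m))} {e : p ≃ P} {Ad : P → p →+ p}
    {ι : (Fin D → Rm π m) ≃ₗ[Rm π m] p} {f : grp S O →* P} (hL : Lat S π b c)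
    (h : Mdl S π b m p P e Ad ι f) (i j : Fin D) :
    h.lie.b (ι (Pi.single i 1)) (ι (Pi.single j 1)) = ι fun l => rm π m (c i j l) := by
  have h1 : ∀ i, (ι (Pi.single i 1)).1 = (b i).map (rm π m) := by
    intro i
    have h2 := h.hι (Pi.single i 1)
    have h3 : (fun k => rm π m ((Pi.single i 1 : Fin D → O) k)) = Pi.single i 1 := by
      funext k
      by_cases hk : k = i
      · subst hk; simp
      · simp [hk]
    have h4 : ∑ k, (Pi.single i 1 : Fin D → O) k • b k = b i := by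
      rw [Finset.sum_eq_single i] <;> simp +contextual
    rwa [h3, h4] at h2
  apply Subtype.ext
  rw [h.hι, ← hL.br]
  change (ι _).1 * (ι _).1 - (ι _).1 * (ι _).1 = _
  rw [h1, h1, ← Matrix.map_mul, ← Matrix.map_mul]
  ext r s
  simp only [Matrix.sub_apply, Matrix.map_apply, map_sub]

end KirA

open KirA in
theorem rowKir : LevS → TrS → ModS → GenS → BdS → TwbS → OrbS → CooS → KirS := by
  intro hLev hTr hMod hGen hBd hTw hOrb hCoo o O _ _ _ _ _ _ _ n D S π b c hA hπ hT hL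
  obtain ⟨ν, hν⟩ := hBd o O n D S π b c hA hπ hT hL
  refine ⟨ν, fun j => ?_⟩
  obtain ⟨p, P, e, Ad, ι, f, h⟩ := hMod o O n D S π b c (2 * j + ν) hπ hT hL
  obtain ⟨hfin, -, ψ, hψ⟩ := hGen O π (2 * j + ν) hπ
  let _ : TopologicalSpace P := ⊥
  have : DiscreteTopology P := ⟨rfl⟩
  have hker : ∀ g : grp S O, f g = 1 ↔ Cong π (2 * j + ν) g.1 := by
    intro g
    rw [Subtype.ext_iff, Units.ext_iff, h.hf, ← Matrix.ext_iff]
    refine forall₂_congr fun r s => ?_
    rw [← Ideal.mem_span_singleton, ← Ideal.Quotient.eq, Matrix.map_apply]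
    by_cases hrs : r = s
    · subst hrs; simp
    · simp [hrs]
  have hc : Continuous f := (hLev O n π _ hA hπ).2 _ P f fun g hg => (hker g).2 hg
  have h1 := hTr _ P f (Nat.card (ResidueField O) ^ j) h.surj hc fun a => by
    obtain ⟨a', h1, h2⟩ := hν j a
    exact ⟨a', h1, fun g hg => h2 g ((hker g).1 hg)⟩
  obtain ⟨o1, o2, o3⟩ := hOrb _ n p h.lie P e Ad (hT.map (rm π _)) h.exp
  rw [h1, hTw P p e Ad _ h.exp.kd o1, ← hCoo _ n D p h.lie ι _ ψ _ hψ (br hL h)]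
  exact finsum_congr fun ω => summand (rad_pos _ ω) (rad2_pos _ ω) Nat.card_pos (kap_pos _)
    (o2 ω) (o3 ω)

end Pool.Agent.MP_4f1c5b_al.H20
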