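import Pool.Agent.MP_4f1c5b_al.H20.Spec

/-! The product of two exponentials is the exponential of a sum of conjugates. -/

namespace Pool.Agent.MP_4f1c5b_al.H20

namespace KvA

variable {A S : Type} [CommRing A] [Ring S] [Algebra A S] {x y : S}

theorem mono_le {k j : ℕ} {a : S} (h : LF A x y k a) (hj : j ≤ k) : LF A x y j a := by
  induction hj with
  | refl => exact h
  | step _ ih => exact ih h.mono

theorem inJ {n : ℕ} {J : ℕ → Submodule A S} (hF : Fil A S n J) (hx : x ∈ J 1) (hy : y ∈ J 1)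
    {k : ℕ} {a : S} (h : LF A x y k a) : a ∈ J k := by
  induction h with
  | x => exact hx
  | y => exact hy
  | zero k => exact zero_mem _
  | add _ _ h1 h2 => exact add_mem h1 h2
  | smul c _ h1 => exact Submodule.smul_mem _ c h1
  | br _ _ h1 h2 => exact sub_mem (hF.mul h1 h2) (hF.anti (Nat.add_comm _ _).le (hF.mul h2 h1))
  | mono _ h1 => exact hF.anti (Nat.le_succ _) h1

variable (A x y) in
/-- Lie polynomials of weight at least `k`. -/
def L (k : ℕ) : Submodule A S where
  carrier := {a | LF A x y k a}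
  add_mem' := LF.add
  zero_mem' := LF.zero k
  smul_mem' c _ h := LF.smul c h

variable (A x y) in
/-- Sums of brackets with the generators. -/
def M (k : ℕ) : Submodule A S where
  carrier := {c | ∃ a b, LF A x y k a ∧ LF A x y k b ∧ c = (a * x - x * a) + (b * y - y * b)}
  add_mem' := by
    rintro _ _ ⟨a, b, ha, hb, rfl⟩ ⟨a', b', ha', hb', rfl⟩
    exact ⟨a + a', b + b', ha.add ha', hb.add hb', by noncomm_ring⟩
  zero_mem' := ⟨0, 0, .zero k, .zero k, by simp⟩
  smul_mem' := by
    rintro c _ ⟨a, b, ha, hb, rfl⟩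
    exact ⟨c • a, c • b, ha.smul c, hb.smul c, by
      simp only [smul_add, smul_sub, smul_mul_assoc, mul_smul_comm]⟩

theorem M_mono {k j : ℕ} (hj : j ≤ k) {c : S} (h : c ∈ M A x y k) : c ∈ M A x y j := by
  obtain ⟨a, b, ha, hb, e⟩ := h
  exact ⟨a, b, mono_le ha hj, mono_le hb hj, e⟩

theorem br_M {j : ℕ} {b : S} (hb : LF A x y j b) :
    ∀ (i : ℕ) (a : S), LF A x y i a → a * b - b * a ∈ M A x y (i + j - 1) := by
  induction hb with
  | x => exact fun i a ha => ⟨a, 0, ha, .zero _, by simp⟩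
  | y => exact fun i a ha => ⟨0, a, .zero _, ha, by simp⟩
  | zero k =>
    intro i a _
    rw [mul_zero, zero_mul, sub_zero]
    exact zero_mem _
  | add _ _ h1 h2 =>
    intro i a ha
    convert add_mem (h1 i a ha) (h2 i a ha) using 1
    noncomm_ring
  | smul c _ h1 =>
    intro i a ha
    rw [mul_smul_comm, smul_mul_assoc, ← smul_sub]
    exact Submodule.smul_mem _ c (h1 i a ha)
  | @br j₁ j₂ b₁ b₂ g1 g2 h1 h2 =>
    intro i a ha
    have e1 := h2 _ _ (ha.br g1)
    have e2 := h1 _ _ (ha.br g2)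
    rw [add_assoc] at e1
    rw [add_assoc, add_comm j₂] at e2
    convert sub_mem e1 e2 using 1
    noncomm_ring
  | mono _ h1 => exact fun i a ha => M_mono (by omega) (h1 i a ha)

theorem in_M {k : ℕ} {a : S} (h : LF A x y k a) : 2 ≤ k → a ∈ M A x y (k - 1) := by
  induction h with
  | x => omega
  | y => omega
  | zero k => exact fun _ => zero_mem _
  | add _ _ h1 h2 => exact fun hk => add_mem (h1 hk) (h2 hk)
  | smul c _ h1 => exact fun hk => Submodule.smul_mem _ c (h1 hk)
  | br g1 g2 _ _ => exact fun _ => br_M g2 _ _ g1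
  | mono _ h1 => exact fun hk => M_mono (by omega) (h1 (by omega))

theorem ad_mem {φ u : S} (hφ : LF A x y 1 φ) (hu : LF A x y 1 u) (m : ℕ) :
    LF A x y (1 + m) ((fun z => φ * z - z * φ)^[m] u) := by
  induction m with
  | zero => exact hu
  | succ m ih =>
    rw [Function.iterate_succ_apply']
    exact mono_le (hφ.br ih) (by omega)

theorem ad_sub {k : ℕ} {φ a u : S} (hφ : LF A x y 1 φ) (ha : LF A x y (k + 1) a)
    (hu : LF A x y 1 u) (m : ℕ) :
    (fun z => (φ + a) * z - z * (φ + a))^[m] u - (fun z => φ * z - z * φ)^[m] u ∈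
      L A x y (k + 1 + m) := by
  induction m with
  | zero =>
    rw [Function.iterate_zero_apply, Function.iterate_zero_apply, sub_self]
    exact zero_mem _
  | succ m ih =>
    have h1 := ad_mem (hφ.add (mono_le ha (by omega))) hu m
    have h2 : _ ∈ L A x y (k + 1 + (m + 1)) :=
      (mono_le (hφ.br ih) (by omega)).add (mono_le (ha.br h1) (by omega))
    rw [Function.iterate_succ_apply', Function.iterate_succ_apply']
    convert h2 using 1
    noncomm_ring

theorem Ad_sub {n : ℕ} {J : ℕ → Submodule A S} (hF : Fil A S (n + 1) J) (kit : ExKit A S (n + 1) J)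
    (hx : x ∈ J 1) (hy : y ∈ J 1) {k : ℕ} {φ a u : S} (hφ : LF A x y 1 φ)
    (ha : LF A x y (k + 1) a) (hu : LF A x y 1 u) :
    ex A (n + 1) (φ + a) * u * ex A (n + 1) (-(φ + a)) - ex A (n + 1) φ * u * ex A (n + 1) (-φ) -
      (a * u - u * a) ∈ L A x y (k + 3) := by
  rw [kit.ad u _ (inJ hF hx hy hu) (inJ hF hx hy (hφ.add (mono_le ha (by omega)))),
    kit.ad u _ (inJ hF hx hy hu) (inJ hF hx hy hφ), ← Finset.sum_sub_distrib,
    Finset.sum_range_succ', Finset.sum_range_succ']
  have h : ∑ m ∈ Finset.range n, (Ring.inverse ((m + 1 + 1).factorial : A) •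
      (fun z => (φ + a) * z - z * (φ + a))^[m + 1 + 1] u -
      Ring.inverse ((m + 1 + 1).factorial : A) • (fun z => φ * z - z * φ)^[m + 1 + 1] u) ∈
      L A x y (k + 3) := sum_mem fun m _ => by
    rw [← smul_sub]
    exact Submodule.smul_mem _ _ (mono_le (ad_sub hφ ha hu (m + 1 + 1)) (by omega))
  convert h using 1
  simp only [zero_add, Nat.factorial_one, Nat.cast_one, Ring.inverse_one, one_smul,
    Function.iterate_one, Function.iterate_zero_apply, sub_self, add_zero]
  noncomm_ring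

end KvA

open KvA

theorem rowKv : ExS → BchS → KvS := by
  intro hE hB A S _ _ _ n J x y hF hx hy
  rcases n with _ | n
  · exact ⟨0, 0, .zero _, .zero _, by simp [ex]⟩
  have kit := hE A S _ J hF
  obtain ⟨z, hz, e⟩ := hB A S _ J x y hF hx hy
  have key : ∀ k, ∃ φ ψ, LF A x y 1 φ ∧ LF A x y 1 ψ ∧ x + y + z -
      (ex A (n + 1) φ * x * ex A (n + 1) (-φ) + ex A (n + 1) ψ * y * ex A (n + 1) (-ψ)) ∈
      L A x y (k + 2) := by
    intro k
    induction k with
    | zero =>
      refine ⟨0, 0, .zero _, .zero _, ?_⟩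
      simp only [neg_zero, kit.zero, one_mul, mul_one, add_sub_cancel_left]
      exact hz
    | succ k ih =>
      obtain ⟨φ, ψ, hφ, hψ, h⟩ := ih
      obtain ⟨a, b, ha, hb, e1⟩ := in_M h (by omega)
      refine ⟨φ + a, ψ + b, hφ.add (mono_le ha (by omega)), hψ.add (mono_le hb (by omega)), ?_⟩
      convert neg_mem (add_mem (Ad_sub hF kit hx hy hφ ha .x) (Ad_sub hF kit hx hy hψ hb .y))
        using 1
      rw [eq_add_of_sub_eq e1]
      abel
  obtain ⟨φ, ψ, hφ, hψ, h⟩ := key n
  refine ⟨φ, ψ, hφ, hψ, ?_⟩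
  rw [e, sub_eq_zero.1 (hF.top _ (hF.anti (by omega) (inJ hF hx hy h)))]

end Pool.Agent.MP_4f1c5b_al.H20
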