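import Pool.Agent.MP_4f1c5b_al.H20.Spec

/-!
The Lie lattice of the group of integral points.
-/

namespace Pool.Agent.MP_4f1c5b_al.H20

open Pool.Agent.MP_4f1c5b_al.H1

namespace LatA

variable {O K : Type} [CommRing O] [Field K] [Algebra O K] {n : ℕ}

theorem map_smul' (a : O) (x : Matrix (Fin n) (Fin n) O) :
    (algebraMap O K).mapMatrix (a • x) = algebraMap O K a • (algebraMap O K).mapMatrix x := by
  ext i j
  simp

/-- The integral matrices in a subspace. -/
def lat (O : Type) {K : Type} [CommRing O] [Field K] [Algebra O K] {n : ℕ}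
    (W : Submodule K (Matrix (Fin n) (Fin n) K)) : Submodule O (Matrix (Fin n) (Fin n) O) where
  carrier := {x | (algebraMap O K).mapMatrix x ∈ W}
  add_mem' := fun {x y} hx hy => by
    show (algebraMap O K).mapMatrix (x + y) ∈ W
    rw [map_add]
    exact W.add_mem hx hy
  zero_mem' := by
    show (algebraMap O K).mapMatrix 0 ∈ W
    rw [map_zero]
    exact W.zero_mem
  smul_mem' := fun c x hx => by
    show (algebraMap O K).mapMatrix (c • x) ∈ W
    rw [map_smul']
    exact W.smul_mem _ hx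

theorem mem_lat {W : Submodule K (Matrix (Fin n) (Fin n) K)} {x : Matrix (Fin n) (Fin n) O} :
    x ∈ lat O W ↔ (algebraMap O K).mapMatrix x ∈ W := Iff.rfl

theorem map_J (hi : Function.Injective (algebraMap O K)) {j : ℕ} {x : Matrix (Fin n) (Fin n) O} :
    (algebraMap O K).mapMatrix x ∈ mt_J K n j ↔ x ∈ mt_J O n j := by
  refine forall_congr' fun a => forall_congr' fun b => imp_congr_right fun _ => ?_
  exact map_eq_zero_iff _ hi

theorem main {o : Type} [CommRing o] [IsDomain O] [IsPrincipalIdealRing O] [CharZero O]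
    [Algebra o O] [Algebra o K] [IsScalarTower o O K] (hi : Function.Injective (algebraMap O K))
    (S : Set (MvPolynomial (Fin n × Fin n) o)) (π : O) (hS : IsGroup S) (hπ : π ≠ 0)
    (hT : Tame n O) (hE : ExKit O (Matrix (Fin n) (Fin n) O) n (mt_J O n))
    (W : Submodule K (Matrix (Fin n) (Fin n) K)) (hW : IsLie W)
    (hWS : ∀ x ∈ mt_J K n 1, (x ∈ W ↔
      ∀ P ∈ S, MvPolynomial.aeval (fun ij : Fin n × Fin n => ex K n x ij.1 ij.2) P = 0)) :
    ∃ (D : ℕ) (b : Fin D → Matrix (Fin n) (Fin n) O) (c : Fin D → Fin D → Fin D → O),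
      D ≤ n * n ∧ Lat S π b c := by
  classical
  let L := lat O W
  let B := Module.finBasis O L
  have hJ : ∀ x ∈ L, x ∈ mt_J O n 1 := fun x hx => (map_J hi).1 (hW.le hx)
  have hbr : ∀ x y : L, x.1 * y.1 - y.1 * x.1 ∈ L := fun x y => by
    rw [mem_lat, map_sub, map_mul, map_mul]
    exact hW.br _ x.2 _ y.2
  have hsum : ∀ a : Fin (Module.finrank O L) → O,
      ∑ i, a i • (B i).1 = (∑ i, a i • B i : L).1 := fun a => by simp
  have hkey : ∀ x ∈ mt_J O n 1, (x ∈ L ↔
      ∀ P ∈ S, MvPolynomial.aeval (fun ij : Fin n × Fin n => ex O n x ij.1 ij.2) P = 0) := by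
    intro x hx
    rw [mem_lat, hWS _ ((map_J hi).2 hx),
      ← map_ex hT (algebraMap O K) (algebraMap O K).mapMatrix map_smul' x]
    refine forall_congr' fun P => imp_congr_right fun _ => ?_
    rw [← map_eq_zero_iff _ hi,
      ← MvPolynomial.aeval_algebraMap_apply K (fun ij : Fin n × Fin n => ex O n x ij.1 ij.2) P]
    rfl
  refine ⟨Module.finrank O L, fun i => (B i).1,
    fun i j k => B.repr ⟨_, hbr (B i) (B j)⟩ k, ?_, fun i => hJ _ (B i).2, fun i j => ?_,
    fun a m h i => ?_, fun g => ?_⟩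
  · have := Submodule.finrank_le L
    simpa [Module.finrank_matrix] using this
  · rw [hsum, B.sum_repr]
  · choose y hy using h
    have e : (∑ i, a i • B i : L).1 = π ^ m • (Matrix.of y : Matrix (Fin n) (Fin n) O) := by
      rw [← hsum]
      ext r s
      rw [hy]
      rfl
    have hy' : (Matrix.of y : Matrix (Fin n) (Fin n) O) ∈ L := by
      have h1 := (∑ i, a i • B i : L).2
      rw [e, mem_lat, map_smul'] at h1
      exact (W.smul_mem_iff ((map_ne_zero_iff _ hi).2 (pow_ne_zero m hπ))).1 h1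
    have e' : (∑ i, a i • B i : L) = π ^ m • (⟨_, hy'⟩ : L) := Subtype.ext e
    have h2 := congrArg (fun z => B.repr z i) e'
    simp only [Module.Basis.repr_sum_self, map_smul, Finsupp.smul_apply, smul_eq_mul] at h2
    exact ⟨_, h2⟩
  · obtain ⟨H, hH⟩ := hS O
    have hmem : g ∈ grp S O ↔ g ∈ pts S O := by
      rw [grp, ← hH, Subgroup.closure_eq]
      rfl
    rw [hmem]
    constructor
    · rintro ⟨h1, h2, h3⟩
      obtain ⟨z, hz, e⟩ := hE.surj _ (mt_uni_iff.2 ⟨h1, h2⟩)
      rw [add_sub_cancel] at e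
      have hzL : z ∈ L := (hkey z hz).2 (by rw [e]; exact h3)
      refine ⟨fun i => B.repr ⟨z, hzL⟩ i, ?_⟩
      rw [hsum, B.sum_repr, e]
    · rintro ⟨a, e⟩
      rw [hsum] at e
      have h1 := (∑ i, a i • B i : L).2
      obtain ⟨h2, h3⟩ := mt_uni_iff.1 (hE.mem _ (hJ _ h1))
      refine ⟨by rw [e]; exact h2, by rw [e]; exact h3, ?_⟩
      rw [e]
      exact (hkey _ (hJ _ h1)).1 h1

end LatA

theorem rowLat : ExS → Lat1S → LatS := by
  intro hE h1 o O _ _ _ _ _ _ n S π hS hπ hT
  obtain ⟨W, hW, hWS⟩ := h1 o (FractionRing O) n S hS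
  exact LatA.main (IsFractionRing.injective O (FractionRing O)) S π hS hπ.ne_zero hT
    (hE _ _ n _ (fil_mat hT)) W hW hWS

end Pool.Agent.MP_4f1c5b_al.H20
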