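import Pool.Agent.MP_4f1c5b_al.H20.Spec

/-!
The Lie algebra of a unipotent group over a field of characteristic zero.
-/

namespace Pool.Agent.MP_4f1c5b_al.H20

open Classical Polynomial Pool.Agent.MP_4f1c5b_al.H1

set_option linter.unusedSectionVars false

namespace Lat1A

variable {o K : Type} [CommRing o] [Field K] [CharZero K] [Algebra o K] {n : ℕ}
  {S : Set (MvPolynomial (Fin n × Fin n) o)}

theorem tame (K : Type) [Field K] [CharZero K] (n : ℕ) : Tame n K := fun k h _ =>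
  (Nat.cast_ne_zero.2 h.ne' : (k : K) ≠ 0).isUnit

/-- The exponential of `x` satisfies the equations. -/
def V (S : Set (MvPolynomial (Fin n × Fin n) o)) (x : Matrix (Fin n) (Fin n) K) : Prop :=
  x ∈ mt_J K n 1 ∧
    ∀ P ∈ S, MvPolynomial.aeval (fun ij : Fin n × Fin n => ex K n x ij.1 ij.2) P = 0

theorem ex_neg (E : ExKit K (Matrix (Fin n) (Fin n) K) n (mt_J K n))
    {x : Matrix (Fin n) (Fin n) K} (hx : x ∈ mt_J K n 1) :
    ex K n x * ex K n (-x) = 1 ∧ ex K n (-x) * ex K n x = 1 := by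
  constructor
  · rw [← E.add x (-x) hx (neg_mem hx) (Commute.refl x).neg_right, add_neg_cancel, E.zero]
  · rw [← E.add (-x) x (neg_mem hx) hx (Commute.refl x).neg_left, neg_add_cancel, E.zero]

/-- The exponential as a unit. -/
noncomputable def un (E : ExKit K (Matrix (Fin n) (Fin n) K) n (mt_J K n))
    {x : Matrix (Fin n) (Fin n) K} (hx : x ∈ mt_J K n 1) : GL (Fin n) K :=
  ⟨ex K n x, ex K n (-x), (ex_neg E hx).1, (ex_neg E hx).2⟩

theorem un_mem (E : ExKit K (Matrix (Fin n) (Fin n) K) n (mt_J K n))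
    {H : Subgroup (GL (Fin n) K)} (hH : (H : Set (GL (Fin n) K)) = pts S K)
    {x : Matrix (Fin n) (Fin n) K} (hx : x ∈ mt_J K n 1) : un E hx ∈ H ↔ V S x := by
  rw [← SetLike.mem_coe, hH]
  have h := mt_uni_iff.1 (E.mem x hx)
  exact ⟨fun a => ⟨hx, a.2.2⟩, fun a => ⟨h.1, h.2, a.2⟩⟩

theorem v_zero (E : ExKit K (Matrix (Fin n) (Fin n) K) n (mt_J K n)) (hS : IsGroup S) :
    V S (0 : Matrix (Fin n) (Fin n) K) := by
  obtain ⟨H, hH⟩ := hS K
  refine (un_mem E hH (zero_mem _)).1 ?_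
  have : un E (zero_mem (mt_J K n 1)) = 1 := Units.ext E.zero
  rw [this]
  exact one_mem _

theorem v_mul (E : ExKit K (Matrix (Fin n) (Fin n) K) n (mt_J K n)) (hS : IsGroup S)
    {x y z : Matrix (Fin n) (Fin n) K} (hx : V S x) (hy : V S y) (hz : z ∈ mt_J K n 1)
    (e : ex K n z = ex K n x * ex K n y) : V S z := by
  obtain ⟨H, hH⟩ := hS K
  refine (un_mem E hH hz).1 ?_
  have : un E hz = un E hx.1 * un E hy.1 := Units.ext e
  rw [this]
  exact mul_mem ((un_mem E hH hx.1).2 hx) ((un_mem E hH hy.1).2 hy)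

theorem v_conj (E : ExKit K (Matrix (Fin n) (Fin n) K) n (mt_J K n)) (hS : IsGroup S)
    {x y : Matrix (Fin n) (Fin n) K} (hx : V S x) (hy : V S y) :
    V S (ex K n y * x * ex K n (-y)) := by
  obtain ⟨H, hH⟩ := hS K
  have hz : ex K n y * x * ex K n (-y) ∈ mt_J K n 1 :=
    mt_J_mul (mt_J_mul (k := 1) (mt_J_zero (E.mem y hy.1)) hx.1 le_rfl)
      (mt_J_zero (E.mem _ (neg_mem hy.1))) le_rfl
  refine (un_mem E hH hz).1 ?_
  have : un E hz = un E hy.1 * un E hx.1 * (un E hy.1)⁻¹ :=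
    Units.ext (E.conj _ _ x (ex_neg E hy.1).1 (ex_neg E hy.1).2).symm
  rw [this]
  exact mul_mem (mul_mem ((un_mem E hH hy.1).2 hy) ((un_mem E hH hx.1).2 hx))
    (inv_mem ((un_mem E hH hy.1).2 hy))

/-- Evaluation of a polynomial matrix. -/
noncomputable abbrev evm (n : ℕ) (t : K) :
    Matrix (Fin n) (Fin n) K[X] →+* Matrix (Fin n) (Fin n) K := (evalRingHom t).mapMatrix

theorem evm_smul (t : K) (a : K[X]) (s : Matrix (Fin n) (Fin n) K[X]) :
    evm n t (a • s) = evalRingHom t a • evm n t s := by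
  ext i j
  simp

theorem evm_C (t : K) (x : Matrix (Fin n) (Fin n) K) : evm n t (x.map C) = x := by
  ext i j
  simp

theorem evm_ex (t : K) (Z : Matrix (Fin n) (Fin n) K[X]) :
    evm n t (ex K[X] n Z) = ex K n (evm n t Z) :=
  map_ex ((tame K n).map C) (evalRingHom t) (evm n t) (evm_smul t) Z

theorem evm_J (t : K) {Z : Matrix (Fin n) (Fin n) K[X]} (hZ : Z ∈ mt_J K[X] n 1) :
    evm n t Z ∈ mt_J K n 1 := fun a b h => by
  simp [hZ a b h]

theorem C_J {x : Matrix (Fin n) (Fin n) K} (hx : x ∈ mt_J K n 1) :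
    x.map C ∈ mt_J K[X] n 1 := fun a b h => by
  simp [hx a b h]

theorem zar {Z : Matrix (Fin n) (Fin n) K[X]} (hZ : Z ∈ mt_J K[X] n 1)
    (h : {t : K | V S (evm n t Z)}.Infinite) (t : K) : V S (evm n t Z) := by
  refine ⟨evm_J t hZ, fun P hP => ?_⟩
  have key : ∀ t : K, MvPolynomial.aeval
      (fun ij : Fin n × Fin n => ex K n (evm n t Z) ij.1 ij.2) P =
      eval t (MvPolynomial.aeval (fun ij : Fin n × Fin n => ex K[X] n Z ij.1 ij.2) P) := by
    intro t
    have h1 := MvPolynomial.comp_aeval_apply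
      (fun ij : Fin n × Fin n => ex K[X] n Z ij.1 ij.2)
      ((Polynomial.aeval t : K[X] →ₐ[K] K).restrictScalars o) P
    simp only [AlgHom.coe_restrictScalars', coe_aeval_eq_eval] at h1
    rw [h1, ← evm_ex]
    rfl
  have h0 : MvPolynomial.aeval (fun ij : Fin n × Fin n => ex K[X] n Z ij.1 ij.2) P = 0 := by
    refine eq_zero_of_infinite_isRoot _ (h.mono fun s hs => ?_)
    exact (key s).symm.trans (hs.2 P hP)
  rw [key, h0, eval_zero]

theorem v_smul (E : ExKit K (Matrix (Fin n) (Fin n) K) n (mt_J K n)) (hS : IsGroup S)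
    {x : Matrix (Fin n) (Fin n) K} (hx : V S x) (t : K) : V S (t • x) := by
  have h1 : ∀ k : ℕ, V S ((k : K) • x) := by
    intro k
    induction k with
    | zero => simpa using v_zero E hS
    | succ k ih =>
      refine v_mul E hS ih hx (Submodule.smul_mem _ _ hx.1) ?_
      rw [Nat.cast_succ, add_smul, one_smul]
      exact E.add _ _ ih.1 hx.1 ((Commute.refl x).smul_left _)
  have h2 : ∀ s : K, evm n s ((X : K[X]) • x.map C) = s • x := fun s => by
    rw [evm_smul, evm_C]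
    simp
  rw [← h2]
  refine zar (Submodule.smul_mem _ _ (C_J hx.1)) ?_ t
  refine (Set.infinite_range_of_injective (Nat.cast_injective (R := K))).mono ?_
  rintro _ ⟨k, rfl⟩
  show V S _
  rw [h2]
  exact h1 k

theorem lf_div {A : Type} [CommRing A] {u : A} {x y : Matrix (Fin n) (Fin n) A}
    (hx : x ∈ mt_J A n 1) (hy : y ∈ mt_J A n 1) {k : ℕ} {a : Matrix (Fin n) (Fin n) A}
    (h : LF A (u • x) (u • y) k a) : ∃ b ∈ mt_J A n 1, a = u ^ k • b := by
  induction h with
  | x => exact ⟨x, hx, by rw [pow_one]⟩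
  | y => exact ⟨y, hy, by rw [pow_one]⟩
  | zero k => exact ⟨0, zero_mem _, by rw [smul_zero]⟩
  | add _ _ h1 h2 =>
    obtain ⟨b, hb, rfl⟩ := h1
    obtain ⟨c, hc, rfl⟩ := h2
    exact ⟨b + c, add_mem hb hc, by rw [smul_add]⟩
  | smul c _ h1 =>
    obtain ⟨b, hb, rfl⟩ := h1
    exact ⟨c • b, Submodule.smul_mem _ _ hb, smul_comm _ _ _⟩
  | br _ _ h1 h2 =>
    obtain ⟨b, hb, rfl⟩ := h1
    obtain ⟨c, hc, rfl⟩ := h2
    refine ⟨b * c - c * b, sub_mem (mt_J_mul hb hc (by omega)) (mt_J_mul hc hb (by omega)), ?_⟩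
    rw [smul_mul_smul_comm, smul_mul_smul_comm, smul_sub, pow_add, mul_comm (u ^ _) (u ^ _)]
  | mono _ h1 =>
    obtain ⟨b, hb, rfl⟩ := h1
    exact ⟨u • b, Submodule.smul_mem _ _ hb, by rw [pow_succ, mul_smul]⟩

theorem v_add (E : ExKit K (Matrix (Fin n) (Fin n) K) n (mt_J K n)) (hS : IsGroup S) (hB : BchS)
    {x y : Matrix (Fin n) (Fin n) K} (hx : V S x) (hy : V S y) : V S (x + y) := by
  obtain ⟨z, hz, e⟩ := hB K[X] _ n (mt_J K[X] n) ((X : K[X]) • x.map C) ((X : K[X]) • y.map C)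
    (fil_mat ((tame K n).map C)) (Submodule.smul_mem _ _ (C_J hx.1))
    (Submodule.smul_mem _ _ (C_J hy.1))
  obtain ⟨b, hb, rfl⟩ := lf_div (C_J hx.1) (C_J hy.1) hz
  have hZ : x.map C + y.map C + (X : K[X]) • b ∈ mt_J K[X] n 1 :=
    add_mem (add_mem (C_J hx.1) (C_J hy.1)) (Submodule.smul_mem _ _ hb)
  have e1 : (X : K[X]) • x.map C + (X : K[X]) • y.map C + (X : K[X]) ^ 2 • b =
      (X : K[X]) • (x.map C + y.map C + (X : K[X]) • b) := by
    rw [smul_add, smul_add, sq, mul_smul]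
  have h1 : ∀ t : K, V S (t • evm n t (x.map C + y.map C + (X : K[X]) • b)) := by
    intro t
    refine v_mul E hS (v_smul E hS hx t) (v_smul E hS hy t)
      (Submodule.smul_mem _ _ (evm_J t hZ)) ?_
    have e2 := congrArg (evm n t) e
    rw [e1, map_mul, evm_ex, evm_ex, evm_ex, evm_smul, evm_smul, evm_smul, evm_C, evm_C] at e2
    simpa using e2.symm
  have h2 := zar (S := S) hZ ((Set.finite_singleton (0 : K)).infinite_compl.mono fun t ht => by
    have h3 := v_smul E hS (h1 t) t⁻¹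
    rwa [smul_smul, inv_mul_cancel₀ ht, one_smul] at h3) 0
  rw [map_add, map_add, evm_smul, evm_C, evm_C] at h2
  simpa using h2

theorem ad_smul (t : K) (x y : Matrix (Fin n) (Fin n) K) (k : ℕ) :
    (fun z => t • y * z - z * t • y)^[k] x = t ^ k • (fun z => y * z - z * y)^[k] x := by
  induction k with
  | zero => simp
  | succ k ih =>
    rw [Function.iterate_succ_apply', Function.iterate_succ_apply', ih, smul_mul_smul_comm,
      smul_mul_smul_comm, smul_sub, pow_succ, mul_comm t]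

end Lat1A

open Lat1A in
theorem rowLat1 : ExS → BchS → Lat1S := by
  intro hE hB o K _ _ _ _ n S hS
  have E := hE K _ n _ (fil_mat (tame K n))
  let W : Submodule K (Matrix (Fin n) (Fin n) K) :=
    { carrier := {x | V S x}
      add_mem' := fun hx hy => v_add E hS hB hx hy
      zero_mem' := v_zero E hS
      smul_mem' := fun c _ hx => v_smul E hS hx c }
  refine ⟨W, ⟨fun x hx => hx.1, fun y hy x hx => ?_⟩,
    fun x hx => ⟨fun h => h.2, fun h => ⟨hx, h⟩⟩⟩
  rcases Nat.eq_zero_or_pos n with rfl | hn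
  · rw [Subsingleton.elim (y * x - x * y) 0]
    exact zero_mem _
  rw [← Subspace.forall_mem_dualAnnihilator_apply_eq_zero_iff]
  intro φ hφ
  rw [Submodule.mem_dualAnnihilator] at hφ
  have h1 : (∑ k ∈ Finset.range (n + 1), C (Ring.inverse (k.factorial : K) *
      φ ((fun z => y * z - z * y)^[k] x)) * X ^ k : K[X]) = 0 := by
    refine Polynomial.funext fun t => ?_
    have h2 := hφ _ (v_conj E hS hx (v_smul E hS hy t))
    rw [E.ad x (t • y) hx.1 (Submodule.smul_mem _ _ hy.1), map_sum] at h2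
    rw [eval_zero, ← h2, eval_finsetSum]
    refine Finset.sum_congr rfl fun k _ => ?_
    rw [ad_smul, map_smul, map_smul, eval_mul, eval_C, eval_pow, eval_X, smul_eq_mul, smul_eq_mul]
    ring
  have h3 := congrArg (fun p : K[X] => p.coeff 1) h1
  simp only [finsetSum_coeff, coeff_C_mul_X_pow, Finset.sum_ite_eq, Finset.mem_range] at h3
  rw [if_pos (by omega)] at h3
  simpa using h3

end Pool.Agent.MP_4f1c5b_al.H20
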