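import Pool.Agent.MP_4f1c5b_al.H20.Spec

/-!
Levels of continuous representations, and twist classes along a surjection.
-/

namespace Pool.Agent.MP_4f1c5b_al.H20

open IsLocalRing Pool.Agent.MP_4f1c5b_al.H1

namespace LevA

theorem nss {Γ : Type} [Group Γ] [TopologicalSpace Γ] (N : ℕ → Subgroup Γ)
    (hb : ∀ U ∈ nhds (1 : Γ), ∃ m, (N m : Set Γ) ⊆ U) {A : Type} [NormedRing A]
    [NormedAlgebra ℝ A] (f : Γ →* A) (hf : Continuous f) : ∃ m, ∀ g ∈ N m, f g = 1 := by
  have h1 : f ⁻¹' Metric.closedBall 1 (1 / 2) ∈ nhds (1 : Γ) :=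
    hf.continuousAt.preimage_mem_nhds (by
      rw [map_one]; exact Metric.closedBall_mem_nhds _ (by norm_num))
  obtain ⟨m, hm⟩ := hb _ h1
  refine ⟨m, fun g hg => nss_ring fun k => ?_⟩
  have := hm ((N m).pow_mem hg k)
  simpa [dist_eq_norm] using this

open scoped Matrix.Norms.Operator in
theorem nss_mat {Γ : Type} [Group Γ] [TopologicalSpace Γ] (N : ℕ → Subgroup Γ)
    (hb : ∀ U ∈ nhds (1 : Γ), ∃ m, (N m : Set Γ) ⊆ U) {d : ℕ}
    (f : Γ →* Matrix (Fin d) (Fin d) ℂ) (hf : Continuous f) : ∃ m, ∀ g ∈ N m, f g = 1 :=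
  nss N hb f hf

theorem lev : LevS := by
  intro O _ _ _ _ n π Γ hO hπ
  set P := maximalIdeal O with hP
  have hPm : ∀ (m : ℕ) (x : O), x ∈ P ^ m ↔ π ^ m ∣ x := fun m x => by
    rw [hP, hπ.maximalIdeal_eq, Ideal.span_singleton_pow, Ideal.mem_span_singleton]
  let φ : ∀ m : ℕ, Γ →* GL (Fin n) (O ⧸ P ^ m) := fun m =>
    (Matrix.GeneralLinearGroup.map (Ideal.Quotient.mk (P ^ m))).comp Γ.subtype
  have hmem : ∀ m (g : Γ), g ∈ (φ m).ker ↔
      ∀ a b, g.1.1 a b - (1 : Matrix (Fin n) (Fin n) O) a b ∈ P ^ m := fun m g =>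
    mt_mem_ker _ _
  have hc : ∀ m (g : Γ), g ∈ (φ m).ker ↔ Cong π m g.1 := fun m g => by
    simp only [hmem, hPm, Cong]
  have htop : IsTopologicalRing O := by
    have h1 := (P.nonarchimedean).toIsTopologicalRing
    rwa [← hO] at h1
  refine ⟨fun d f hf => ?_, fun m A _ _ f h => ?_⟩
  · refine (nss_mat (fun m => (φ m).ker) (fun U hUn => ?_) f hf).imp
      fun m hm g hg => hm g ((hc m g).2 hg)
    by_contra hcon
    rw [not_exists] at hcon
    have h1 : ∀ m, ∃ g : Γ, g ∈ (φ m).ker ∧ g ∉ U := fun m => Set.not_subset.mp (hcon m)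
    choose g hg1 hg2 using h1
    have h2 : ∀ g : ℕ → Γ, (∀ m, g m ∈ (φ m).ker) →
        Filter.Tendsto (fun m => (g m).1.1) Filter.atTop (nhds 1) := by
      intro g hg
      refine tendsto_pi_nhds.mpr fun a => tendsto_pi_nhds.mpr fun b => ?_
      exact mt_tendsto hO _ _ fun m => (hmem m _).mp (hg m) a b
    have h3 : Filter.Tendsto g Filter.atTop (nhds 1) := by
      rw [tendsto_subtype_rng, Units.isInducing_embedProduct.tendsto_nhds_iff]
      exact (h2 g hg1).prodMk_nhds ((MulOpposite.continuous_op.tendsto _).comp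
        (h2 (fun m => (g m)⁻¹) fun m => inv_mem (hg1 m)))
    obtain ⟨m, hm⟩ := (h3.eventually hUn).exists
    exact hg2 m hm
  · refine IsLocallyConstant.continuous ((IsLocallyConstant.iff_exists_open _).2 fun g => ?_)
    refine ⟨{x : Γ | g⁻¹ * x ∈ (φ m).ker}, ?_, by simp, fun x hx => ?_⟩
    · have e : {x : Γ | g⁻¹ * x ∈ (φ m).ker} = ⋂ a, ⋂ b,
          (fun x : Γ => (g⁻¹ * x).1.1 a b - (1 : Matrix (Fin n) (Fin n) O) a b) ⁻¹'
            ((P ^ m : Ideal O) : Set O) := by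
        ext x
        simp only [Set.mem_ofPred_eq, hmem, Set.mem_iInter, Set.mem_preimage, SetLike.mem_coe]
      rw [e]
      refine isOpen_iInter_of_finite fun a => isOpen_iInter_of_finite fun b => ?_
      refine ((isAdic_iff.mp hO).1 m).preimage ?_
      have h1 : Continuous fun x : Γ => (g⁻¹ * x).1.1 :=
        Units.continuous_val.comp (continuous_subtype_val.comp (continuous_const.mul continuous_id))
      exact (h1.matrix_elem a b).sub continuous_const
    · have : x = g * (g⁻¹ * x) := by group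
      rw [this, map_mul, h _ ((hc m _).1 hx), mul_one]

theorem descend {Γ Q A : Type} [Group Γ] [Group Q] [Monoid A] (f : Γ →* Q)
    (hf : Function.Surjective f) (b : Γ →* A) (h : ∀ g, f g = 1 → b g = 1) :
    ∃ c : Q →* A, ∀ g, c (f g) = b g := by
  have k : ∀ g g', f g = f g' → b g = b g' := fun g g' e => by
    have : g' = g * (g⁻¹ * g') := by group
    rw [this, map_mul b, h (g⁻¹ * g') (by rw [map_mul, map_inv, e, inv_mul_cancel]), mul_one]
  choose s hs using hf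
  refine ⟨⟨⟨fun q => b (s q), h _ (hs 1)⟩, fun x y => ?_⟩, fun g => k _ _ (hs _)⟩
  change b (s (x * y)) = b (s x) * b (s y)
  rw [← map_mul]
  exact k _ _ (by rw [map_mul, hs, hs, hs])

theorem tr : TrS := by
  intro Γ Q _ _ _ _ _ f d hf hc h
  let F : Irr Q d → Irr Γ d := fun a => ⟨a.1.comp f, a.2.1.comp hc, a.2.2.comp f hf⟩
  have h1 : ∀ a b, Twist a b → Twist (F a) (F b) := by
    rintro a b ⟨χ, P, hχ, e⟩
    exact ⟨χ.comp f, P, hχ.comp hc, fun g => e (f g)⟩
  have h2 : ∀ a b, Twist (F a) (F b) → Twist a b := by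
    rintro a b ⟨χ, P, -, e⟩
    obtain ⟨c, hc'⟩ := descend f hf χ fun g hg => by
      have e1 : b.1 (f g) = (χ g : ℂ) • (P.1 * a.1 (f g) * (P⁻¹).1) := e g
      rw [hg, map_one, map_one, mul_one, Units.mul_inv] at e1
      have i : Fin d := ⟨0, Nat.pos_of_ne_zero a.2.2.1⟩
      have e2 := congrFun (congrFun e1 i) i
      rw [Matrix.smul_apply, Matrix.one_apply_eq, smul_eq_mul, mul_one] at e2
      exact Units.ext e2.symm
    refine ⟨c, P, continuous_of_discreteTopology, fun q => ?_⟩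
    obtain ⟨g, rfl⟩ := hf q
    rw [hc']
    exact e g
  refine (Nat.card_eq_of_bijective (Quot.map F h1) ⟨?_, ?_⟩).symm
  · rintro ⟨a⟩ ⟨b⟩ e
    exact Quot.sound (h2 a b (twist_iff.1 e))
  · rintro ⟨a⟩
    obtain ⟨b, hb, hb'⟩ := h a
    obtain ⟨c, hc'⟩ := descend f hf b.1 hb'
    have e : c.comp f = b.1 := MonoidHom.ext hc'
    refine ⟨Quot.mk _ ⟨c, continuous_of_discreteTopology, Irred.of_comp f (e ▸ b.2.2)⟩, ?_⟩
    refine Eq.trans ?_ (Quot.sound hb).symm
    exact congrArg (Quot.mk _) (Subtype.ext e)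

end LevA

theorem rowLev : LevS ∧ TrS := ⟨LevA.lev, LevA.tr⟩

end Pool.Agent.MP_4f1c5b_al.H20
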