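import Pool.Agent.MP_4f1c5b_al.H20.Spec

/-!
Cancellation in a Taylor expansion forces a root of a derivative in the ball.
-/

namespace Pool.Agent.MP_4f1c5b_al.H20

open Classical IsLocalRing Polynomial

namespace LocA

/-- Newton iteration for a polynomial which need not be monic (the argument of Mathlib). -/
theorem hensel {R : Type} [CommRing R] (I : Ideal R) [IsAdicComplete I R] (f : R[X]) (a₀ : R)
    (h₁ : f.eval a₀ ∈ I) (h₂ : IsUnit (Ideal.Quotient.mk I (f.derivative.eval a₀))) :
    ∃ a : R, f.IsRoot a ∧ a - a₀ ∈ I := by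
  let f' := derivative f
  let c : ℕ → R := fun n => Nat.recOn n a₀ fun _ b => b - f.eval b * Ring.inverse (f'.eval b)
  have hc : ∀ n, c (n + 1) = c n - f.eval (c n) * Ring.inverse (f'.eval (c n)) := by
    intro n
    simp only [c]
  have hc_mod : ∀ n, c n ≡ a₀ [SMOD I] := by
    intro n
    induction n with
    | zero => rfl
    | succ n ih => ?_
    rw [hc, sub_eq_add_neg, ← add_zero a₀]
    refine ih.add ?_
    rw [SModEq.zero, Ideal.neg_mem_iff]
    refine I.mul_mem_right _ ?_
    rw [← SModEq.zero] at h₁ ⊢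
    exact (ih.eval f).trans h₁
  have hf'c : ∀ n, IsUnit (f'.eval (c n)) := by
    intro n
    have := isLocalHom_of_le_jacobson_bot I (IsAdicComplete.le_jacobson_bot I)
    apply IsUnit.of_map (Ideal.Quotient.mk I)
    convert! h₂ using 1
    exact SModEq.def.mp ((hc_mod n).eval _)
  have hfcI : ∀ n, f.eval (c n) ∈ I ^ (n + 1) := by
    intro n
    induction n with
    | zero => simpa only [Nat.rec_zero, zero_add, pow_one] using! h₁
    | succ n ih => ?_
    rw [← taylor_eval_sub (c n), hc, sub_eq_add_neg, sub_eq_add_neg,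
      add_neg_cancel_comm]
    rw [eval_eq_sum, sum_over_range' _ _ _ (lt_add_of_pos_right _ zero_lt_two), ←
      Finset.sum_range_add_sum_Ico _ (Nat.le_add_left _ _)]
    swap
    · intro i
      rw [zero_mul]
    refine Ideal.add_mem _ ?_ ?_
    · rw [← one_add_one_eq_two, Finset.sum_range_succ, Finset.range_one, Finset.sum_singleton,
        taylor_coeff_zero, taylor_coeff_one, pow_zero, pow_one, mul_one, mul_neg,
        mul_left_comm, Ring.mul_inverse_cancel _ (hf'c n), mul_one, add_neg_cancel]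
      exact Ideal.zero_mem _
    · refine Submodule.sum_mem _ ?_
      simp only [Finset.mem_Ico]
      rintro i ⟨h2i, _⟩
      have aux : n + 2 ≤ i * (n + 1) := by trans 2 * (n + 1) <;> nlinarith only [h2i]
      refine Ideal.mul_mem_left _ _ (Ideal.pow_le_pow_right aux ?_)
      rw [pow_mul']
      exact Ideal.pow_mem_pow ((Ideal.neg_mem_iff _).2 <| Ideal.mul_mem_right _ _ ih) _
  have aux : ∀ m n, m ≤ n → c m ≡ c n [SMOD (I ^ m • ⊤ : Ideal R)] := by
    intro m n hmn
    rw [← Ideal.one_eq_top, Ideal.smul_eq_mul, mul_one]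
    obtain ⟨k, rfl⟩ := Nat.exists_eq_add_of_le hmn
    clear hmn
    induction k with
    | zero => rw [add_zero]
    | succ k ih => ?_
    rw [← add_assoc, hc, ← add_zero (c m), sub_eq_add_neg]
    refine ih.add ?_
    symm
    rw [SModEq.zero, Ideal.neg_mem_iff]
    refine Ideal.mul_mem_right _ _ (Ideal.pow_le_pow_right ?_ (hfcI _))
    rw [add_assoc]
    exact le_self_add
  obtain ⟨a, ha⟩ := IsPrecomplete.prec' c (aux _ _)
  refine ⟨a, ?_, ?_⟩
  · show f.IsRoot a
    suffices ∀ n, f.eval a ≡ 0 [SMOD (I ^ n • ⊤ : Ideal R)] by exact IsHausdorff.haus' _ this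
    intro n
    specialize ha n
    rw [← Ideal.one_eq_top, Ideal.smul_eq_mul, mul_one] at ha ⊢
    refine (ha.symm.eval f).trans ?_
    rw [SModEq.zero]
    exact Ideal.pow_le_pow_right le_self_add (hfcI _)
  · show a - a₀ ∈ I
    specialize ha (0 + 1)
    rw [hc, pow_one, ← Ideal.one_eq_top, Ideal.smul_eq_mul, mul_one, sub_eq_add_neg] at ha
    rw [← SModEq.sub_mem, ← add_zero a₀]
    refine ha.symm.trans (SModEq.rfl.add ?_)
    rw [SModEq.zero, Ideal.neg_mem_iff]
    exact Ideal.mul_mem_right _ _ h₁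

variable {O : Type} [CommRing O] [IsDomain O] [IsDiscreteValuationRing O]
  {π : O} {N : ℕ} {f G : O[X]} {c w : O} {m : ℕ}

theorem iter_comp {R : Type} [CommRing R] (f : R[X]) (c w : R) (l : ℕ) :
    derivative^[l] (f.comp (C c + C w * X)) = C (w ^ l) * (derivative^[l] f).comp (C c + C w * X) := by
  induction l with
  | zero => simp
  | succ l ih =>
    rw [Function.iterate_succ_apply', Function.iterate_succ_apply', ih, derivative_C_mul,
      derivative_comp]
    simp only [derivative_add, derivative_C, derivative_C_mul, derivative_X, zero_add, mul_one,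
      pow_succ, map_mul]
    ring

theorem coeff_comp (f : O[X]) (c w : O) (u : ℕ) :
    (f.comp (C c + C w * X)).coeff u = tay f c w u := by
  have : f.comp (C c + C w * X) = (taylor c f).comp (C w * X) := by
    rw [taylor_apply, comp_assoc]
    simp [add_comm]
  rw [this, comp_C_mul_X_coeff, tay]

theorem tay_big (h : f.natDegree ≤ N) (c w : O) {u : ℕ} (hu : N < u) : tay f c w u = 0 := by
  rw [tay, coeff_eq_zero_of_natDegree_lt (by rw [natDegree_taylor]; omega), zero_mul]

theorem exG (hπ : Irreducible π) (h : f.natDegree ≤ N)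
    (h1 : ∀ u ∈ Finset.range (N + 1), π ^ m ∣ tay f c w u)
    (h2 : ∃ u ∈ Finset.range (N + 1), ¬ π ^ (m + 1) ∣ tay f c w u) :
    ∃ G : O[X], f.comp (C c + C w * X) = C (π ^ m) * G ∧ G.natDegree ≤ N ∧
      G.map (residue O) ≠ 0 := by
  obtain ⟨G, hG⟩ : C (π ^ m) ∣ f.comp (C c + C w * X) := by
    rw [C_dvd_iff_dvd_coeff]
    intro u
    rw [coeff_comp]
    by_cases hu : N < u
    · rw [tay_big h c w hu]
      exact dvd_zero _
    · exact h1 u (Finset.mem_range.2 (by omega))
  have e : ∀ u, tay f c w u = π ^ m * G.coeff u := fun u => by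
    rw [← coeff_comp, hG, coeff_C_mul]
  refine ⟨G, hG, natDegree_le_iff_coeff_eq_zero.2 fun u hu => ?_, fun h0 => ?_⟩
  · have := e u
    rw [tay_big h c w hu] at this
    exact (mul_eq_zero.1 this.symm).resolve_left (pow_ne_zero m hπ.ne_zero)
  · obtain ⟨u, -, hu⟩ := h2
    have : residue O (G.coeff u) = 0 := by rw [← coeff_map, h0, coeff_zero]
    rw [e, pow_succ] at hu
    exact hu (mul_dvd_mul_left _ ((res_zero hπ).1 this))

theorem res_eval (g : O[X]) : residue O (g.eval 1) = (g.map (residue O)).eval 1 := by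
  rw [eval_one_map]

theorem core [IsAdicComplete (maximalIdeal O) O] (hπ : Irreducible π) (hN : Tame N O)
    (hw : w ≠ 0) (hG : f.comp (C c + C w * X) = C (π ^ m) * G) (hd : G.natDegree ≤ N)
    (h0 : G.map (residue O) ≠ 0) {l : ℕ} (hl : rootMultiplicity 1 (G.map (residue O)) = l + 1) :
    ∃ t, derivative^[l] f ≠ 0 ∧ Ball π c w t ∧ (derivative^[l] f).eval t = 0 := by
  have a1 : (derivative^[l] G).eval 1 ∈ maximalIdeal O := by
    rw [← residue_eq_zero_iff, res_eval, ← iterate_derivative_map]
    exact isRoot_iterate_derivative_of_lt_rootMultiplicity (by omega)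
  have lN : l + 1 ≤ N := by
    have b1 := natDegree_le_of_dvd (pow_rootMultiplicity_dvd (G.map (residue O)) 1) h0
    rw [hl, natDegree_pow, natDegree_X_sub_C, mul_one] at b1
    exact b1.trans (natDegree_map_le.trans hd)
  have a2 : residue O ((derivative (derivative^[l] G)).eval 1) ≠ 0 := by
    rw [← Function.iterate_succ_apply' derivative, res_eval, ← iterate_derivative_map,
      Nat.succ_eq_add_one, ← hl, eval_iterate_derivative_rootMultiplicity, nsmul_eq_mul]
    refine mul_ne_zero ?_ (eval_divByMonic_pow_rootMultiplicity_ne_zero _ h0)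
    rw [hl]
    exact ((hN.map (residue O)).fac lN).ne_zero
  obtain ⟨s, hs, hs1⟩ := hensel (maximalIdeal O) (derivative^[l] G) 1 a1
    (((residue_ne_zero_iff_isUnit _).1 a2).map _)
  have e := iter_comp f c w l
  rw [hG, iterate_derivative_C_mul] at e
  refine ⟨c + w * s, fun h => ?_, ?_, ?_⟩
  · rw [h, zero_comp, mul_zero, mul_eq_zero, C_eq_zero] at e
    rw [e.resolve_left (pow_ne_zero m hπ.ne_zero)] at a2
    simp at a2
  · rw [← residue_eq_zero_iff, res_zero hπ] at hs1
    have : c + w * s - c - w = w * (s - 1) := by ring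
    rw [Ball, this, pow_succ]
    exact mul_dvd_mul ((pow_dvd_iff hπ).2 (Or.inr le_rfl)) hs1
  · have e2 := congrArg (eval s) e
    rw [eval_mul, hs.eq_zero, mul_zero, eval_mul, eval_C, eval_comp] at e2
    simp only [eval_add, eval_mul, eval_C, eval_X] at e2
    exact (mul_eq_zero.1 e2.symm).resolve_left (pow_ne_zero l hw)

theorem ball_s (hπ : Irreducible π) (hw : w ≠ 0) {t : O} (h : Ball π c w t) :
    ∃ s, t = c + w * s ∧ residue O s = 1 := by
  obtain ⟨u, hu, h1, -⟩ := rv_spec hπ hw
  obtain ⟨k, hk⟩ := h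
  obtain ⟨v, hv⟩ := hu.exists_right_inv
  refine ⟨1 + π * (k * v), ?_, ?_⟩
  · have : w * (π * (k * v)) = π ^ (vv w + 1) * k := by
      calc w * (π * (k * v)) = π ^ vv w * u * (π * (k * v)) := by rw [← h1]
        _ = π ^ (vv w + 1) * k * (u * v) := by ring
        _ = _ := by rw [hv, mul_one]
    linear_combination hk - this
  · rw [map_add, map_one, (res_zero hπ).2 (dvd_mul_right _ _), add_zero]

theorem root_G (hπ : Irreducible π) (hG : f.comp (C c + C w * X) = C (π ^ m) * G) {s : O}
    (h : f.eval (c + w * s) = 0) : G.eval s = 0 := by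
  have e2 := congrArg (eval s) hG
  rw [eval_comp, eval_mul] at e2
  simp only [eval_add, eval_mul, eval_C, eval_X, h] at e2
  exact (mul_eq_zero.1 e2.symm).resolve_left (pow_ne_zero m hπ.ne_zero)

end LocA

theorem rowLoc : LocS := by
  intro O _ _ _ _ π N f c w hπ hN hf hw
  refine ⟨?_, ?_⟩
  · rintro ⟨m, h1, h2, h3⟩
    obtain ⟨G, hG, hd, h0⟩ := LocA.exG hπ hf h1 h2
    have e2 := congrArg (eval 1) hG
    rw [eval_comp, eval_mul] at e2
    simp only [eval_add, eval_mul, eval_C, eval_X, mul_one] at e2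
    rw [tay_sum hf, e2, pow_succ, mul_dvd_mul_iff_left (pow_ne_zero m hπ.ne_zero),
      ← res_zero hπ, LocA.res_eval] at h3
    have hp := (rootMultiplicity_pos h0).2 h3
    obtain ⟨t, ht⟩ := LocA.core hπ hN hw hG hd h0
      (l := rootMultiplicity 1 (G.map (residue O)) - 1) (by omega)
    exact ⟨_, t, ht⟩
  · intro f0 t t' bt bt' tt ft ft'
    rcases exists_min hπ (Finset.range (N + 1)) (tay f c w) with hz | ⟨u0, hu0, h1, h2⟩
    · refine absurd ?_ f0
      refine taylor_injective c ?_
      rw [map_zero]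
      ext u
      have : tay f c w u = 0 := by
        by_cases hu : N < u
        · exact LocA.tay_big hf c w hu
        · exact hz u (Finset.mem_range.2 (by omega))
      exact (mul_eq_zero.1 this).resolve_right (pow_ne_zero u hw)
    obtain ⟨G, hG, hd, h0⟩ := LocA.exG hπ hf h2 ⟨u0, hu0, by
      rw [pow_dvd_iff hπ]; push Not; exact ⟨h1, by omega⟩⟩
    obtain ⟨s, rfl, hs⟩ := LocA.ball_s hπ hw bt
    obtain ⟨s', rfl, hs'⟩ := LocA.ball_s hπ hw bt'
    have r1 := LocA.root_G hπ hG ft
    have r2 := LocA.root_G hπ hG ft'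
    obtain ⟨G1, e1⟩ := dvd_iff_isRoot.2 r1
    have r3 : G1.eval s' = 0 := by
      rw [e1, eval_mul, eval_sub, eval_X, eval_C, mul_eq_zero] at r2
      exact r2.resolve_left fun h => tt (by rw [sub_eq_zero.1 h])
    obtain ⟨G2, e2⟩ := dvd_iff_isRoot.2 r3
    have hp : 2 ≤ rootMultiplicity 1 (G.map (residue O)) := by
      rw [le_rootMultiplicity_iff h0]
      refine ⟨G2.map (residue O), ?_⟩
      rw [e1, e2]
      simp only [Polynomial.map_mul, Polynomial.map_sub, map_X, map_C, hs, hs']
      ring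
    obtain ⟨t, ht⟩ := LocA.core hπ hN hw hG hd h0
      (l := rootMultiplicity 1 (G.map (residue O)) - 1) (by omega)
    exact ⟨_, t, by omega, ht⟩

end Pool.Agent.MP_4f1c5b_al.H20
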