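import Pool.Agent.MP_4f1c5b_al.H20.Spec

/-!
The model of finite level.
-/

namespace Pool.Agent.MP_4f1c5b_al.H20

open Classical IsLocalRing Pool.Agent.MP_4f1c5b_al.H1

namespace ModA

theorem map_comb {O R : Type} [CommRing O] [CommRing R] (φ : O →+* R) {n D : ℕ} (a : Fin D → O)
    (b : Fin D → Matrix (Fin n) (Fin n) O) :
    (∑ i, a i • b i).map φ = ∑ i, φ (a i) • (b i).map φ := by
  ext r s
  simp [Matrix.sum_apply]

theorem br_mem {R M : Type} [CommRing R] [Ring M] [Algebra R M] {D : ℕ} {B : Fin D → M}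
    (p : Submodule R M) (h : ∀ i j, B i * B j - B j * B i ∈ p) (a a' : Fin D → R) :
    (∑ i, a i • B i) * (∑ i, a' i • B i) - (∑ i, a' i • B i) * (∑ i, a i • B i) ∈ p := by
  rw [Finset.sum_mul, Finset.mul_sum, ← Finset.sum_sub_distrib]
  refine p.sum_mem fun i _ => ?_
  rw [smul_mul_assoc, mul_smul_comm, ← smul_sub]
  refine p.smul_mem _ ?_
  rw [Finset.mul_sum, Finset.sum_mul, ← Finset.sum_sub_distrib]
  refine p.sum_mem fun j _ => ?_
  rw [smul_mul_assoc, mul_smul_comm, ← smul_sub]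
  exact p.smul_mem _ (h i j)

theorem map_ex' {O R : Type} [CommRing O] [CommRing R] (φ : O →+* R) {n : ℕ} (h : Tame n O)
    (x : Matrix (Fin n) (Fin n) O) : (ex O n x).map φ = ex R n (x.map φ) :=
  map_ex h φ φ.mapMatrix (fun a s => by
    ext i j
    simp) x

end ModA

open ModA in
theorem rowMod : ExS → ThS → GenS → ModS := by
  intro hE hT hG o O _ _ _ _ _ _ n D S π b c m hπ ht hL
  have := (hG O π m hπ).1
  let ι₀ := Fintype.linearCombination (Rm π m) fun i => (b i).map (rm π m)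
  have h0 : ∀ a : Fin D → O, ι₀ (fun i => rm π m (a i)) = (∑ i, a i • b i).map (rm π m) :=
    fun a => by rw [map_comb, Fintype.linearCombination_apply]
  have lift : ∀ a : Fin D → Rm π m, ∃ a' : Fin D → O, a = fun i => rm π m (a' i) := fun a => by
    choose a' h using fun i => Ideal.Quotient.mk_surjective (a i)
    exact ⟨a', funext fun i => (h i).symm⟩
  have inj : Function.Injective ι₀ := by
    refine (injective_iff_map_eq_zero _).2 fun a ha => ?_
    obtain ⟨a, rfl⟩ := lift a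
    rw [h0] at ha
    funext i
    refine Ideal.Quotient.eq_zero_iff_mem.2 (Ideal.mem_span_singleton.2
      (hL.pure a m (fun r s => ?_) i))
    exact Ideal.mem_span_singleton.1 (Ideal.Quotient.eq_zero_iff_mem.1
      (congrFun (congrFun ha r) s))
  have hx : ∀ a : Fin D → O, ∑ i, a i • b i ∈ mt_J O n 1 := fun a =>
    Submodule.sum_mem _ fun i _ => Submodule.smul_mem _ _ (hL.mem i)
  have lie : IsLie (LinearMap.range ι₀) := by
    constructor
    · rintro _ ⟨a, rfl⟩ r s hrs
      obtain ⟨a, rfl⟩ := lift a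
      rw [h0, Matrix.map_apply, hx a r s hrs, map_zero]
    · rintro _ ⟨a, rfl⟩ _ ⟨a', rfl⟩
      refine br_mem (B := fun i => (b i).map (rm π m)) (LinearMap.range ι₀)
        (fun i j => ⟨fun k => rm π m (c i j k), ?_⟩) a a'
      rw [h0, ← hL.br, Matrix.map_sub _ (map_sub _), Matrix.map_mul, Matrix.map_mul]
  obtain ⟨P, e, Ad, hP⟩ := hT (Rm π m) n _ (ht.map (rm π m)) lie
  have key : ∀ (a : Fin D → O) (g : GL (Fin n) O), g.1 = ex O n (∑ i, a i • b i) →
      Matrix.GeneralLinearGroup.map (rm π m) g = (e ⟨_, fun i => rm π m (a i), rfl⟩).1 := by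
    intro a g hg
    refine Units.ext ?_
    rw [hP.he]
    change g.1.map (rm π m) = ex _ n (ι₀ _)
    rw [hg, map_ex' _ ht, h0]
  refine ⟨_, P, e, Ad, LinearEquiv.ofInjective ι₀ inj,
    ((Matrix.GeneralLinearGroup.map (rm π m)).comp (grp S O).subtype).codRestrict P fun g => ?_,
    lie, hP, h0, fun _ => rfl, fun y => ?_⟩
  · obtain ⟨a, ha⟩ := (hL.grp g.1).1 g.2
    change Matrix.GeneralLinearGroup.map (rm π m) g.1 ∈ P
    rw [key a g.1 ha]
    exact Subtype.property _
  · obtain ⟨⟨_, a, rfl⟩, rfl⟩ := e.surjective y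
    obtain ⟨a, rfl⟩ := lift a
    have K := hE O _ n _ (fil_mat ht)
    have h1 := hx a
    have h2 := Submodule.neg_mem _ h1
    let g : GL (Fin n) O := ⟨ex O n (∑ i, a i • b i), ex O n (-∑ i, a i • b i),
      by rw [← K.add _ _ h1 h2 (Commute.refl _).neg_right, add_neg_cancel, K.zero],
      by rw [← K.add _ _ h2 h1 (Commute.refl _).neg_left, neg_add_cancel, K.zero]⟩
    exact ⟨⟨g, (hL.grp g).2 ⟨a, rfl⟩⟩, Subtype.ext (key a g rfl)⟩

end Pool.Agent.MP_4f1c5b_al.H20
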