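import Pool.Agent.MP_4f1c5b_al.H20.Spec

/-! The sizes of the coadjoint orbits. -/

namespace Pool.Agent.MP_4f1c5b_al.H20

open Classical Pool.Agent.MP_4f1c5b_al.H1

namespace OrbA

section Count

variable {Q A : Type} [Group Q] [AddCommGroup A] {e : A ≃ Q} {Ad : Q → A →+ A}

theorem ad_mul (k : KD e Ad) (g g' : Q) (x : A) : Ad (g * g') x = Ad g (Ad g' x) :=
  e.injective (by rw [k.conj, k.conj, k.conj]; group)

theorem ad_one (k : KD e Ad) (x : A) : Ad 1 x = x := e.injective (by rw [k.conj]; group)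

theorem ne_zero (ω : AddChar A ℂ) (x : A) : ω x ≠ 0 := fun h => by
  have := ω.map_add_eq_mul x (-x)
  rw [h, add_neg_cancel, ω.map_zero_eq_one, zero_mul] at this
  exact one_ne_zero this

theorem count (k : KD e Ad) (A' : AddSubgroup A) (hA : ∀ g, ∀ x ∈ A', Ad g x ∈ A')
    (ω : AddChar A ℂ) :
    (cls Ad A' ω).ncard * Nat.card {g : Q // ∀ x ∈ A', ω (Ad g x) = ω x} =
      Nat.card Q * Nat.card {l : AddChar A ℂ // ∀ x ∈ A', l x = 1} := by
  rw [← Nat.card_coe_set_eq, ← Nat.card_prod, ← Nat.card_prod]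
  have hc : ∀ w : cls Ad A' ω, ∃ g, ∀ x ∈ A', w.1 x = ω (Ad g x) := fun w => w.2
  choose c hc using hc
  let T := {z : Q × AddChar A ℂ // ∀ x ∈ A', z.2 x = ω (Ad z.1 x)}
  let f : cls Ad A' ω × {g : Q // ∀ x ∈ A', ω (Ad g x) = ω x} → T := fun z =>
    ⟨(z.2.1 * c z.1, z.1.1), fun x hx => by
      rw [ad_mul k, z.2.2 _ (hA _ x hx)]; exact hc z.1 x hx⟩
  let f' : Q × {l : AddChar A ℂ // ∀ x ∈ A', l x = 1} → T := fun z =>
    ⟨(z.1, z.2.1 * ω.compAddMonoidHom (Ad z.1)), fun x hx => by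
      rw [AddChar.mul_apply, z.2.2 x hx, one_mul]; rfl⟩
  have hf : Function.Bijective f := by
    constructor
    · rintro ⟨w, g⟩ ⟨w', g'⟩ h
      have h1 := Prod.mk.inj (congrArg Subtype.val h)
      obtain rfl : w = w' := Subtype.ext h1.2
      obtain rfl : g = g' := Subtype.ext (mul_right_cancel h1.1)
      rfl
    · rintro ⟨⟨g, w⟩, h⟩
      refine ⟨(⟨w, g, h⟩, ⟨g * (c ⟨w, g, h⟩)⁻¹, fun x hx => ?_⟩), Subtype.ext ?_⟩
      · have h1 := hc ⟨w, g, h⟩ _ (hA (c ⟨w, g, h⟩)⁻¹ x hx)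
        rw [← ad_mul k, mul_inv_cancel, ad_one k] at h1
        rw [ad_mul k, ← h1]
        exact (h _ (hA _ x hx)).symm
      · simp [f]
  have hf' : Function.Bijective f' := by
    constructor
    · rintro ⟨g, l⟩ ⟨g', l'⟩ h
      have h1 := Prod.mk.inj (congrArg Subtype.val h)
      obtain rfl : g = g' := h1.1
      obtain rfl : l = l' := Subtype.ext (mul_right_cancel h1.2)
      rfl
    · rintro ⟨⟨g, w⟩, h⟩
      refine ⟨(g, ⟨w / ω.compAddMonoidHom (Ad g), fun x hx => ?_⟩), Subtype.ext ?_⟩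
      · rw [AddChar.div_apply', h x hx]
        exact div_self (ne_zero ω _)
      · simp [f']
  rw [Nat.card_eq_of_bijective f hf, Nat.card_eq_of_bijective f' hf']

end Count

section Lie

variable {R : Type} [CommRing R] {n : ℕ} {p : Submodule R (Matrix (Fin n) (Fin n) R)}
  (h : IsLie p)

/-- The adjoint map. -/
def ad (y : p) : Module.End R p where
  toFun := h.b y
  map_add' x x' := Subtype.ext (by
    simp only [IsLie.b, Submodule.coe_add]
    noncomm_ring)
  map_smul' c x := Subtype.ext (by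
    simp only [IsLie.b, Submodule.coe_smul, RingHom.id_apply, mul_smul_comm, smul_mul_assoc,
      smul_sub])

theorem ad_pow (y x : p) (k : ℕ) :
    ((ad h y ^ k) x).1 = (fun z => y.1 * z - z * y.1)^[k] x.1 := by
  induction k with
  | zero => rfl
  | succ k ih => rw [pow_succ', Function.iterate_succ_apply', ← ih]; rfl

/-- The series `(exp (ad y) - 1) / ad y`. -/
noncomputable def ph (N : ℕ) (y : p) : Module.End R p :=
  ∑ k ∈ Finset.range N, Ring.inverse ((k + 1).factorial : R) • ad h y ^ k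

theorem ad_mem (y : p) {x : p} {i : ℕ} (hx : x.1 ∈ mt_J R n i) :
    (ad h y x).1 ∈ mt_J R n (i + 1) :=
  sub_mem (mt_J_mul (h.le y.2) hx (by omega)) (mt_J_mul hx (h.le y.2) le_rfl)

theorem pow_mem (y : p) {x : p} {i : ℕ} (hx : x.1 ∈ mt_J R n i) (k : ℕ) :
    ((ad h y ^ k) x).1 ∈ mt_J R n i := by
  induction k with
  | zero => exact hx
  | succ k ih => rw [pow_succ']; exact mt_J_mono (ad_mem h y ih) (Nat.le_succ i)

theorem ph_inj (y : p) : Function.Injective (ph h n y) := by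
  refine (injective_iff_map_eq_zero _).2 fun x hx => Subtype.ext ?_
  rcases Nat.eq_zero_or_pos n with h0 | h0
  · exact mt_J_top (h.le x.2) (by omega)
  obtain ⟨m, hm⟩ : ∃ m, n = m + 1 := ⟨n - 1, by omega⟩
  have h1 : ph h (m + 1) y x = 0 := by rw [← hm]; exact hx
  have h2 : x = -∑ k ∈ Finset.range m,
      Ring.inverse ((k + 1 + 1).factorial : R) • ad h y ((ad h y ^ k) x) := by
    rw [eq_neg_iff_add_eq_zero, add_comm, ← h1, ph, Finset.sum_range_succ']
    simp [pow_succ']
  have key : ∀ i, x.1 ∈ mt_J R n i := by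
    intro i
    induction i with
    | zero => exact mt_J_mono (h.le x.2) (Nat.zero_le 1)
    | succ i ih =>
      rw [h2, Submodule.coe_neg, Submodule.coe_sum]
      exact neg_mem (sum_mem fun k _ => Submodule.smul_mem _ _ (ad_mem h y (pow_mem h y ih k)))
  exact mt_J_top (key n) le_rfl

theorem b_mem (x y : p) : h.b x y ∈ h.der := AddSubgroup.subset_closure ⟨x, y, rfl⟩

theorem smul_mem (c : R) {x : p} (hx : x ∈ h.der) : c • x ∈ h.der := by
  induction hx using AddSubgroup.closure_induction with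
  | mem z hz =>
    obtain ⟨a, b, rfl⟩ := hz
    exact (map_smul (ad h a) c b) ▸ b_mem h a (c • b)
  | zero => rw [smul_zero]; exact zero_mem _
  | add a b _ _ ha hb => rw [smul_add]; exact add_mem ha hb
  | neg a _ ha => rw [smul_neg]; exact neg_mem ha

theorem ph_mem (N : ℕ) (y : p) {x : p} (hx : x ∈ h.der) : ph h N y x ∈ h.der := by
  rw [ph, LinearMap.sum_apply]
  refine sum_mem fun k _ => smul_mem h _ ?_
  cases k with
  | zero => exact hx
  | succ k => rw [pow_succ']; exact b_mem h _ _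

theorem triv (l : AddChar p ℂ) : (∀ x ∈ h.der, l x = 1) ↔ ∀ x y, l (h.b x y) = 1 := by
  refine ⟨fun H x y => H _ (b_mem h x y), fun H x hx => ?_⟩
  induction hx using AddSubgroup.closure_induction with
  | mem z hz => obtain ⟨a, b, rfl⟩ := hz; exact H a b
  | zero => exact l.map_zero_eq_one
  | add a b _ _ ha hb => rw [l.map_add_eq_mul, ha, hb, one_mul]
  | neg a _ ha => rw [l.map_neg_eq_inv, ha, inv_one]

variable {P : Subgroup (GL (Fin n) R)} {e : p ≃ P} {Ad : P → p →+ p}

theorem ad_exp (K : ExKit R (Matrix (Fin n) (Fin n) R) n (mt_J R n)) (E : IsExp p P e Ad)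
    (y x : p) : Ad (e y) x = x + h.b y (ph h n y x) := by
  apply Subtype.ext
  rw [E.hAd, ← E.kd.neg, E.he, E.he, Submodule.coe_neg, K.ad _ _ (h.le x.2) (h.le y.2),
    Finset.sum_range_succ', add_comm]
  change _ = x.1 + (ad h y (ph h n y x)).1
  rw [ph, LinearMap.sum_apply, map_sum, Submodule.coe_sum]
  congr 1
  · simp
  · refine Finset.sum_congr rfl fun k _ => ?_
    rw [LinearMap.smul_apply, map_smul, Submodule.coe_smul, ← ad_pow h, pow_succ']
    rfl

theorem stab [Finite R] (K : ExKit R (Matrix (Fin n) (Fin n) R) n (mt_J R n)) (E : IsExp p P e Ad)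
    (S : AddSubgroup p) (y : p) (hS : ∀ x ∈ S, ph h n y x ∈ S) (ω : AddChar p ℂ) :
    (∀ x ∈ S, ω (h.b y x) = 1) ↔ ∀ x ∈ S, ω (Ad (e y) x) = ω x := by
  constructor
  · intro H x hx
    rw [ad_exp h K E, ω.map_add_eq_mul, H _ (hS x hx), mul_one]
  · intro H x hx
    let f : S → S := fun z => ⟨ph h n y z.1, hS _ z.2⟩
    have hf : Function.Injective f := fun z z' hz =>
      Subtype.ext (ph_inj h y (congrArg Subtype.val hz))
    obtain ⟨z, hz⟩ := Finite.surjective_of_injective hf ⟨x, hx⟩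
    have h1 := H z.1 z.2
    rw [ad_exp h K E, ω.map_add_eq_mul, show ph h n y z.1 = x from congrArg Subtype.val hz] at h1
    exact mul_left_cancel₀ (ne_zero ω z.1) (h1.trans (mul_one _).symm)

end Lie

end OrbA

open OrbA in
theorem rowOrb : ExS → OrbS := by
  intro hE R _ _ n p h P e Ad hT E
  have K := hE R _ n _ (fil_mat hT)
  have hd : ∀ g, ∀ x ∈ h.der, Ad g x ∈ h.der := fun g x hx => by
    obtain ⟨y, rfl⟩ := e.surjective g
    rw [ad_exp h K E]
    exact add_mem hx (b_mem h _ _)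
  have ht := fun y => stab h K E ⊤ y fun _ _ => trivial
  refine ⟨⟨hd, fun ω => ?_⟩, fun ω => ?_, fun ω => ?_⟩
  · rw [triv]
    constructor
    · exact fun H y x => (ht y ω).2 (fun x _ => H _ x) x trivial
    · intro H g x
      obtain ⟨y, rfl⟩ := e.surjective g
      exact (ht y ω).1 (fun x _ => H y x) x trivial
  · have h1 := count E.kd ⊤ (fun _ _ _ => trivial) ω
    have h2 : cls Ad ⊤ ω = orb Ad ω := by
      ext w
      simp [cls, orb]
    have h3 : Nat.card {l : AddChar p ℂ // ∀ x ∈ (⊤ : AddSubgroup p), l x = 1} = 1 :=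
      Nat.card_eq_one_iff_exists.2 ⟨⟨1, fun _ _ => rfl⟩, fun l =>
        Subtype.ext (DFunLike.ext _ _ fun x => l.2 x trivial)⟩
    have h4 : h.rad ω = Nat.card {g : P // ∀ x ∈ (⊤ : AddSubgroup p), ω (Ad g x) = ω x} :=
      Nat.card_congr (e.subtypeEquiv fun y => by rw [← ht y ω]; simp)
    rw [h4, ← h2, h1, h3, mul_one, Nat.card_congr e]
  · have h1 := count E.kd h.der hd ω
    have h3 : h.kap = Nat.card {l : AddChar p ℂ // ∀ x ∈ h.der, l x = 1} :=
      Nat.card_congr (Equiv.subtypeEquivRight fun l => (triv h l).symm)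
    have h4 : h.rad2 ω = Nat.card {g : P // ∀ x ∈ h.der, ω (Ad g x) = ω x} :=
      Nat.card_congr (e.subtypeEquiv fun y => by
        rw [← stab h K E h.der y (fun _ hx => ph_mem h n y hx) ω]
        exact (triv h (ω.compAddMonoidHom (ad h y).toAddMonoidHom)).symm)
    rw [h4, h3, h1, Nat.card_congr e]

end Pool.Agent.MP_4f1c5b_al.H20
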