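import Pool.Agent.MP_4f1c5b_al.H20.Spec

/-!
Partition of `O / π ^ m` into the classes of the centres and the balls free of centres.
-/

namespace Pool.Agent.MP_4f1c5b_al.H20

open Classical IsLocalRing

namespace PartA

variable {O : Type} [CommRing O]

theorem count (π : O) {m k q : ℕ} [Fintype (Rm π m)] [Finite (Rm π k)] (hk : k ≤ m) (hq : q ≠ 0)
    (h1 : Nat.card (Rm π m) = q ^ m) (h2 : Nat.card (Rm π k) = q ^ k) (z : O) (r : ℚ) :
    ∑ u : Rm π m, (if π ^ k ∣ Quotient.out u - z then r else 0) = (q : ℚ) ^ (m - k) * r := by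
  have := Fintype.ofFinite (Rm π k)
  have hle : Ideal.span {π ^ m} ≤ Ideal.span {π ^ k} :=
    Ideal.span_singleton_le_span_singleton.2 (pow_dvd_pow π hk)
  let φ : Rm π m →+* Rm π k := Ideal.Quotient.factor hle
  have hs : Function.Surjective φ := Ideal.Quotient.factor_surjective hle
  have e : ∀ u : Rm π m, π ^ k ∣ Quotient.out u - z ↔ φ u = rm π k z := fun u => by
    conv_rhs => rw [← Ideal.Quotient.mk_out u]
    rw [show φ (Ideal.Quotient.mk _ (Quotient.out u)) = rm π k (Quotient.out u) from rfl,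
      Ideal.Quotient.eq, Ideal.mem_span_singleton]
  simp only [e]
  rw [← Finset.sum_filter, Finset.sum_const, nsmul_eq_mul]
  congr 1
  have h3 : (Finset.univ : Finset (Rm π m)).card =
      ∑ y : Rm π k, (Finset.univ.filter fun u => φ u = y).card :=
    Finset.card_eq_sum_card_fiberwise fun _ _ => Finset.mem_univ _
  rw [Finset.sum_congr rfl fun y _ => AddMonoidHom.card_fiber_eq_of_mem_range φ (hs y)
    (hs (rm π k z)), Finset.sum_const, Finset.card_univ, Finset.card_univ, smul_eq_mul,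
    ← Nat.card_eq_fintype_card, ← Nat.card_eq_fintype_card, h1, h2] at h3
  have h4 : q ^ m = q ^ k * q ^ (m - k) := by rw [← pow_add, Nat.add_sub_cancel' hk]
  rw [h4] at h3
  rw [← Nat.eq_of_mul_eq_mul_left (Nat.pos_of_ne_zero (pow_ne_zero k hq)) h3]
  push_cast
  rfl

theorem least {s : ℕ} {P : Fin s → Prop} (h : ∃ i, P i) : ∃ i, P i ∧ ∀ j, j < i → ¬ P j := by
  obtain ⟨i, h1, h2⟩ := (wellFounded_lt (α := Fin s)).has_min {i | P i} h
  exact ⟨i, h1, fun j hj hP => h2 j hP hj⟩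

theorem uniq {s : ℕ} {p t : O} {c : Fin s → O} {i i0 : Fin s} (h1 : p ∣ t - c i0)
    (h2 : ∀ j, j < i0 → ¬ p ∣ t - c j) (h3 : p ∣ t - c i) (h4 : ∀ j, j < i → ¬ p ∣ c j - c i) :
    i = i0 := by
  rcases lt_trichotomy i i0 with h | h | h
  · exact absurd h3 (h2 i h)
  · exact h
  · exact absurd (by simpa using dvd_sub h3 h1) (h4 i0 h)

variable [IsDomain O] [IsDiscreteValuationRing O] [Fintype (ResidueField O)]

theorem point {π : O} {s : ℕ} (m : ℕ) {c : Fin s → O} {l : ResidueField O → O} {h : O → ℚ}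
    (hπ : Irreducible π) (hc : ∃ i, c i = 0) (hl : ∀ ξ, residue O (l ξ) = ξ)
    (h1 : ∀ t t', π ^ m ∣ t - t' → h t = h t')
    (h2 : ∀ i a ξ, ξ ≠ 0 → Free π c i a (l ξ) → ∀ t, π ^ (a + 1) ∣ t - c i - π ^ a * l ξ →
      h t = h (c i + π ^ a * l ξ)) (t : O) :
    h t = ∑ i, (if π ^ m ∣ t - c i then
        (if ∀ j, j < i → ¬ π ^ m ∣ c j - c i then h (c i) else 0) else 0) +
      ∑ i, ∑ ξ ∈ Finset.univ.erase (0 : ResidueField O), ∑ a ∈ Finset.range m,
        if π ^ (a + 1) ∣ t - (c i + π ^ a * l ξ) then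
          (if Free π c i a (l ξ) then h (c i + π ^ a * l ξ) else 0) else 0 := by
  by_cases hA : ∃ i, π ^ m ∣ t - c i
  · obtain ⟨i0, a1, a2⟩ := least hA
    rw [Finset.sum_eq_single i0, if_pos a1, if_pos, Finset.sum_eq_zero, add_zero]
    · exact h1 _ _ a1
    · refine fun i _ => Finset.sum_eq_zero fun ξ _ => Finset.sum_eq_zero fun a ha => ?_
      split_ifs with b1 b2
      · have b3 := dvd_sub b1 ((pow_dvd_pow π (Finset.mem_range.1 ha)).trans a1)
        exact absurd (by convert b3 using 1; ring) (b2.1 i0)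
      · rfl
      · rfl
    · exact fun j hj b => a2 j hj (by simpa using dvd_sub a1 b)
    · intro i _ hi
      split_ifs with b1 b2
      · exact absurd (uniq a1 a2 b1 b2) hi
      · rfl
      · rfl
    · exact fun b => absurd (Finset.mem_univ _) b
  have hP : ∃ a, ¬ ∃ j, π ^ (a + 1) ∣ t - c j := ⟨m, fun ⟨j, hj⟩ =>
    hA ⟨j, (pow_dvd_pow π (Nat.le_succ m)).trans hj⟩⟩
  obtain ⟨a0, n1, n2⟩ : ∃ a0, (¬ ∃ j, π ^ (a0 + 1) ∣ t - c j) ∧ ∃ j, π ^ a0 ∣ t - c j := by
    refine ⟨Nat.find hP, Nat.find_spec hP, ?_⟩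
    rcases e : Nat.find hP with _ | k
    · obtain ⟨i, -⟩ := hc
      exact ⟨i, by simp⟩
    · exact not_not.1 (Nat.find_min hP (m := k) (by omega))
  obtain ⟨i0, a1, a2⟩ := least n2
  have ha0 : a0 < m := not_le.1 fun b => hA ⟨i0, (pow_dvd_pow π b).trans a1⟩
  obtain ⟨u, hu⟩ := id a1
  have key : ∀ ξ, π ^ (a0 + 1) ∣ t - (c i0 + π ^ a0 * l ξ) ↔ ξ = residue O u := fun ξ => by
    rw [show t - (c i0 + π ^ a0 * l ξ) = π ^ a0 * (u - l ξ) by linear_combination hu, pow_succ,
      mul_dvd_mul_iff_left (pow_ne_zero _ hπ.ne_zero), ← res_zero hπ, map_sub, hl, sub_eq_zero,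
      eq_comm]
  have hξ : residue O u ≠ 0 := fun b => n1 ⟨i0, by
    rw [hu, pow_succ]; exact mul_dvd_mul_left _ ((res_zero hπ).1 b)⟩
  have b1 := (key _).2 rfl
  have b2 : Free π c i0 a0 (l (residue O u)) :=
    ⟨fun j b => n1 ⟨j, by convert dvd_sub b1 b using 1; ring⟩,
      fun j hj b => a2 j hj (by simpa using dvd_sub a1 b)⟩
  have un : ∀ i ξ a, π ^ (a + 1) ∣ t - (c i + π ^ a * l ξ) → Free π c i a (l ξ) →
      a = a0 ∧ i = i0 := fun i ξ a d1 d2 => by
    have d3 : π ^ a ∣ t - c i := by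
      convert dvd_add ((pow_dvd_pow π (Nat.le_succ a)).trans d1) (dvd_mul_right _ (l ξ)) using 1
      ring
    have d4 : a = a0 := by
      rcases lt_trichotomy a a0 with b | b | b
      · exact absurd (by convert dvd_sub d1 ((pow_dvd_pow π b).trans a1) using 1; ring) (d2.1 i0)
      · exact b
      · exact absurd ⟨i, (pow_dvd_pow π b).trans d3⟩ n1
    subst d4
    exact ⟨rfl, uniq a1 a2 d3 d2.2⟩
  rw [Finset.sum_eq_zero fun i _ => if_neg fun b => hA ⟨i, b⟩, zero_add, Finset.sum_eq_single i0,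
    Finset.sum_eq_single (residue O u), Finset.sum_eq_single a0, if_pos b1, if_pos b2]
  · exact h2 _ _ _ hξ b2 t (by convert b1 using 1; ring)
  · intro a _ ha
    split_ifs with d1 d2
    · exact absurd (un _ _ _ d1 d2).1 ha
    · rfl
    · rfl
  · exact fun b => absurd (Finset.mem_range.2 ha0) b
  · refine fun ξ _ hξ' => Finset.sum_eq_zero fun a _ => ?_
    split_ifs with d1 d2
    · obtain ⟨rfl, -⟩ := un _ _ _ d1 d2
      exact absurd ((key _).1 d1) hξ'
    · rfl
    · rfl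
  · exact fun b => absurd (Finset.mem_erase.2 ⟨hξ, Finset.mem_univ _⟩) b
  · refine fun i _ hi => Finset.sum_eq_zero fun ξ _ => Finset.sum_eq_zero fun a _ => ?_
    split_ifs with d1 d2
    · exact absurd (un _ _ _ d1 d2).2 hi
    · rfl
    · rfl
  · exact fun b => absurd (Finset.mem_univ _) b

end PartA

theorem rowPart : GenS → PartS := by
  intro hG O _ _ _ _ π s m c l h hπ hc hl h1 h2
  have hq : Nat.card (ResidueField O) ≠ 0 := Nat.card_pos.ne'
  obtain ⟨f1, g1, -⟩ := hG O π m hπ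
  have := Fintype.ofFinite (Rm π m)
  rw [sm1, finsum_eq_sum_of_fintype]
  refine (Finset.sum_congr rfl fun (u : Rm π m) _ =>
    PartA.point m hπ hc hl h1 h2 (Quotient.out u)).trans ?_
  rw [Finset.sum_add_distrib, Finset.sum_comm]
  congr 1
  · refine Finset.sum_congr rfl fun i _ => ?_
    rw [PartA.count π le_rfl hq g1 g1, Nat.sub_self, pow_zero, one_mul]
  · rw [Finset.sum_comm]
    refine Finset.sum_congr rfl fun i _ => ?_
    rw [Finset.sum_comm]
    refine Finset.sum_congr rfl fun ξ _ => ?_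
    rw [Finset.sum_comm]
    refine Finset.sum_congr rfl fun a ha => ?_
    obtain ⟨f2, g2, -⟩ := hG O π (a + 1) hπ
    rw [PartA.count π (Finset.mem_range.1 ha) hq g1 g2, Nat.sub_sub]
    split_ifs <;> simp

end Pool.Agent.MP_4f1c5b_al.H20
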