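import Pool.Agent.MP_4f1c5b_al.H20.Spec

/-!
Normal form of the Presburger-exponential functions in the last variable.
-/

namespace Pool.Agent.MP_4f1c5b_al.H20

open Polynomial

namespace PnA

variable {X : Type} {B : Set (X → ℤ)} {q : ℚ}

theorem congr {f g : X → ℤ → ℚ} (h : N1 q B f) (e : ∀ x s, f x s = g x s) : N1 q B g := by
  have e' : f = g := by
    funext x s
    exact e x s
  exact e' ▸ h

theorem mul_atom (hq : q ≠ 0) {ψ : X → ℚ} (P : ℚ[X]) (l : ℤ) (hψ : PP q B ψ) {g : X → ℤ → ℚ}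
    (hg : N1 q B g) : N1 q B fun x s => ψ x * P.eval (s : ℚ) * q ^ (l * s) * g x s := by
  induction hg with
  | atom P' l' h =>
    refine congr (N1.atom (P * P') (l + l') (hψ.mul h)) fun x s => ?_
    rw [add_mul, zpow_add₀ hq, eval_mul]
    ring
  | add _ _ h1 h2 => exact congr (h1.add h2) fun x s => by ring
  | its hγ _ _ h1 h2 =>
    refine congr (N1.its hγ h1 h2) fun x s => ?_
    dsimp only
    split_ifs <;> rfl

theorem mul (hq : q ≠ 0) {f g : X → ℤ → ℚ} (hf : N1 q B f) (hg : N1 q B g) :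
    N1 q B fun x s => f x s * g x s := by
  induction hf with
  | atom P l h => exact mul_atom hq P l h hg
  | add _ _ h1 h2 => exact congr (h1.add h2) fun x s => by ring
  | its hγ _ _ h1 h2 =>
    refine congr (N1.its hγ h1 h2) fun x s => ?_
    dsimp only
    split_ifs <;> rfl

theorem ofPP {ψ : X → ℚ} (hψ : PP q B ψ) : N1 q B fun x _ => ψ x :=
  congr (N1.atom 1 0 hψ) fun x s => by simp

theorem itx (hq : q ≠ 0) {γ : X → ℤ} {f g : X → ℤ → ℚ} (hγ : PA B γ) (hf : N1 q B f)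
    (hg : N1 q B g) : N1 q B fun x s => if 0 ≤ γ x then f x s else g x s := by
  have hd : DP B fun x => 0 ≤ γ x := ⟨γ, hγ, fun _ => Iff.rfl⟩
  have h1 : PP q B fun x => if 0 ≤ γ x then (1 : ℚ) else 0 := hd.ppite (PP.const 1) (PP.const 0)
  have h2 : PP q B fun x => if 0 ≤ γ x then (0 : ℚ) else 1 := hd.ppite (PP.const 0) (PP.const 1)
  refine congr ((mul hq (ofPP h1) hf).add (mul hq (ofPP h2) hg)) fun x s => ?_
  by_cases h : 0 ≤ γ x <;> simp [h]

theorem rep {f : X → ℤ → ℚ} (hf : N1 q B f) {k : ℕ} (hk : 0 < k) :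
    N1 q B fun x s => f x (k * s) := by
  induction hf with
  | atom P l h =>
    refine congr (N1.atom (P.comp (C (k : ℚ) * Polynomial.X)) (l * k) h) fun x s => ?_
    simp only [eval_comp, eval_mul, eval_C, eval_X, Int.cast_mul, Int.cast_natCast, mul_assoc]
  | add _ _ h1 h2 => exact h1.add h2
  | @its γ f g hγ _ _ h1 h2 =>
    refine congr (N1.its (hγ.neg.div k).neg h1 h2) fun x s => ?_
    have hk' : (0 : ℤ) < k := by exact_mod_cast hk
    have e : -(-γ x / (k : ℤ)) ≤ s ↔ γ x ≤ k * s := by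
      rw [neg_le, Int.le_ediv_iff_mul_le hk']
      constructor <;> intro h <;> linarith
    simp only [e]

theorem cast (hq : q ≠ 0) {a : X → ℤ → ℤ} (ha : T1 B a) : N1 q B fun x s => (a x s : ℚ) := by
  induction ha with
  | leaf l h =>
    refine congr ((ofPP (PP.pa h)).add (N1.atom Polynomial.X 0 (PP.const (l : ℚ)))) fun x s => ?_
    simp
  | itx hγ _ _ h1 h2 =>
    refine congr (itx hq hγ h1 h2) fun x s => ?_
    dsimp only
    split_ifs <;> rfl
  | its hγ _ _ h1 h2 =>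
    refine congr (N1.its hγ h1 h2) fun x s => ?_
    dsimp only
    split_ifs <;> rfl

theorem pow (hq : q ≠ 0) {a : X → ℤ → ℤ} (ha : T1 B a) : N1 q B fun x s => q ^ a x s := by
  induction ha with
  | leaf l h =>
    refine congr (N1.atom 1 l (PP.pow h)) fun x s => ?_
    rw [zpow_add₀ hq, eval_one, mul_one]
  | itx hγ _ _ h1 h2 =>
    refine congr (itx hq hγ h1 h2) fun x s => ?_
    dsimp only
    split_ifs <;> rfl
  | its hγ _ _ h1 h2 =>
    refine congr (N1.its hγ h1 h2) fun x s => ?_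
    dsimp only
    split_ifs <;> rfl

theorem common {Φ Ψ : X × ℤ → ℚ}
    (h1 : ∃ n : ℕ, 0 < n ∧ ∀ r : ℤ, N1 q B fun x s => Φ (x, r + n * s))
    (h2 : ∃ n : ℕ, 0 < n ∧ ∀ r : ℤ, N1 q B fun x s => Ψ (x, r + n * s)) :
    ∃ n : ℕ, 0 < n ∧ ∀ r : ℤ, (N1 q B fun x s => Φ (x, r + n * s)) ∧
      N1 q B fun x s => Ψ (x, r + n * s) := by
  obtain ⟨n, hn, h1⟩ := h1
  obtain ⟨m, hm, h2⟩ := h2
  refine ⟨n * m, Nat.mul_pos hn hm, fun r => ⟨congr (rep (h1 r) hm) fun x s => ?_,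
    congr (rep (h2 r) hn) fun x s => ?_⟩⟩
  · rw [Nat.cast_mul, mul_assoc]
  · rw [Nat.cast_mul, mul_comm (n : ℤ) (m : ℤ), mul_assoc]

end PnA

theorem rowPn : PwS → PnS := by
  intro hw X q B Φ hq hΦ
  induction hΦ with
  | pa h =>
    obtain ⟨n, hn, h⟩ := hw X B _ h
    exact ⟨n, hn, fun r => PnA.cast hq (h r)⟩
  | pow h =>
    obtain ⟨n, hn, h⟩ := hw X B _ h
    exact ⟨n, hn, fun r => PnA.pow hq (h r)⟩
  | const c => exact ⟨1, one_pos, fun _ => PnA.ofPP (PP.const c)⟩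
  | add _ _ h1 h2 =>
    obtain ⟨n, hn, h⟩ := PnA.common h1 h2
    exact ⟨n, hn, fun r => (h r).1.add (h r).2⟩
  | mul _ _ h1 h2 =>
    obtain ⟨n, hn, h⟩ := PnA.common h1 h2
    exact ⟨n, hn, fun r => PnA.mul hq (h r).1 (h r).2⟩

end Pool.Agent.MP_4f1c5b_al.H20
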