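import Pool.Agent.MP_4f1c5b_al.H20.Spec

/-!
The orbit formula is a Presburger-exponential function of the level.
-/

namespace Pool.Agent.MP_4f1c5b_al.H20

open Classical IsLocalRing

namespace PpA

/-- Indices of minors. -/
abbrev Ix (ι : Type) (D : ℕ) : Type := Σ k : Fin (D + 1), (Fin k → ι) × (Fin k → Fin D)

/-- The minor with a given index. -/
noncomputable def mn {A ι : Type} [CommRing A] {D : ℕ} (M : Matrix ι (Fin D) A) (i : Ix ι D) : A :=
  (M.submatrix i.2.1 i.2.2).det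

theorem mn_map {A A' ι : Type} [CommRing A] [CommRing A'] {D : ℕ} (φ : A →+* A')
    (M : Matrix ι (Fin D) A) (i : Ix ι D) : φ (mn M i) = mn (M.map φ) i := by
  rw [mn, RingHom.map_det]
  rfl

theorem M0_map {A A' : Type} [CommRing A] [CommRing A'] {D : ℕ} (φ : A →+* A')
    (c : Fin D → Fin D → Fin D → A) : (M0 c).map φ = M0 fun i j k => φ (c i j k) := rfl

theorem M1_map {A A' : Type} [CommRing A] [CommRing A'] {D : ℕ} (φ : A →+* A')
    (c : Fin D → Fin D → Fin D → A) (y : Fin D → A) :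
    (M1 c y).map φ = M1 (fun i j k => φ (c i j k)) fun i => φ (y i) := by
  ext j i
  simp [M1]

theorem M2_map {A A' : Type} [CommRing A] [CommRing A'] {D : ℕ} (φ : A →+* A')
    (c : Fin D → Fin D → Fin D → A) (y : Fin D → A) :
    (M2 c y).map φ = M2 (fun i j k => φ (c i j k)) fun i => φ (y i) := by
  ext j i
  simp [M2]

theorem pa_e (im : ImS) {O : Type} [CommRing O] [IsDomain O] [IsDiscreteValuationRing O]
    [Finite (ResidueField O)] {π : O} (hπ : Irreducible π) {ι Z : Type} [Fintype ι] {D : ℕ}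
    {B : Set (Z → ℤ)} (M : Z → Matrix ι (Fin D) O) {m : Z → ℕ} (hm : PA B fun z => (m z : ℤ))
    (hM : ∀ i : Ix ι D, Df π B fun z => mn (M z) i) :
    ∃ e : Z → ℕ, PA B (fun z => (e z : ℤ)) ∧ ∀ z, kc ((M z).map (rm π (m z))) *
      Nat.card (ResidueField O) ^ e z = Nat.card (ResidueField O) ^ (m z * D) := by
  choose e h1 h2 h3 using fun z => im O π ι D (m z) (M z) hπ
  refine ⟨e, ?_, h1⟩
  have ha : ∀ i : Ix ι D, PA B fun z => ((i.1 : ℕ) * m z : ℤ) - vv (mn (M z) i) := fun i =>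
    (hm.nmul i.1).sub (hM i).1
  have h4 : ∀ z, ∃ i : Ix ι D, mn (M z) i ≠ 0 ∧
      (e z : ℤ) = ((i.1 : ℕ) * m z : ℤ) - vv (mn (M z) i) := fun z => by
    obtain ⟨k, hk, r, s, h⟩ := h3 z
    exact ⟨⟨⟨k, Nat.lt_succ_of_le hk⟩, r, s⟩, h⟩
  have h5 : ∀ z (i : Ix ι D), mn (M z) i ≠ 0 →
      ((i.1 : ℕ) * m z : ℤ) - vv (mn (M z) i) ≤ e z := fun z i => h2 z _ i.2.1 i.2.2
  refine PA.cover (ι := Ix ι D) (P := fun i z => mn (M z) i ≠ 0 ∧ ∀ j : Ix ι D, mn (M z) j ≠ 0 →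
      ((j.1 : ℕ) * m z : ℤ) - vv (mn (M z) j) ≤ ((i.1 : ℕ) * m z : ℤ) - vv (mn (M z) i))
    (fun i => ((hM i).zero hπ).not.and
      (DP.all fun j => ((hM j).zero hπ).not.imp (DP.le (ha j) (ha i)))) ha (fun z => ?_)
    fun i z h => ?_
  · obtain ⟨i, a1, a2⟩ := h4 z
    exact ⟨i, a1, fun j hj => a2 ▸ h5 z j hj⟩
  · obtain ⟨j, a1, a2⟩ := h4 z
    exact le_antisymm (a2.trans_le (h.2 j a1)) (h5 z i h.1)

theorem val {q j m D k0 k1 k2 e0 e1 e2 : ℕ} (hq : 1 < q) (h0 : k0 * q ^ e0 = q ^ (m * D))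
    (h1 : k1 * q ^ e1 = q ^ (m * D)) (h2 : k2 * q ^ e2 = q ^ (m * D)) :
    (if (e1 : ℤ) = (2 : ℕ) * (j : ℤ) then (q : ℚ) ^ ((e0 : ℤ) - e2 - (D : ℕ) * (m : ℤ)) else 0) =
      if (q ^ j) ^ 2 * k1 = (q ^ m) ^ D then (k2 : ℚ) / (((q ^ m : ℕ) : ℚ) ^ D * k0) else 0 := by
  have q0 : q ≠ 0 := by omega
  have k10 : k1 ≠ 0 := left_ne_zero_of_mul (h1 ▸ pow_ne_zero _ q0)
  have k00 : k0 ≠ 0 := left_ne_zero_of_mul (h0 ▸ pow_ne_zero _ q0)
  refine if_congr ?_ ?_ rfl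
  · rw [← pow_mul, ← pow_mul, ← h1, mul_comm k1, mul_left_inj' k10,
      (Nat.pow_right_injective hq).eq_iff]
    omega
  · have a0 : (k0 : ℚ) * q ^ e0 = k2 * q ^ e2 := by exact_mod_cast h0.trans h2.symm
    have q0' : (q : ℚ) ≠ 0 := by exact_mod_cast q0
    have k0' : (k0 : ℚ) ≠ 0 := by exact_mod_cast k00
    rw [zpow_sub₀ q0', zpow_sub₀ q0', ← Nat.cast_mul, zpow_natCast, zpow_natCast, zpow_natCast,
      Nat.cast_pow, ← pow_mul, mul_comm m D]
    field_simp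
    linarith

/-- The universal structure constants. -/
noncomputable def cU (D : ℕ) (i j k : Fin D) :
    MvPolynomial (Fin D) (MvPolynomial (Fin D × Fin D × Fin D) ℤ) :=
  MvPolynomial.C (MvPolynomial.X (i, j, k))

end PpA

open PpA in
theorem rowPp : SumDS → ImS → GenS → PpS := by
  intro sd im gen D
  obtain ⟨G, N, -, hG⟩ := sd D (MvPolynomial (Fin D × Fin D × Fin D) ℤ)
    (Set.range (mn (M1 (cU D) MvPolynomial.X)) ∪ Set.range (mn (M2 (cU D) MvPolynomial.X)))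
    ((Set.finite_range _).union (Set.finite_range _))
  refine ⟨N, fun O _ _ _ _ _ π c ν hπ hN => ?_⟩
  refine ⟨fun j => FF (fun i k l => rm π (2 * j.toNat + ν) (c i k l))
    (Nat.card (ResidueField O) ^ j.toNat), ?_, fun j => rfl⟩
  let pt : MvPolynomial (Fin D × Fin D × Fin D) ℤ →+* O :=
    MvPolynomial.eval₂Hom (Int.castRingHom O) fun x => c x.1 x.2.1 x.2.2
  have hm : ∀ {Z : Type} {B : Set (Z → ℤ)} {a : Z → ℤ}, PA B a →
      PA B fun z => ((2 * (a z).toNat + ν : ℕ) : ℤ) := fun ha =>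
    ((ha.toNat.nmul 2).add (PA.const ν)).congr fun _ => by push_cast; rfl
  refine (hG O π ℤ {id} (fun _ => pt) (fun j => 2 * j.toNat + ν)
    (fun z => FF1 (fun i k l => rm π (2 * z.1.toNat + ν) (c i k l))
      (Nat.card (ResidueField O) ^ z.1.toNat) fun i => rm π (2 * z.1.toNat + ν) (z.2 i))
    hπ hN (fun g _ => Df.const _) (hm (a := id) (PA.base rfl)) ?_ ?_).congr fun j => ?_
  · set B := Ext {id} π {k | ∃ f ∈ Set.range (mn (M1 (cU D) MvPolynomial.X)) ∪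
      Set.range (mn (M2 (cU D) MvPolynomial.X)), k = fun z : ℤ × (Fin D → O) =>
        MvPolynomial.eval₂ pt z.2 f} with hB
    have b1 : PA B fun z : ℤ × (Fin D → O) => z.1 := PA.base (Or.inl ⟨id, rfl, rfl⟩)
    have b2 : ∀ f ∈ Set.range (mn (M1 (cU D) MvPolynomial.X)) ∪
        Set.range (mn (M2 (cU D) MvPolynomial.X)),
        Df π B fun z : ℤ × (Fin D → O) => MvPolynomial.eval₂Hom pt z.2 f := fun f hf =>
      Df.of_bas (fun b hb => PA.base (Or.inr hb)) ⟨f, hf, rfl⟩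
    obtain ⟨e0, p0, h0⟩ := pa_e im hπ (fun _ : ℤ × (Fin D → O) => M0 c) (hm b1)
      fun _ => Df.const _
    obtain ⟨e1, p1, h1⟩ := pa_e im hπ (fun z : ℤ × (Fin D → O) => M1 c z.2) (hm b1)
      fun i => (b2 _ (Or.inl ⟨i, rfl⟩)).eq fun z => by
        rw [mn_map, M1_map]
        simp [cU, pt]
    obtain ⟨e2, p2, h2⟩ := pa_e im hπ (fun z : ℤ × (Fin D → O) => M2 c z.2) (hm b1)
      fun i => (b2 _ (Or.inr ⟨i, rfl⟩)).eq fun z => by
        rw [mn_map, M2_map]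
        simp [cU, pt]
    refine ((DP.eq p1 (b1.toNat.nmul 2)).ppite
      (PP.pow ((p0.sub p2).sub ((hm b1).nmul D))) (PP.const 0)).congr fun z => ?_
    have a0 := h0 z
    have a1 := h1 z
    have a2 := h2 z
    rw [M0_map] at a0
    rw [M1_map] at a1
    rw [M2_map] at a2
    rw [FF1, (gen O π _ hπ).2.1]
    exact val Finite.one_lt_card a0 a1 a2
  · intro j y y' h
    have : (fun i => rm π (2 * j.toNat + ν) (y i)) = fun i => rm π (2 * j.toNat + ν) (y' i) :=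
      funext fun i => Ideal.Quotient.eq.2 (Ideal.mem_span_singleton.2 (h i))
    simp only [this]
  · simp only [sm, FF, Ideal.Quotient.mk_out]

end Pool.Agent.MP_4f1c5b_al.H20
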