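import Pool.Agent.MP_4f1c5b_al.H20.Spec

/-! Presburger terms are piecewise affine along arithmetic progressions. -/

namespace Pool.Agent.MP_4f1c5b_al.H20

namespace PwA

variable {X : Type} {B : Set (X → ℤ)}

theorem congr {f g : X → ℤ → ℤ} (h : T1 B f) (e : ∀ x s, f x s = g x s) : T1 B g := by
  have : f = g := funext fun x => funext (e x)
  rwa [← this]

theorem thr {k : ℕ} (hk : 0 < k) (g s : ℤ) : -(-g / (k : ℤ)) ≤ s ↔ g ≤ k * s := by
  rw [neg_le, Int.le_ediv_iff_mul_le (by exact_mod_cast hk)]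
  constructor <;> intro h <;> linarith

theorem rep {f : X → ℤ → ℤ} (h : T1 B f) {k : ℕ} (hk : 0 < k) :
    T1 B fun x s => f x (k * s) := by
  induction h with
  | leaf l ha => exact congr (T1.leaf (l * k) ha) fun _ _ => by ring
  | itx hg _ _ h1 h2 => exact T1.itx hg h1 h2
  | its hg _ _ h1 h2 =>
    exact congr (T1.its (hg.neg.div k).neg h1 h2) fun x s => by simp only [thr hk]

theorem dv {f : X → ℤ → ℤ} (h : T1 B f) {k : ℕ} (hk : 0 < k) :
    T1 B fun x s => f x (k * s) / (k : ℤ) := by
  induction h with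
  | leaf l ha =>
    refine congr (T1.leaf l (ha.div k)) fun _ s => ?_
    beta_reduce
    rw [mul_left_comm, Int.add_mul_ediv_left _ _ (by exact_mod_cast hk.ne')]
  | itx hg _ _ h1 h2 =>
    exact congr (T1.itx hg h1 h2) fun x s => by beta_reduce; split_ifs <;> rfl
  | its hg _ _ h1 h2 =>
    refine congr (T1.its (hg.neg.div k).neg h1 h2) fun x s => ?_
    simp only [thr hk]
    split_ifs <;> rfl

theorem neg {f : X → ℤ → ℤ} (h : T1 B f) : T1 B fun x s => -f x s := by
  induction h with
  | leaf l ha => exact congr (T1.leaf (-l) ha.neg) fun _ _ => by ring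
  | itx hg _ _ h1 h2 =>
    exact congr (T1.itx hg h1 h2) fun x s => by beta_reduce; split_ifs <;> rfl
  | its hg _ _ h1 h2 =>
    exact congr (T1.its hg h1 h2) fun x s => by beta_reduce; split_ifs <;> rfl

theorem add {f g : X → ℤ → ℤ} (h : T1 B f) (h' : T1 B g) : T1 B fun x s => f x s + g x s := by
  induction h with
  | leaf l ha =>
    induction h' with
    | leaf l' hb => exact congr (T1.leaf (l + l') (ha.add hb)) fun _ _ => by ring
    | itx hg _ _ h1 h2 =>
      exact congr (T1.itx hg h1 h2) fun x s => by beta_reduce; split_ifs <;> rfl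
    | its hg _ _ h1 h2 =>
      exact congr (T1.its hg h1 h2) fun x s => by beta_reduce; split_ifs <;> rfl
  | itx hg _ _ h1 h2 =>
    exact congr (T1.itx hg h1 h2) fun x s => by beta_reduce; split_ifs <;> rfl
  | its hg _ _ h1 h2 =>
    exact congr (T1.its hg h1 h2) fun x s => by beta_reduce; split_ifs <;> rfl

theorem ite {c f g : X → ℤ → ℤ} (h : T1 B c) (hf : T1 B f) (hg : T1 B g) :
    T1 B fun x s => if 0 ≤ c x s then f x s else g x s := by
  induction h with
  | @leaf α l ha =>
    obtain ⟨n, rfl | rfl⟩ := l.eq_nat_or_neg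
    · rcases n.eq_zero_or_pos with rfl | hn
      · exact congr (T1.itx ha hf hg) fun x s => by simp
      · refine congr (T1.its (ha.neg.neg.div n).neg hf hg) fun x s => ?_
        have e : -α x ≤ n * s ↔ 0 ≤ α x + n * s := by constructor <;> intro h <;> linarith
        simp only [thr hn, e]
    · rcases n.eq_zero_or_pos with rfl | hn
      · exact congr (T1.itx ha hf hg) fun x s => by simp
      · refine congr (T1.its ((ha.add (PA.const 1)).neg.div n).neg hg hf) fun x s => ?_
        have e : α x + 1 ≤ n * s ↔ ¬ 0 ≤ α x + -n * s := by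
          rw [not_le]
          constructor <;> intro h <;> linarith
        simp only [thr hn, e, ite_not]
  | itx hc _ _ h1 h2 =>
    exact congr (T1.itx hc h1 h2) fun x s => by beta_reduce; split_ifs <;> simp_all
  | its hc _ _ h1 h2 =>
    exact congr (T1.its hc h1 h2) fun x s => by beta_reduce; split_ifs <;> simp_all

theorem mul {a : X × ℤ → ℤ} {n k : ℕ} (hk : 0 < k)
    (h : ∀ r : ℤ, T1 B fun x s => a (x, r + n * s)) {m : ℕ} (e : m = n * k) (r : ℤ) :
    T1 B fun x s => a (x, r + m * s) :=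
  congr (rep (h r) hk) fun x s => by rw [e]; push_cast; rw [mul_assoc]

end PwA

open PwA in
theorem rowPw : PwS := by
  intro X B a ha
  induction ha with
  | base hb =>
    refine ⟨1, one_pos, fun r => ?_⟩
    rcases hb with ⟨b, hb, rfl⟩ | rfl
    · exact congr (T1.leaf 0 (PA.base hb)) fun _ _ => by simp
    · exact congr (T1.leaf 1 (PA.const r)) fun _ _ => by simp
  | const c => exact ⟨1, one_pos, fun r => congr (T1.leaf 0 (PA.const c)) fun _ _ => by simp⟩
  | add _ _ h1 h2 =>
    obtain ⟨n, hn, h1⟩ := h1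
    obtain ⟨m, hm, h2⟩ := h2
    exact ⟨n * m, Nat.mul_pos hn hm, fun r =>
      add (mul hm h1 rfl r) (mul hn h2 (mul_comm _ _) r)⟩
  | neg _ h =>
    obtain ⟨n, hn, h⟩ := h
    exact ⟨n, hn, fun r => neg (h r)⟩
  | div k _ h =>
    obtain ⟨n, hn, h⟩ := h
    rcases k.eq_zero_or_pos with rfl | hk
    · exact ⟨1, one_pos, fun r => congr (T1.leaf 0 (PA.const 0)) fun _ _ => by simp⟩
    · exact ⟨n * k, Nat.mul_pos hn hk, fun r => congr (dv (h r) hk) fun x s => by
        push_cast; rw [mul_assoc]⟩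
  | ite _ _ _ h1 h2 h3 =>
    obtain ⟨n, hn, h1⟩ := h1
    obtain ⟨m, hm, h2⟩ := h2
    obtain ⟨k, hk, h3⟩ := h3
    exact ⟨n * m * k, by positivity, fun r =>
      ite (mul (Nat.mul_pos hm hk) h1 (by ring) r) (mul (Nat.mul_pos hn hk) h2 (by ring) r)
        (mul (Nat.mul_pos hn hm) h3 (by ring) r)⟩

end Pool.Agent.MP_4f1c5b_al.H20
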