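import Pool.Agent.MP_4f1c5b_al.H20.Spec

/-!
Generating series of Presburger-exponential functions are rational.
-/

namespace Pool.Agent.MP_4f1c5b_al.H20

open Classical Polynomial

namespace RecA

variable {q : ℚ}

/-- Rational series with a denominator of the allowed shape. -/
def R (q : ℚ) (F : PowerSeries ℚ) : Prop :=
  ∃ D T : ℚ[X], Bin q D ∧ (D : PowerSeries ℚ) * F = T

theorem poly (T : ℚ[X]) : R q T := ⟨1, T, Submonoid.one_mem _, by simp⟩

theorem R.add {F G : PowerSeries ℚ} (h : R q F) (h' : R q G) : R q (F + G) := by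
  obtain ⟨D, T, h1, h2⟩ := h
  obtain ⟨D', T', h3, h4⟩ := h'
  refine ⟨D * D', D' * T + D * T', Submonoid.mul_mem _ h1 h3, ?_⟩
  simp only [coe_add, coe_mul, ← h2, ← h4]
  ring

theorem R.mul {F G : PowerSeries ℚ} (h : R q F) (h' : R q G) : R q (F * G) := by
  obtain ⟨D, T, h1, h2⟩ := h
  obtain ⟨D', T', h3, h4⟩ := h'
  refine ⟨D * D', T * T', Submonoid.mul_mem _ h1 h3, ?_⟩
  simp only [coe_mul, ← h2, ← h4]
  ring

theorem sum {ι : Type} (s : Finset ι) {F : ι → PowerSeries ℚ} (h : ∀ i ∈ s, R q (F i)) :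
    R q (∑ i ∈ s, F i) :=
  Finset.sum_induction _ _ (fun _ _ => R.add) (by simpa using poly 0) h

theorem R.der {F : PowerSeries ℚ} (h : R q F) : R q (PowerSeries.derivative ℚ F) := by
  obtain ⟨D, T, h1, h2⟩ := h
  refine ⟨D * D, D * derivative T - derivative D * T, Submonoid.mul_mem _ h1 h1, ?_⟩
  have h3 := congrArg (PowerSeries.derivative ℚ) h2
  rw [Derivation.leibniz, PowerSeries.derivative_coe, PowerSeries.derivative_coe, smul_eq_mul,
    smul_eq_mul] at h3
  simp only [coe_sub, coe_mul, ← h2, ← h3]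
  ring

theorem euler {f : ℕ → ℚ} (h : R q (PowerSeries.mk f)) :
    R q (PowerSeries.mk fun s => f s * s) := by
  have e : (PowerSeries.mk fun s => f s * s) =
      ((X : ℚ[X]) : PowerSeries ℚ) * PowerSeries.derivative ℚ (PowerSeries.mk f) := by
    ext s
    rw [coe_X]
    cases s with
    | zero => simp
    | succ s => simp [PowerSeries.coeff_succ_X_mul, PowerSeries.coeff_derivative]
  rw [e]
  exact (poly X).mul h.der

theorem geom (l : ℤ) (c : ℚ) : R q (PowerSeries.mk fun s => c * (q ^ l) ^ s) := by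
  refine ⟨1 - C (q ^ l) * X ^ 1, C c, Submonoid.subset_closure ⟨l, 1, one_pos, rfl⟩, ?_⟩
  ext s
  rw [pow_one, coe_sub, coe_mul, coe_one, coe_C, coe_C, coe_X, sub_mul, one_mul, mul_assoc,
    map_sub, PowerSeries.coeff_C_mul]
  cases s with
  | zero => simp
  | succ s =>
    rw [PowerSeries.coeff_succ_X_mul, PowerSeries.coeff_mk, PowerSeries.coeff_mk,
      PowerSeries.coeff_succ_C]
    ring

theorem atom (l : ℤ) (c : ℚ) (P : ℚ[X]) :
    R q (PowerSeries.mk fun s => c * P.eval (s : ℚ) * (q ^ l) ^ s) := by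
  induction P using Polynomial.induction_on with
  | C a => simpa using geom l (c * a)
  | add P Q hP hQ =>
    convert hP.add hQ using 1
    ext s
    simp only [PowerSeries.coeff_mk, map_add, eval_add]
    ring
  | monomial n a h =>
    convert euler h using 2
    funext s
    simp only [eval_mul, eval_pow, eval_C, eval_X]
    ring

theorem n1 {f : Unit → ℤ → ℚ} (h : N1 q ∅ f) : R q (PowerSeries.mk fun s : ℕ => f () s) := by
  induction h with
  | @atom ψ P l _ =>
    convert atom (q := q) l (ψ ()) P using 2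
    funext s
    simp only [zpow_mul, zpow_natCast, Int.cast_natCast]
  | add _ _ h1 h2 =>
    convert h1.add h2 using 1
    ext s
    simp
  | @its γ f g _ _ _ h1 _ =>
    convert h1.add (poly (PowerSeries.trunc (γ ()).toNat
      (PowerSeries.mk fun s : ℕ => g () s - f () s))) using 1
    ext s
    simp only [PowerSeries.coeff_mk, map_add, coeff_coe, PowerSeries.coeff_trunc]
    by_cases hs : γ () ≤ s
    · rw [if_pos hs, if_neg (by omega), add_zero]
    · rw [if_neg hs, if_pos (by omega)]
      ring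

theorem expand_coe {n : ℕ} (hn : 0 < n) (P : ℚ[X]) :
    PowerSeries.expand n hn.ne' (P : PowerSeries ℚ) = (expand ℚ n P : ℚ[X]) := by
  ext s
  rw [PowerSeries.coeff_expand, coeff_coe, coeff_coe, coeff_expand hn]

theorem R.expand {n : ℕ} (hn : 0 < n) {F : PowerSeries ℚ} (h : R q F) :
    R q (PowerSeries.expand n hn.ne' F) := by
  obtain ⟨D, T, h1, h2⟩ := h
  refine ⟨Polynomial.expand ℚ n D, Polynomial.expand ℚ n T, ?_, ?_⟩
  · clear h2
    induction h1 using Submonoid.closure_induction with
    | mem x hx =>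
      obtain ⟨a, b, hb, rfl⟩ := hx
      refine Submonoid.subset_closure ⟨a, n * b, Nat.mul_pos hn hb, ?_⟩
      rw [map_sub, map_one, map_mul, expand_C, map_pow, expand_X, pow_mul]
    | one =>
      rw [map_one]
      exact Submonoid.one_mem _
    | mul x y _ _ hx hy =>
      rw [map_mul]
      exact Submonoid.mul_mem _ hx hy
  · rw [← expand_coe hn, ← expand_coe hn, ← map_mul, h2]

theorem recomb {n : ℕ} (hn : 0 < n) (f : ℕ → ℚ) :
    PowerSeries.mk f = ∑ r ∈ Finset.range n, PowerSeries.X ^ r *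
      PowerSeries.expand n hn.ne' (PowerSeries.mk fun s => f (r + n * s)) := by
  ext j
  rw [map_sum, Finset.sum_eq_single_of_mem (j % n) (Finset.mem_range.2 (Nat.mod_lt j hn))]
  · have e : j - j % n = n * (j / n) := by
      have := Nat.mod_add_div j n
      omega
    rw [PowerSeries.coeff_X_pow_mul', if_pos (Nat.mod_le j n), e, PowerSeries.coeff_expand_mul,
      PowerSeries.coeff_mk, PowerSeries.coeff_mk, Nat.mod_add_div]
  · intro r hr hne
    rw [PowerSeries.coeff_X_pow_mul']
    split_ifs with h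
    · refine PowerSeries.coeff_expand_of_not_dvd _ _ _ fun hd => hne ?_
      have := (Nat.modEq_iff_dvd' h).2 hd
      rwa [Nat.ModEq, Nat.mod_eq_of_lt (Finset.mem_range.1 hr)] at this
    · rfl

end RecA

theorem rowRec : PnS → RecS := by
  intro hP q Φ hq hΦ
  obtain ⟨n, hn, h⟩ := hP Unit q ∅ (fun z => Φ z.2) hq
    (hΦ.comp Prod.snd fun b hb => by
      rw [Set.mem_singleton_iff.1 hb]
      exact PA.snd)
  change RecA.R q _
  rw [RecA.recomb hn]
  refine RecA.sum _ fun r _ => RecA.R.mul ?_ (RecA.R.expand hn ?_)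
  · simpa using RecA.poly (q := q) (X ^ r)
  · simpa using RecA.n1 (h r)

end Pool.Agent.MP_4f1c5b_al.H20
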