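import Pool.Agent.MP_4f1c5b_al.H20.Spec

/-!
Adding one polynomial to a definable system of centres.
-/

namespace Pool.Agent.MP_4f1c5b_al.H20

open Classical IsLocalRing Polynomial

namespace StepA

variable {O : Type} [CommRing O] [IsDomain O] [IsDiscreteValuationRing O] {π : O}

theorem vv_pow (hπ : Irreducible π) {w : O} (hw : w ≠ 0) (u : ℕ) : vv (w ^ u) = u * vv w := by
  induction u with
  | zero => simpa using (rv_of hπ (x := 1) (k := 0) isUnit_one (by simp)).1
  | succ u ih => rw [pow_succ, (rv_mul hπ (pow_ne_zero u hw) hw).1, ih]; ring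

theorem ball_iff (hπ : Irreducible π) {c w t : O} (hw : w ≠ 0) :
    Ball π c w t ↔ vv (t - c) = vv w ∧ ac π (t - c) = ac π w := (rv_eq_iff hπ hw).symm

theorem ne_of_rv (hπ : Irreducible π) {w w' : O} (hw : w ≠ 0) (h : ac π w' = ac π w) : w' ≠ 0 :=
  fun h0 => hw ((ac_eq_zero hπ).1 (by rw [← h, h0, ac_zero]))

theorem two (hπ : Irreducible π) {n : ℕ} {g : ℕ → O} (h : Canc π (Finset.range n) g) :
    ∃ u u', u < u' ∧ u' < n ∧ g u ≠ 0 ∧ g u' ≠ 0 ∧ vv (g u) = vv (g u') := by
  obtain ⟨u0, h0, h1, -, h3⟩ := (canc_iff hπ _ _).1 h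
  have : ∃ u ∈ Finset.range n, u ≠ u0 ∧ g u ≠ 0 ∧ vv (g u) = vv (g u0) := by
    by_contra hn
    push Not at hn
    rw [Finset.sum_eq_single u0, if_pos rfl] at h3
    · exact h1 ((ac_eq_zero hπ).1 h3)
    · intro u hu hne
      by_cases hg : g u = 0
      · rw [hg, ac_zero, ite_self]
      · exact if_neg (hn u hu hne hg)
    · exact fun h => absurd h0 h
  obtain ⟨u, hu, hne, hg, hv⟩ := this
  rw [Finset.mem_range] at hu h0
  rcases lt_or_gt_of_ne hne with hl | hl
  · exact ⟨u, u0, hl, h0, hg, h1, hv⟩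
  · exact ⟨u0, u, hl, hu, h1, hg, hv.symm⟩

theorem cover (hπ : Irreducible π) {N : ℕ} {F : O[X]} (hF : F ≠ 0) (hN : F.natDegree ≤ N)
    {c w : O} (hw : w ≠ 0) (h0 : F.eval (c + w) = 0) :
    Canc π (Finset.range (N + 1)) (tay F c w) ∧ ∃ u u' : Fin (N + 1),
      (((vv ((taylor c F).coeff u) : ℤ) - vv ((taylor c F).coeff u')) /
        (((u' : ℕ) - u : ℕ) : ℤ)).toNat = vv w := by
  have hc : Canc π (Finset.range (N + 1)) (tay F c w) := by
    refine canc_of_zero hπ (by rw [tay_sum hN, h0]) ⟨F.natDegree, by simp; omega, ?_⟩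
    refine mul_ne_zero ?_ (pow_ne_zero _ hw)
    rw [← natDegree_taylor F c]
    exact leadingCoeff_ne_zero.2 fun h => hF (taylor_injective c (by rw [h, map_zero]))
  refine ⟨hc, ?_⟩
  obtain ⟨u, u', hl, hn, h1, h2, h3⟩ := two hπ hc
  refine ⟨⟨u, by omega⟩, ⟨u', hn⟩, ?_⟩
  simp only [tay] at h1 h2 h3
  rw [(rv_mul hπ (left_ne_zero_of_mul h1) (pow_ne_zero _ hw)).1,
    (rv_mul hπ (left_ne_zero_of_mul h2) (pow_ne_zero _ hw)).1, vv_pow hπ hw, vv_pow hπ hw] at h3
  obtain ⟨d, rfl⟩ := Nat.exists_eq_add_of_lt hl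
  have e1 : u + d + 1 - u = d + 1 := by omega
  have e2 : (vv ((taylor c F).coeff u) : ℤ) - vv ((taylor c F).coeff (u + d + 1)) =
      ((d + 1 : ℕ) : ℤ) * vv w := by
    zify at h3
    push_cast
    linarith
  simp only [e1, e2]
  rw [Int.mul_ediv_cancel_left _ (by omega), Int.toNat_natCast]

omit [IsDomain O] [IsDiscreteValuationRing O] in
theorem not_canc_zero {N : ℕ} (F : O[X]) (c : O) :
    ¬ Canc π (Finset.range (N + 1)) (tay F c 0) := by
  rintro ⟨m, -, ⟨u, -, h2⟩, h3⟩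
  have e : ∀ u, u ≠ 0 → tay F c 0 u = 0 := fun u hu => by simp [tay, hu]
  rw [Finset.sum_eq_single 0 (fun u _ hu => e u hu) (by simp)] at h3
  by_cases hu : u = 0
  · exact h2 (hu ▸ h3)
  · exact h2 (by rw [e u hu]; exact dvd_zero _)

end StepA

open StepA in
theorem rowStep : LocS → StepS := by
  intro loc O _ _ _ _ _ π N X I R _ _ B pt H f c hπ hN hH hf fN HN P hv
  have itH : ∀ h ∈ H, ∀ l, derivative^[l] h ∈ H := fun h hh l => by
    induction l with
    | zero => exact hh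
    | succ l ih => rw [Function.iterate_succ_apply']; exact hH _ ih
  have itf : ∀ l, 0 < l → derivative^[l] f ∈ H := fun l hl => by
    obtain ⟨l, rfl⟩ := Nat.exists_eq_succ_of_ne_zero hl.ne'
    exact itH _ hf l
  have cen : ∀ (g : R[X]) (l : ℕ) (x : X) (t : O), derivative^[l] g ∈ H →
      derivative^[l] (g.map (pt x)) ≠ 0 → (derivative^[l] (g.map (pt x))).eval t = 0 →
      ∃ j, c j x = t := fun g l x t h1 h2 h3 => by
    rw [iterate_derivative_map] at h2 h3
    exact P.root _ h1 x t h2 h3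
  have dder : ∀ (g : R[X]) (l : ℕ) (i : I), derivative^[l] g ∈ H →
      Df π B fun x => (derivative^[l] (g.map (pt x))).eval (c i x) := fun g l i h1 =>
    (P.val _ h1 i).eq fun x => by rw [iterate_derivative_map]
  have dF : ∀ (i : I) (l : ℕ), Df π B fun x => (derivative^[l] (f.map (pt x))).eval (c i x) :=
    fun i l => by
      rcases Nat.eq_zero_or_pos l with rfl | hl
      · exact hv i
      · exact dder f l i (itf l hl)
  have FN : ∀ x, (f.map (pt x)).natDegree ≤ N := fun x => natDegree_map_le.trans fN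
  have dT : ∀ (i : I) (u : Fin (N + 1)),
      Df π B fun x => (taylor (c i x) (f.map (pt x))).coeff u := fun i u =>
    Df.cancel hπ (dF i u) (Df.const ((u : ℕ).factorial : O)) fun x =>
      ⟨(hN.fac (Nat.lt_succ_iff.1 u.2)).ne_zero, fac_tay _ _ _⟩
  choose lift hlift using residue_surjective (R := O)
  let K := I × Fin (N + 1) × Fin (N + 1) × ResidueField O
  let a : K → X → ℕ := fun k x =>
    (((vv ((taylor (c k.1 x) (f.map (pt x))).coeff k.2.1) : ℤ) -
      vv ((taylor (c k.1 x) (f.map (pt x))).coeff k.2.2.1)) /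
        (((k.2.2.1 : ℕ) - k.2.1 : ℕ) : ℤ)).toNat
  let W : K → X → O := fun k x => π ^ a k x * lift k.2.2.2
  have dW : ∀ k, Df π B (W k) := fun k =>
    (Df.pipow hπ (((dT k.1 k.2.1).1.sub (dT k.1 k.2.2.1).1).div _).toNat).mul hπ (Df.const _)
  let E : K → X → Prop := fun k x => W k x ≠ 0 ∧ (∀ j, ¬ Ball π (c k.1 x) (W k x) (c j x)) ∧
    Canc π (Finset.range (N + 1)) (tay (f.map (pt x)) (c k.1 x) (W k x))
  have dE : ∀ k, DP B (E k) := fun k =>
    (((dW k).zero hπ).not.and ((DP.all fun j => ((P.diff j k.1).rveq (dW k)).not).and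
      (Df.canc hπ _ (df_tay hπ hN (dF k.1) (dW k))))).congr fun x =>
        and_congr_right fun hw => and_congr_left' (forall_congr' fun j => by rw [ball_iff hπ hw])
  have ex : ∀ k x, ∃ t, (E k x → f.map (pt x) ≠ 0 ∧ Ball π (c k.1 x) (W k x) t ∧
      (f.map (pt x)).eval t = 0) ∧ (¬ E k x → t = c k.1 x) := fun k x => by
    by_cases h : E k x
    · obtain ⟨l, t, h1, h2, h3⟩ := (loc O π N _ (c k.1 x) _ hπ hN (FN x) h.1).1 h.2.2
      rcases Nat.eq_zero_or_pos l with rfl | hl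
      · exact ⟨t, fun _ => ⟨h1, h2, h3⟩, fun h' => absurd h h'⟩
      · obtain ⟨j, rfl⟩ := cen f l x t (itf l hl) h1 h3
        exact absurd h2 (h.2.1 j)
    · exact ⟨_, fun h' => absurd h' h, fun _ => rfl⟩
  choose τ hτ hτ' using ex
  have uq : ∀ k x t, E k x → Ball π (c k.1 x) (W k x) t → (f.map (pt x)).eval t = 0 →
      τ k x = t := fun k x t h h1 h2 => by
    by_contra hne
    obtain ⟨l, t', hl, h3, h4, h5⟩ := (loc O π N _ (c k.1 x) _ hπ hN (FN x) h.1).2 (hτ k x h).1
      _ _ (hτ k x h).2.1 h1 hne (hτ k x h).2.2 h2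
    obtain ⟨j, rfl⟩ := cen f l x t' (itf l hl) h3 h5
    exact h.2.1 j h4
  have rvτ : ∀ k x, E k x → vv (τ k x - c k.1 x) = vv (W k x) ∧
      ac π (τ k x - c k.1 x) = ac π (W k x) := fun k x h => (ball_iff hπ h.1).1 (hτ k x h).2.1
  have inb : ∀ k x t, E k x → vv (τ k x - c k.1 x) = vv (t - c k.1 x) →
      ac π (τ k x - c k.1 x) = ac π (t - c k.1 x) → Ball π (c k.1 x) (W k x) t :=
    fun k x t h h1 h2 => (ball_iff hπ h.1).2 ⟨h1 ▸ (rvτ k x h).1, h2 ▸ (rvτ k x h).2⟩
  have offb : ∀ k x t, ¬ E k x → ac π (τ k x - c k.1 x) = ac π (t - c k.1 x) →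
      τ k x - c k.1 x = t - c k.1 x := fun k x t h h2 => by
    rw [hτ' k x h, sub_self] at h2 ⊢
    rw [ac_zero] at h2
    exact ((ac_eq_zero hπ).1 h2.symm).symm
  have d1 : ∀ k, Df π B fun x => τ k x - c k.1 x := fun k =>
    (Df.ite (dE k) (dW k) (Df.const 0)).congr fun x => by
      by_cases h : E k x
      · rw [if_pos h]
        exact ⟨(rvτ k x h).1.symm, (rvτ k x h).2.symm⟩
      · rw [if_neg h, hτ' k x h, sub_self]
        exact ⟨rfl, rfl⟩
  have d2 : ∀ k j, Df π B fun x => τ k x - c j x := fun k j =>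
    (Df.sub hπ (d1 k) (P.diff j k.1) fun x h1 h2 => by
      by_cases h : E k x
      · exact absurd (inb k x _ h h1 h2) (h.2.1 j)
      · exact offb k x _ h h2).eq fun x => by ring
  have d3 : ∀ k k', Df π B fun x => τ k x - τ k' x := fun k k' =>
    (Df.sub hπ (d1 k) (d2 k' k.1) fun x h1 h2 => by
      by_cases h : E k x
      · have h3 := inb k x _ h h1 h2
        by_cases h' : E k' x
        · rw [uq k x _ h h3 (hτ k' x h').2.2]
        · rw [hτ' k' x h'] at h3
          exact absurd h3 (h.2.1 _)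
      · exact offb k x _ h h2).eq fun x => by ring
  refine ⟨I ⊕ K, inferInstance, Sum.elim c τ, ?_, ?_, ?_, ?_⟩
  · obtain ⟨i, hi⟩ := P.zero
    exact ⟨.inl i, hi⟩
  · rintro (i | k) (j | k')
    · exact P.diff i j
    · exact ((d2 k' i).neg hπ).eq fun x => by simp
    · exact d2 k j
    · exact d3 k k'
  · rintro g (rfl | hg) (i | k)
    · exact hv i
    · refine (Df.ite (dE k) (Df.const 0) (hv k.1)).eq fun x => ?_
      by_cases h : E k x
      · rw [if_pos h]
        exact (hτ k x h).2.2.symm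
      · rw [if_neg h, Sum.elim_inr, hτ' k x h]
    · exact P.val g hg i
    · have gN : ∀ x, (g.map (pt x)).natDegree ≤ N := fun x => natDegree_map_le.trans (HN g hg)
      refine (Df.sum hπ _ (df_tay hπ hN (fun l => dder g l k.1 (itH g hg l)) (d1 k))
        fun x hx => False.elim ?_).eq fun x => by rw [tay_sum (gN x)]; simp
      by_cases h : E k x
      · have hw := ne_of_rv hπ h.1 (rvτ k x h).2
        obtain ⟨l, t, h1, h2, h3⟩ := (loc O π N _ (c k.1 x) _ hπ hN (gN x) hw).1 hx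
        obtain ⟨j, rfl⟩ := cen g l x t (itH g hg l) h1 h3
        obtain ⟨h4, h5⟩ := (ball_iff hπ hw).1 h2
        exact h.2.1 j (inb k x _ h h4.symm h5.symm)
      · rw [hτ' k x h, sub_self] at hx
        exact not_canc_zero _ _ hx
  · rintro g (rfl | hg) x t h0 ht
    · by_cases hc : ∃ i, c i x = t
      · exact hc.elim fun i hi => ⟨.inl i, hi⟩
      push Not at hc
      have : Nonempty I := P.zero.elim fun i _ => ⟨i⟩
      obtain ⟨i, hi⟩ := Finite.exists_max fun i => vv (t - c i x)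
      have hw : t - c i x ≠ 0 := sub_ne_zero.2 (hc i).symm
      obtain ⟨h1, u, u', h2⟩ := cover hπ h0 (FN x) (c := c i x) hw (by simpa using ht)
      let k : K := (i, u, u', ac π (t - c i x))
      have hu : IsUnit (lift (ac π (t - c i x))) := by
        rw [← residue_ne_zero_iff_isUnit, hlift]
        exact fun h => hw ((ac_eq_zero hπ).1 h)
      have h3 : vv (t - c i x) = vv (W k x) ∧ ac π (t - c i x) = ac π (W k x) := by
        obtain ⟨h4, h5⟩ := rv_of hπ hu (show W k x = π ^ a k x * _ from rfl)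
        exact ⟨h2.symm.trans h4.symm, (h5.trans (hlift _)).symm⟩
      have hW : W k x ≠ 0 := ne_of_rv hπ hw h3.2.symm
      have hE : E k x := by
        refine ⟨hW, fun j hj => ?_, Canc.congr hπ (fun u _ => tay_congr hπ _ _ h3 u) h1⟩
        obtain ⟨h4, h5⟩ := (ball_iff hπ hW).1 hj
        have h6 := (rv_eq_iff hπ hw).1 ⟨h4.trans h3.1.symm, h5.trans h3.2.symm⟩
        rw [← dvd_neg, show -(c j x - c k.1 x - (t - c i x)) = t - c j x by simp [k],
          pow_dvd_iff hπ] at h6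
        have h7 := hi j
        rcases h6 with h6 | h6
        · exact hc j (sub_eq_zero.1 h6).symm
        · omega
      exact ⟨.inr k, uq k x t hE ((ball_iff hπ hW).2 h3) ht⟩
    · exact (P.root g hg x t h0 ht).elim fun i hi => ⟨.inl i, hi⟩

end Pool.Agent.MP_4f1c5b_al.H20
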