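import Pool.Agent.MP_4f1c5b_al.H20.Spec

/-!
Summation over one variable.
-/

namespace Pool.Agent.MP_4f1c5b_al.H20

open Classical IsLocalRing Polynomial

namespace Sum1A

variable {O : Type} [CommRing O] [IsDomain O] [IsDiscreteValuationRing O] {π : O}

theorem rv_pl (hπ : Irreducible π) {l : ResidueField O → O} (hl : ∀ ξ, residue O (l ξ) = ξ)
    {ξ : ResidueField O} (hξ : ξ ≠ 0) (a : ℕ) : π ^ a * l ξ ≠ 0 ∧ vv (π ^ a * l ξ) = a := by
  have hu : IsUnit (l ξ) := (residue_ne_zero_iff_isUnit _).1 (by rw [hl]; exact hξ)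
  exact ⟨mul_ne_zero (pow_ne_zero _ hπ.ne_zero) hu.ne_zero, (rv_of hπ hu rfl).1⟩

/-- There is no cancellation on a ball without centres. -/
theorem nocanc (hL : LocS) [IsAdicComplete (maximalIdeal O) O] (hπ : Irreducible π) {N : ℕ}
    (hN : Tame N O) {ι : Type} {c : ι → O} {i : ι} {w : O} (hw : w ≠ 0)
    (hfree : ∀ j, ¬ π ^ (vv w + 1) ∣ c j - c i - w) {f : O[X]} (hdeg : f.natDegree ≤ N)
    (hroot : ∀ l t, derivative^[l] f ≠ 0 → (derivative^[l] f).eval t = 0 → ∃ j, c j = t) :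
    ¬ Canc π (Finset.range (N + 1)) (tay f (c i) w) := fun hc => by
  obtain ⟨l, t, h1, h2, h3⟩ := (hL O π N f (c i) w hπ hN hdeg hw).1 hc
  obtain ⟨j, rfl⟩ := hroot l t h1 h3
  exact hfree j h2

theorem const_ball (hπ : Irreducible π) {N : ℕ} {f : O[X]} (hdeg : f.natDegree ≤ N) {c w t : O}
    (hw : w ≠ 0) (hc : ¬ Canc π (Finset.range (N + 1)) (tay f c w))
    (ht : π ^ (vv w + 1) ∣ t - c - w) :
    vv (f.eval t) = vv (f.eval (c + w)) ∧ ac π (f.eval t) = ac π (f.eval (c + w)) := by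
  have h1 := (rv_eq_iff hπ hw).2 ht
  have h2 := rv_sum hπ (s := Finset.range (N + 1)) (g := tay f c w) (g' := tay f c (t - c))
    (fun u _ => tay_congr hπ f c ⟨h1.1.symm, h1.2.symm⟩ u) hc
  rw [tay_sum hdeg, tay_sum hdeg, add_sub_cancel] at h2
  exact ⟨h2.1.symm, h2.2.symm⟩

/-- The closure of a finite family under differentiation. -/
theorem clos (R : Type) [CommRing R] (F : Set R[X]) (hF : F.Finite) :
    ∃ (F' : Set R[X]) (N : ℕ), F'.Finite ∧ F ⊆ F' ∧ (∀ f ∈ F', derivative f ∈ F') ∧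
      ∀ f ∈ F', f.natDegree ≤ N := by
  obtain ⟨N, hN⟩ := (hF.image natDegree).bddAbove
  have hN' : ∀ f ∈ F, f.natDegree ≤ N := fun f hf => hN ⟨f, hf, rfl⟩
  refine ⟨{g | ∃ f ∈ F, ∃ k, g = derivative^[k] f}, N, ?_, fun f hf => ⟨f, hf, 0, rfl⟩, ?_, ?_⟩
  · refine ((hF.prod (Set.finite_Iic (N + 1))).image
      fun z : R[X] × ℕ => derivative^[z.2] z.1).subset ?_
    rintro _ ⟨f, hf, k, rfl⟩
    by_cases hk : k ≤ N + 1
    · exact ⟨(f, k), ⟨hf, hk⟩, rfl⟩
    · refine ⟨(f, N + 1), ⟨hf, le_refl (N + 1)⟩, ?_⟩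
      have := hN' f hf
      show derivative^[N + 1] f = derivative^[k] f
      rw [iterate_derivative_eq_zero (by omega), iterate_derivative_eq_zero (by omega)]
  · rintro _ ⟨f, hf, k, rfl⟩
    exact ⟨f, hf, k + 1, by rw [Function.iterate_succ_apply']⟩
  · rintro _ ⟨f, hf, k, rfl⟩
    exact (natDegree_iterate_derivative f k).trans ((Nat.sub_le _ _).trans (hN' f hf))

theorem iter_mem {R : Type} [CommRing R] {F : Set R[X]} (h : ∀ f ∈ F, derivative f ∈ F)
    {f : R[X]} (hf : f ∈ F) (k : ℕ) : derivative^[k] f ∈ F := by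
  induction k with
  | zero => exact hf
  | succ k ih => rw [Function.iterate_succ_apply']; exact h _ ih

theorem prep_fin {X I R : Type} [Finite I] [CommRing R] {B : Set (X → ℤ)} {pt : X → R →+* O}
    {F : Set R[X]} {c : I → X → O} (h : Prep π B pt F c) :
    ∃ (s : ℕ) (c' : Fin s → X → O), Prep π B pt F c' := by
  obtain ⟨s, ⟨e⟩⟩ := Finite.exists_equiv_fin I
  refine ⟨s, fun j => c (e.symm j), ?_, fun i j => h.diff _ _, fun f hf i => h.val f hf _, ?_⟩
  · obtain ⟨i, hi⟩ := h.zero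
    exact ⟨e i, fun x => by simp only [e.symm_apply_apply, hi]⟩
  · intro f hf x t h1 h2
    obtain ⟨i, hi⟩ := h.root f hf x t h1 h2
    exact ⟨e i, by simp only [e.symm_apply_apply, hi]⟩

theorem ext_comp {X Y T : Type} {B : Set (X → ℤ)} {B' : Set (Y → ℤ)} {G : Set (X × T → O)}
    (φ : Y → X × T) (h1 : ∀ b ∈ B, PA B' fun y => b (φ y).1)
    (h2 : ∀ g ∈ G, Df π B' fun y => g (φ y)) : ∀ b ∈ Ext B π G, PA B' fun y => b (φ y) := by
  rintro b (⟨b', hb, rfl⟩ | hb)
  · exact h1 b' hb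
  · exact bas_comp φ h2 b hb

theorem ext_det {X T : Type} {B : Set (X → ℤ)} {G : Set (X × T → O)} {x : X} {t t' : T}
    (h : ∀ g ∈ G, vv (g (x, t)) = vv (g (x, t')) ∧ ac π (g (x, t)) = ac π (g (x, t'))) :
    ∀ b ∈ Ext B π G, b (x, t) = b (x, t') := by
  rintro b (⟨b', hb, rfl⟩ | hb)
  · rfl
  · exact bas_det h b hb

end Sum1A

open Sum1A

theorem rowSum1 : DiagS → LocS → PartS → SumzS → Sum1S := by
  intro hD hL hP hS R _ F hF
  obtain ⟨F', N, hfin, hsub, hder, hdeg⟩ := clos R F hF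
  obtain ⟨G, hG, hG'⟩ := hD R F' N hfin hder hdeg
  refine ⟨G, N, hG, ?_⟩
  intro O _ _ _ _ _ π X B pt m h hπ hN hg hm hh hper
  obtain ⟨I, _, c0, hc0⟩ := hG' O π X B pt hπ hN hg
  obtain ⟨s, c, hc⟩ := prep_fin hc0
  have := Fintype.ofFinite (ResidueField O)
  obtain ⟨l, hl⟩ : ∃ l : ResidueField O → O, ∀ ξ, residue O (l ξ) = ξ :=
    ⟨_, Function.rightInverse_surjInv residue_surjective⟩
  have hdeg' : ∀ f ∈ F', ∀ x, (f.map (pt x)).natDegree ≤ N := fun f hf x =>
    natDegree_map_le.trans (hdeg f hf)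
  have hnc : ∀ f ∈ F', ∀ x i a ξ, ξ ≠ 0 → Free π (fun j => c j x) i a (l ξ) →
      ¬ Canc π (Finset.range (N + 1)) (tay (f.map (pt x)) (c i x) (π ^ a * l ξ)) := by
    intro f hf x i a ξ hξ hfr
    obtain ⟨h1, h2⟩ := rv_pl hπ hl hξ a
    refine nocanc hL hπ hN (c := fun j => c j x) h1 (by rw [h2]; exact hfr.1) (hdeg' f hf x) ?_
    intro k t h3 h4
    rw [iterate_derivative_map] at h3 h4
    exact hc.root _ (iter_mem hder hf k) x t h3 h4
  have key : ∀ x, sm1 π (m x) (fun t => h (x, t)) = _ := fun x =>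
    hP O π s (m x) (fun j => c j x) l (fun t => h (x, t)) hπ
      (hc.zero.imp fun i hi => hi x) hl (hper x) (by
        intro i a ξ hξ hfr t ht
        obtain ⟨h1, h2⟩ := rv_pl hπ hl hξ a
        refine hh.det (ext_det ?_)
        rintro _ ⟨f, hf, rfl⟩
        exact const_ball hπ (hdeg' f (hsub hf) x) h1 (hnc f (hsub hf) x i a ξ hξ hfr)
          (by rw [h2]; exact ht))
  have hq : (Nat.card (ResidueField O) : ℚ) ≠ 0 := Nat.cast_ne_zero.2 Nat.card_pos.ne'
  refine PP.congr ?_ fun x => (key x).symm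
  refine PP.add (PP.sum _ fun i _ => ?_) (PP.sum _ fun i _ => PP.sum _ fun ξ hξ => ?_)
  · have h1 : DP B fun x => ∀ j, j < i → ¬ π ^ m x ∣ c j x - c i x :=
      DP.all fun j => (DP.const (j < i)).imp ((hc.diff j i).dvd hπ hm).not
    have h2 : PP (Nat.card (ResidueField O)) B fun x => h (x, c i x) :=
      hh.comp (fun x => (x, c i x)) (ext_comp _ (fun b hb => PA.base hb) (by
        rintro _ ⟨f, hf, rfl⟩
        exact hc.val f (hsub hf) i))
    exact (h1.ppite h2 (PP.const 0)).congr fun x => if_congr Iff.rfl rfl rfl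
  · have hξ0 : ξ ≠ 0 := (Finset.mem_erase.1 hξ).1
    have ha : PA (Up B) fun z : X × ℤ => ((z.2.toNat : ℕ) : ℤ) := PA.snd.toNat
    have hw : Df π (Up B) fun z : X × ℤ => π ^ z.2.toNat * l ξ :=
      (Df.pipow hπ ha).mul hπ (Df.const _)
    have hfr : DP (Up B) fun z : X × ℤ => Free π (fun j => c j z.1) i z.2.toNat (l ξ) := by
      refine DP.and (DP.all fun j => ?_)
        (DP.all fun j => (DP.const (j < i)).imp ((hc.diff j i).up.dvd hπ ha).not)
      refine ((hc.diff j i).up.rveq hw).not.congr fun z => not_congr ?_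
      obtain ⟨h1, h2⟩ := rv_pl hπ hl hξ0 z.2.toNat
      rw [rv_eq_iff hπ h1, h2]
    have hval : ∀ f ∈ F', Df π (Up B) fun z : X × ℤ => (f.map (pt z.1)).eval
        (if Free π (fun j => c j z.1) i z.2.toNat (l ξ) then c i z.1 + π ^ z.2.toNat * l ξ
          else c i z.1) := by
      intro f hf
      have h1 := df_tay hπ hN (B := Up B) (f := fun z : X × ℤ => f.map (pt z.1))
        (c := fun z => c i z.1) (fun u => (hc.val _ (iter_mem hder hf u) i).up.eq fun z => by
          rw [iterate_derivative_map]) hw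
      have h2 := Df.sum hπ (Finset.range (N + 1)) (B := Up B)
        (g := fun u (z : X × ℤ) => if Free π (fun j => c j z.1) i z.2.toNat (l ξ) then
          tay (f.map (pt z.1)) (c i z.1) (π ^ z.2.toNat * l ξ) u else 0)
        (fun u hu => Df.ite hfr (h1 u hu) (Df.const 0)) (fun z hz => by
          by_cases h3 : Free π (fun j => c j z.1) i z.2.toNat (l ξ)
          · simp only [h3, if_true] at hz
            exact absurd hz (hnc f hf z.1 i _ ξ hξ0 h3)
          · simp only [h3, if_false, Finset.sum_const_zero])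
      refine (Df.ite hfr h2 (hc.val f hf i).up).eq fun z => ?_
      by_cases h3 : Free π (fun j => c j z.1) i z.2.toNat (l ξ)
      · simp only [h3, if_true]
        exact tay_sum (hdeg' f hf z.1) _ _
      · simp only [h3, if_false]
    have h2 : PP (Nat.card (ResidueField O)) (Up B) fun z : X × ℤ => h (z.1,
        if Free π (fun j => c j z.1) i z.2.toNat (l ξ) then c i z.1 + π ^ z.2.toNat * l ξ
          else c i z.1) :=
      hh.comp (fun z : X × ℤ => (z.1, if Free π (fun j => c j z.1) i z.2.toNat (l ξ) then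
          c i z.1 + π ^ z.2.toNat * l ξ else c i z.1))
        (ext_comp _ (fun b hb => (PA.base hb).up) (by
          rintro _ ⟨f, hf, rfl⟩
          exact hval f (hsub hf)))
    have h3 : PA (Up B) fun z : X × ℤ => ((((m z.1 : ℤ) - z.2 - 1).toNat : ℕ) : ℤ) :=
      ((hm.up.sub PA.snd).sub (PA.const 1)).toNat
    refine (hS X _ B _ m hq (hfr.ppite ((PP.pow h3).mul h2) (PP.const 0)) hm).congr fun x => ?_
    refine Finset.sum_congr rfl fun a _ => ?_
    simp only [Int.toNat_natCast]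
    by_cases h4 : Free π (fun j => c j x) i a (l ξ)
    · simp only [h4, if_true, zpow_natCast]
      congr 2
      omega
    · simp only [h4, if_false]

end Pool.Agent.MP_4f1c5b_al.H20
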