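import Pool.Agent.MP_4f1c5b_al.H20.Spec

/-!
Summation over several variables, by induction on their number.
-/

namespace Pool.Agent.MP_4f1c5b_al.H20

open Classical IsLocalRing Polynomial

namespace SumDA

theorem ev_cons {R O : Type} [CommRing R] [CommRing O] {D : ℕ} (p : R →+* O) (y : Fin D → O)
    (t : O) (f : MvPolynomial (Fin (D + 1)) R) :
    MvPolynomial.eval₂ p (Fin.cons t y : Fin (D + 1) → O) f =
      ((MvPolynomial.finSuccEquiv R D f).map (MvPolynomial.eval₂Hom p y)).eval t := by
  induction f using MvPolynomial.induction_on with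
  | C a => simp [MvPolynomial.finSuccEquiv_apply]
  | add f g hf hg => rw [MvPolynomial.eval₂_add, hf, hg, map_add, Polynomial.map_add, eval_add]
  | mul_X f i hf =>
    rw [MvPolynomial.eval₂_mul, hf, map_mul, Polynomial.map_mul, eval_mul]
    congr 1
    refine Fin.cases ?_ (fun j => ?_) i
    · simp [MvPolynomial.finSuccEquiv_X_zero]
    · simp [MvPolynomial.finSuccEquiv_X_succ]

variable {O : Type} [CommRing O] [IsDomain O] [IsDiscreteValuationRing O]

theorem sm_zero (π : O) (m : ℕ) (h : (Fin 0 → O) → ℚ) : sm π m h = h default := by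
  rw [sm, finsum_unique]
  exact congrArg h (Subsingleton.elim _ _)

theorem sm_succ {D : ℕ} (π : O) (m : ℕ) [Finite (Rm π m)] (h : (Fin (D + 1) → O) → ℚ) :
    sm π m h = sm π m fun y : Fin D → O => sm1 π m fun t => h (Fin.cons t y) := by
  have := Fintype.ofFinite (Rm π m)
  simp only [sm, sm1, finsum_eq_sum_of_fintype]
  rw [← (Fin.consEquiv fun _ : Fin (D + 1) => Rm π m).sum_comp, Fintype.sum_prod_type_right]
  refine Finset.sum_congr rfl fun u _ => Finset.sum_congr rfl fun v _ => congrArg h ?_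
  funext i
  refine Fin.cases ?_ (fun j => ?_) i <;> simp [Fin.consEquiv]

theorem ext_comp {X T Y : Type} {B : Set (X → ℤ)} {π : O} {G : Set (X × T → O)}
    {B' : Set (Y → ℤ)} (φ : Y → X × T) (h1 : ∀ b ∈ B, PA B' fun y => b (φ y).1)
    (h2 : ∀ g ∈ G, Df π B' fun y => g (φ y)) : ∀ b ∈ Ext B π G, PA B' fun y => b (φ y) := by
  rintro b (⟨b', hb', rfl⟩ | hb)
  · exact h1 b' hb'
  · exact bas_comp φ h2 b hb

theorem ext_fst {X T : Type} {B : Set (X → ℤ)} {π : O} {G : Set (X × T → O)} :
    ∀ b ∈ B, PA (Ext B π G) fun z => b z.1 := fun b hb => PA.base (Or.inl ⟨b, hb, rfl⟩)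

theorem ext_df {X T : Type} {B : Set (X → ℤ)} {π : O} {G : Set (X × T → O)} {g : X × T → O}
    (hg : g ∈ G) : Df π (Ext B π G) g := Df.of_bas (fun _ hb => PA.base (Or.inr hb)) hg

end SumDA

open SumDA in
theorem rowSumD : GenS → Sum1S → SumDS := by
  intro hG h1 D
  induction D with
  | zero =>
    intro R _ F hF
    refine ⟨MvPolynomial.coeff 0 '' F, 0, hF.image _, ?_⟩
    intro O _ _ _ _ _ π X B pt m h _ _ hg _ hh _
    refine (hh.comp (fun x => (x, default)) (ext_comp _ (fun b hb => PA.base hb) ?_)).congr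
      fun x => (sm_zero π (m x) fun y => h (x, y)).symm
    rintro g ⟨f, hf, rfl⟩
    refine (hg _ ⟨f, hf, rfl⟩).eq fun x => ?_
    conv_rhs => rw [MvPolynomial.eq_C_of_isEmpty f]
    simp
  | succ D ih =>
    intro R _ F hF
    obtain ⟨G1, N1, hG1, H1⟩ := h1 (MvPolynomial (Fin D) R) (MvPolynomial.finSuccEquiv R D '' F)
      (hF.image _)
    obtain ⟨G, N2, hG2, H2⟩ := ih R G1 hG1
    refine ⟨G, max N1 N2, hG2, ?_⟩
    intro O _ _ _ _ _ π X B pt m h hπ hN hg hm hh hper
    have key := H1 O π (X × (Fin D → O))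
      (Ext B π {k | ∃ f ∈ G1, k = fun z : X × (Fin D → O) => MvPolynomial.eval₂ (pt z.1) z.2 f})
      (fun z => MvPolynomial.eval₂Hom (pt z.1) z.2) (fun z => m z.1)
      (fun z => h (z.1.1, Fin.cons z.2 z.1.2)) hπ (hN.mono (le_max_left _ _))
      (fun g hg' => ext_df ⟨g, hg', rfl⟩) (hm.comp Prod.fst ext_fst)
      (hh.comp (fun z : (X × (Fin D → O)) × O => (z.1.1, Fin.cons z.2 z.1.2)) (ext_comp _
        (fun b hb => (ext_fst b hb).comp Prod.fst ext_fst) (by
          rintro g ⟨f, hf, rfl⟩
          refine Df.eq (g := fun z : (X × (Fin D → O)) × O =>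
            ((MvPolynomial.finSuccEquiv R D f).map
              (MvPolynomial.eval₂Hom (pt z.1.1) z.1.2)).eval z.2) (ext_df ?_) fun z => ?_
          · exact ⟨_, ⟨f, hf, rfl⟩, rfl⟩
          · exact (ev_cons _ _ _ _).symm)))
      (fun z t t' ht => hper _ _ _ fun i => by
        refine Fin.cases ?_ (fun j => ?_) i
        · simpa using ht
        · simp)
    have fin := H2 O π X B pt m _ hπ (hN.mono (le_max_right _ _)) hg hm key
      (fun x y y' hy => by
        show sm1 π (m x) _ = sm1 π (m x) _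
        congr 1
        funext t
        refine hper _ _ _ fun i => ?_
        refine Fin.cases ?_ (fun j => ?_) i
        · simp
        · simpa using hy j)
    refine fin.congr fun x => ?_
    have := (hG O π (m x) hπ).1
    exact (sm_succ π (m x) fun y => h (x, y)).symm

end Pool.Agent.MP_4f1c5b_al.H20
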