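import Pool.Agent.MP_4f1c5b_al.H20.Spec

/-!
Sums of Presburger-exponential functions over definable intervals.
-/

namespace Pool.Agent.MP_4f1c5b_al.H20

open Polynomial

namespace SumzA

/-- `f` has a twisted polynomial antidifference. -/
def AD (th : ℚ) (f : ℚ → ℚ) : Prop :=
  ∃ G : ℚ[X], ∀ s, th * G.eval (s + 1) - G.eval s = f s

theorem AD.congr {th : ℚ} {f g : ℚ → ℚ} (h : AD th f) (e : ∀ s, f s = g s) : AD th g := by
  rwa [← funext e]

theorem AD.add {th : ℚ} {f g : ℚ → ℚ} (hf : AD th f) (hg : AD th g) :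
    AD th fun s => f s + g s := by
  obtain ⟨F, hF⟩ := hf
  obtain ⟨G, hG⟩ := hg
  refine ⟨F + G, fun s => ?_⟩
  simp only [eval_add, ← hF s, ← hG s]
  ring

theorem AD.smul {th : ℚ} {f : ℚ → ℚ} (hf : AD th f) (c : ℚ) : AD th fun s => c * f s := by
  obtain ⟨F, hF⟩ := hf
  refine ⟨C c * F, fun s => ?_⟩
  simp only [eval_mul, eval_C, ← hF s]
  ring

theorem AD.sum {th : ℚ} {ι : Type} (t : Finset ι) {f : ι → ℚ → ℚ} (h : ∀ i ∈ t, AD th (f i)) :
    AD th fun s => ∑ i ∈ t, f i s := by
  classical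
  induction t using Finset.induction_on with
  | empty => exact ⟨0, fun s => by simp⟩
  | insert i t hi ih =>
    exact ((h i (Finset.mem_insert_self _ _)).add
      (ih fun j hj => h j (Finset.mem_insert_of_mem hj))).congr fun _ => by
        rw [Finset.sum_insert hi]

theorem ad_basic (th : ℚ) (n : ℕ) : AD th fun s => th * (s + 1) ^ n - s ^ n :=
  ⟨X ^ n, fun s => by simp⟩

theorem ad_pow (th : ℚ) (n : ℕ) : AD th fun s => s ^ n := by
  induction n using Nat.strong_induction_on with
  | _ n ih =>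
    by_cases h : th = 1
    · have h1 : AD th fun s => ∑ j ∈ Finset.range n, (((n + 1).choose j : ℕ) : ℚ) * s ^ j :=
        AD.sum _ fun j hj => (ih j (Finset.mem_range.1 hj)).smul _
      refine (((ad_basic th (n + 1)).add (h1.smul (-1))).smul (1 / ((n : ℚ) + 1))).congr
        fun s => ?_
      have hn : (n : ℚ) + 1 ≠ 0 := by positivity
      rw [h, add_pow, Finset.sum_range_succ, Finset.sum_range_succ]
      simp only [one_pow, mul_one, Nat.choose_self, Nat.cast_one, Nat.choose_succ_self_right,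
        one_mul, mul_comm (s ^ _)]
      field_simp
      push_cast
      ring
    · have h1 : AD th fun s => ∑ j ∈ Finset.range n, ((n.choose j : ℕ) : ℚ) * s ^ j :=
        AD.sum _ fun j hj => (ih j (Finset.mem_range.1 hj)).smul _
      refine (((ad_basic th n).add (h1.smul (-th))).smul (1 / (th - 1))).congr fun s => ?_
      have hn : th - 1 ≠ 0 := sub_ne_zero.2 h
      rw [add_pow, Finset.sum_range_succ]
      simp only [one_pow, mul_one, Nat.choose_self, Nat.cast_one, mul_comm (s ^ _)]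
      field_simp
      ring

theorem ad_poly (th : ℚ) (P : ℚ[X]) : AD th fun s => P.eval s := by
  induction P using Polynomial.induction_on' with
  | add p r hp hr => exact (hp.add hr).congr fun _ => by simp
  | monomial n a => exact ((ad_pow th n).smul a).congr fun _ => by simp

theorem sum_Ico_tele (F : ℤ → ℚ) {a b : ℤ} (h : a ≤ b) :
    ∑ s ∈ Finset.Ico a b, (F (s + 1) - F s) = F b - F a := by
  induction b, h using Int.leInduction with
  | base => simp
  | succ b hb ih =>
    have : Finset.Ico a (b + 1) = insert b (Finset.Ico a b) := by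
      ext s
      simp only [Finset.mem_Ico, Finset.mem_insert]
      omega
    rw [this, Finset.sum_insert (by simp), ih]
    ring

theorem sum_n1 {X : Type} {q : ℚ} {B : Set (X → ℤ)} (hq : q ≠ 0) {f : X → ℤ → ℚ}
    (hf : N1 q B f) : ∀ {α β : X → ℤ}, PA B α → PA B β →
      PP q B fun x => ∑ s ∈ Finset.Ico (α x) (β x), f x s := by
  induction hf with
  | @atom ψ P l hψ =>
    intro α β hα hβ
    obtain ⟨G, hG⟩ := ad_poly (q ^ l) P
    have h1 : PP q B fun x => ψ x * (G.eval (β x : ℚ) * q ^ (l * β x) -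
        G.eval (α x : ℚ) * q ^ (l * α x)) :=
      hψ.mul ((((PP.pa hβ).aeval G).mul (PP.pow (hβ.zmul l))).sub
        (((PP.pa hα).aeval G).mul (PP.pow (hα.zmul l))))
    refine ((DP.le hα hβ).ppite h1 (PP.const 0)).congr fun x => ?_
    by_cases h : α x ≤ β x
    · rw [if_pos h, ← sum_Ico_tele (fun s => G.eval (s : ℚ) * q ^ (l * s)) h, Finset.mul_sum]
      refine Finset.sum_congr rfl fun s _ => ?_
      have e : P.eval (s : ℚ) = _ := (hG s).symm
      show _ = ψ x * P.eval (s : ℚ) * q ^ (l * s)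
      rw [e, mul_add, zpow_add₀ hq, mul_one]
      push_cast
      ring
    · rw [if_neg h, Finset.Ico_eq_empty (by omega), Finset.sum_empty]
  | add _ _ h1 h2 =>
    intro α β hα hβ
    exact ((h1 hα hβ).add (h2 hα hβ)).congr fun x => Finset.sum_add_distrib.symm
  | @its γ f g hγ _ _ h1 h2 =>
    intro α β hα hβ
    refine ((h1 (hα.max hγ) hβ).add (h2 hα (hβ.min hγ))).congr fun x => ?_
    rw [Finset.sum_ite]
    congr 1
    · refine Finset.sum_congr ?_ fun _ _ => rfl
      ext s
      simp only [Finset.mem_Ico, Finset.mem_filter, max_le_iff]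
      omega
    · refine Finset.sum_congr ?_ fun _ _ => rfl
      ext s
      simp only [Finset.mem_Ico, Finset.mem_filter, lt_min_iff]
      omega

theorem lt_ceil {n : ℤ} (hn : 0 < n) (r b s : ℤ) : s < -((r - b) / n) ↔ r + n * s < b := by
  rw [lt_neg, Int.ediv_lt_iff_lt_mul hn]
  constructor <;> intro h <;> linarith

theorem sum_split (F : ℤ → ℚ) {n : ℕ} (hn : 0 < n) (b : ℕ) :
    ∑ r ∈ Finset.range n, ∑ s ∈ Finset.Ico (0 : ℤ) (-(((r : ℤ) - b) / (n : ℤ))),
      F (r + n * s) = ∑ t ∈ Finset.range b, F t := by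
  have hn' : (0 : ℤ) < n := by exact_mod_cast hn
  rw [← Finset.sum_fiberwise_of_maps_to (s := Finset.range b) (t := Finset.range n)
    (g := fun t => t % n) fun t _ => Finset.mem_range.2 (Nat.mod_lt _ hn)]
  refine Finset.sum_congr rfl fun r hr => ?_
  have hr' := Finset.mem_range.1 hr
  refine Finset.sum_nbij' (fun s => r + n * s.toNat) (fun t => ((t / n : ℕ) : ℤ)) ?_ ?_ ?_ ?_ ?_
  · intro s hs
    obtain ⟨h0, h1⟩ := Finset.mem_Ico.1 hs
    rw [lt_ceil hn'] at h1
    obtain ⟨s, rfl⟩ := Int.eq_ofNat_of_zero_le h0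
    simp only [Int.toNat_natCast, Finset.mem_filter, Finset.mem_range]
    refine ⟨by exact_mod_cast h1, ?_⟩
    rw [Nat.add_mul_mod_self_left, Nat.mod_eq_of_lt hr']
  · intro t ht
    obtain ⟨h0, h1⟩ := Finset.mem_filter.1 ht
    refine Finset.mem_Ico.2 ⟨Int.natCast_nonneg _, ?_⟩
    rw [lt_ceil hn']
    have h2 := Nat.mod_add_div t n
    rw [h1] at h2
    have h3 := Finset.mem_range.1 h0
    rw [← h2] at h3
    exact_mod_cast h3
  · intro s hs
    obtain ⟨h0, _⟩ := Finset.mem_Ico.1 hs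
    obtain ⟨s, rfl⟩ := Int.eq_ofNat_of_zero_le h0
    simp only [Int.toNat_natCast]
    rw [Nat.add_mul_div_left _ _ hn, Nat.div_eq_of_lt hr', zero_add]
  · intro t ht
    obtain ⟨_, h1⟩ := Finset.mem_filter.1 ht
    simp only [Int.toNat_natCast]
    rw [← h1]
    exact Nat.mod_add_div t n
  · intro s hs
    obtain ⟨h0, _⟩ := Finset.mem_Ico.1 hs
    obtain ⟨s, rfl⟩ := Int.eq_ofNat_of_zero_le h0
    simp

end SumzA

theorem rowSumz : PnS → SumzS := by
  intro hP X q B Φ β hq hΦ hβ
  obtain ⟨n, hn, h⟩ := hP X q B Φ hq hΦ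
  refine (PP.sum (Finset.range n) fun r _ => SumzA.sum_n1 hq (h (r : ℤ)) (PA.const 0)
    (((PA.const (r : ℤ)).sub hβ).div n).neg).congr fun x => ?_
  exact SumzA.sum_split (fun t => Φ (x, t)) hn (β x)

end Pool.Agent.MP_4f1c5b_al.H20
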