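import Pool.Agent.MP_4f1c5b_al.H20.Spec

/-! The exponential of a Lie algebra of strictly upper triangular matrices. -/

namespace Pool.Agent.MP_4f1c5b_al.H20

open Pool.Agent.MP_4f1c5b_al.H1

namespace ThA

section Abs

variable {A S : Type} [CommRing A] [Ring S] [Algebra A S] {n : ℕ} {J : ℕ → Submodule A S}

theorem lf_mem {p : Submodule A S} (hp : ∀ x ∈ p, ∀ y ∈ p, x * y - y * x ∈ p) {x y : S}
    (hx : x ∈ p) (hy : y ∈ p) {k : ℕ} {a : S} (h : LF A x y k a) : a ∈ p := by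
  induction h with
  | x => exact hx
  | y => exact hy
  | zero => exact p.zero_mem
  | add _ _ a b => exact p.add_mem a b
  | smul c _ a => exact p.smul_mem c a
  | br _ _ a b => exact hp _ a _ b
  | mono _ a => exact a

theorem ad_mem (K : ExKit A S n J) {p : Submodule A S} (hle : p ≤ J 1)
    (hp : ∀ x ∈ p, ∀ y ∈ p, x * y - y * x ∈ p) {x y : S} (hx : x ∈ p) (hy : y ∈ p) :
    ex A n y * x * ex A n (-y) ∈ p := by
  rw [K.ad x y (hle hx) (hle hy)]
  exact p.sum_mem fun k _ => p.smul_mem _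
    (Function.Iterate.rec (fun z => z ∈ p) hx (fun z hz => hp _ hy _ hz) k)

theorem mul_sub (hF : Fil A S n J) {i : ℕ} {a a' b b' : S} (ha : a' ∈ J 1) (hb : b ∈ J 1)
    (h1 : a - a' ∈ J i) (h2 : b - b' ∈ J i) : a * b - a' * b' ∈ J (i + 1) := by
  have e : a * b - a' * b' = (a - a') * b + a' * (b - b') := by noncomm_ring
  rw [e]
  exact (J _).add_mem (hF.mul h1 hb) (add_comm 1 i ▸ hF.mul ha h2)

theorem fil_pi (hF : Fil A S n J) (X : Type) :
    Fil A (X → S) n fun i => Submodule.pi Set.univ fun _ => J i :=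
  ⟨hF.tame, fun hx hy z hz => hF.mul (hx z hz) (hy z hz), fun _ _ h _ hx z hz => hF.anti h (hx z hz),
    fun _ hx => funext fun z => hF.top _ (hx z trivial)⟩

theorem lf_lip (hF : Fil A S n J) {X : Type} {x y : X → S} (hx : ∀ z, x z ∈ J 1)
    (hy : ∀ z, y z ∈ J 1) {i : ℕ} {z z' : X} (h1 : x z - x z' ∈ J i) (h2 : y z - y z' ∈ J i)
    {k : ℕ} {a : X → S} (h : LF A x y k a) : (∀ z, a z ∈ J 1) ∧ a z - a z' ∈ J i := by
  induction h with
  | x => exact ⟨hx, h1⟩
  | y => exact ⟨hy, h2⟩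
  | zero => exact ⟨fun _ => (J 1).zero_mem, by simp⟩
  | add _ _ a b =>
    refine ⟨fun z => (J 1).add_mem (a.1 z) (b.1 z), ?_⟩
    rw [Pi.add_apply, Pi.add_apply, add_sub_add_comm]
    exact (J i).add_mem a.2 b.2
  | smul c _ a =>
    refine ⟨fun z => (J 1).smul_mem c (a.1 z), ?_⟩
    rw [Pi.smul_apply, Pi.smul_apply, ← smul_sub]
    exact (J i).smul_mem c a.2
  | br _ _ a b =>
    refine ⟨fun z => hF.anti one_le_two
      ((J 2).sub_mem (hF.mul (a.1 z) (b.1 z)) (hF.mul (b.1 z) (a.1 z))), ?_⟩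
    simp only [Pi.sub_apply, Pi.mul_apply]
    rw [sub_sub_sub_comm]
    exact hF.anti (Nat.le_succ i) ((J _).sub_mem (mul_sub hF (a.1 _) (b.1 _) a.2 b.2)
      (mul_sub hF (b.1 _) (a.1 _) b.2 a.2))
  | mono _ a => exact a

theorem ad_lip (hF : Fil A S n J) (K : ExKit A S n J) {i : ℕ} {φ φ' x x' : S} (h1 : φ ∈ J 1)
    (h2 : φ' ∈ J 1) (h3 : x ∈ J 1) (h4 : x' ∈ J 1) (h5 : φ - φ' ∈ J i) (h6 : x - x' ∈ J i)
    (h : ex A n φ * x * ex A n (-φ) = ex A n φ' * x' * ex A n (-φ')) : x - x' ∈ J (i + 1) := by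
  have key : ∀ a b : S, a ∈ J 1 → b ∈ J 1 → a - b ∈ J i →
      (ex A n a - 1) - (ex A n b - 1) ∈ J i := fun a b ha hb hab => by
    have := (J i).add_mem (hF.anti (Nat.le_succ i) (K.sub i a b ha hb hab)) hab
    rwa [sub_add_cancel, ← sub_sub_sub_cancel_right _ _ 1] at this
  have u1 := key _ _ h1 h2 h5
  have u2 := key _ _ ((J 1).neg_mem h1) ((J 1).neg_mem h2) (by
    rw [neg_sub_neg, ← neg_sub]
    exact (J i).neg_mem h5)
  have m2 := K.mem _ h2
  have m3 := K.mem _ ((J 1).neg_mem h1)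
  have a1 := mul_sub hF m2 h3 u1 h6
  have a2 := mul_sub hF h4 m3 h6 u2
  have a3 := mul_sub hF (hF.anti one_le_two (hF.mul m2 h4)) m3 (hF.anti (Nat.le_succ i) a1) u2
  have := (J _).neg_mem ((J _).add_mem ((J _).add_mem a1 a2) a3)
  convert this using 1
  rw [← sub_eq_zero] at h ⊢
  rw [← h]
  noncomm_ring

/-- The exponential as a unit. -/
noncomputable def un (K : ExKit A S n J) (x : S) (hx : x ∈ J 1) : Sˣ :=
  ⟨ex A n x, ex A n (-x),
    by rw [← K.add _ _ hx ((J 1).neg_mem hx) (Commute.refl x).neg_right, add_neg_cancel, K.zero],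
    by rw [← K.add _ _ ((J 1).neg_mem hx) hx (Commute.refl x).neg_left, neg_add_cancel, K.zero]⟩

end Abs

end ThA

open ThA in
theorem rowTh : ExS → KvS → ThS := by
  intro hE hK R _ _ n p hT hp
  have hF := fil_mat hT
  have K := hE _ _ _ _ hF
  have hinv : ∀ (g : GL (Fin n) R) (x), x ∈ p → g.1 = ex R n x → (g⁻¹).1 = ex R n (-x) :=
    fun g x hx hg => by
      rw [show g = un K x (hp.le hx) from Units.ext hg]
      rfl
  let P : Subgroup (GL (Fin n) R) :=
    { carrier := {g | ∃ x ∈ p, g.1 = ex R n x}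
      one_mem' := ⟨0, p.zero_mem, K.zero.symm⟩
      mul_mem' := by
        rintro g h ⟨x, hx, hg⟩ ⟨y, hy, hh⟩
        obtain ⟨φ, ψ, h1, h2, h3⟩ := hK _ _ _ _ x y hF (hp.le hx) (hp.le hy)
        exact ⟨_, p.add_mem (ad_mem K hp.le hp.br hx (lf_mem hp.br hx hy h1))
          (ad_mem K hp.le hp.br hy (lf_mem hp.br hx hy h2)), by rw [Units.val_mul, hg, hh, h3]⟩
      inv_mem' := by
        rintro g ⟨x, hx, hg⟩
        exact ⟨-x, p.neg_mem hx, hinv g x hx hg⟩ }
  let e : p ≃ P := Equiv.ofBijective (fun x => ⟨un K x.1 (hp.le x.2), x.1, x.2, rfl⟩)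
    ⟨fun x y h => Subtype.ext (K.inj _ _ (hp.le x.2) (hp.le y.2) (congrArg (fun g : P => g.1.1) h)),
      fun ⟨g, x, hx, hg⟩ => ⟨⟨x, hx⟩, Subtype.ext (Units.ext hg.symm)⟩⟩
  let Ad : P → p →+ p := fun g =>
    { toFun := fun x => ⟨g.1.1 * x.1 * (g⁻¹).1.1, by
        obtain ⟨g, y, hy, hg⟩ := g
        change g.1 * x.1 * (g⁻¹).1 ∈ p
        rw [hinv g y hy hg, hg]
        exact ad_mem K hp.le hp.br x.2 hy⟩
      map_zero' := Subtype.ext (by simp)
      map_add' := fun x y => Subtype.ext (by simp [mul_add, add_mul]) }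
  refine ⟨P, e, Ad, fun _ => rfl, fun _ _ => rfl, fun g x => ?_, fun x => ?_, fun k x => ?_, ?_⟩
  · exact Subtype.ext (Units.ext (K.conj g.1.1 (g.1⁻¹).1 x.1 g.1.mul_inv g.1.inv_mul).symm)
  · exact Subtype.ext (Units.ext rfl)
  · induction k with
    | zero =>
      rw [zero_smul, pow_zero]
      exact Subtype.ext (Units.ext K.zero)
    | succ k ih =>
      rw [succ_nsmul, pow_succ, ← ih]
      exact Subtype.ext (Units.ext (K.add _ _ (hp.le (k • x).2) (hp.le x.2)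
        ((Commute.refl x.1).smul_left k)))
  · obtain ⟨φ, ψ, h1, h2, h3⟩ := hK _ _ _ _ (fun z : p × p => z.1.1) (fun z : p × p => z.2.1)
      (fil_pi hF (p × p)) (fun z _ => hp.le z.1.2) fun z _ => hp.le z.2.2
    have hm : ∀ {a : p × p → Matrix (Fin n) (Fin n) R},
        LF R (fun z : p × p => z.1.1) (fun z : p × p => z.2.1) 1 a → ∀ z, a z ∈ p := fun h z =>
      lf_mem (p := Submodule.pi Set.univ fun _ => p) (fun x hx y hy z hz =>
        hp.br _ (hx z hz) _ (hy z hz)) (fun z _ => z.1.2) (fun z _ => z.2.2) h z trivial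
    let Θ : p × p → p × p := fun z => (Ad (e ⟨φ z, hm h1 z⟩) z.1, Ad (e ⟨ψ z, hm h2 z⟩) z.2)
    have hΘ : Function.Injective Θ := fun z z' h => by
      have a1 := congrArg (fun w : p × p => w.1.1) h
      have a2 := congrArg (fun w : p × p => w.2.1) h
      have key : ∀ i, z.1.1 - z'.1.1 ∈ mt_J R n (i + 1) ∧ z.2.1 - z'.2.1 ∈ mt_J R n (i + 1) := by
        intro i
        induction i with
        | zero => exact ⟨hp.le (p.sub_mem z.1.2 z'.1.2), hp.le (p.sub_mem z.2.2 z'.2.2)⟩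
        | succ i ih =>
          have b1 := lf_lip hF (x := fun z : p × p => z.1.1) (y := fun z : p × p => z.2.1)
            (fun z => hp.le z.1.2) (fun z => hp.le z.2.2) ih.1 ih.2 h1
          have b2 := lf_lip hF (x := fun z : p × p => z.1.1) (y := fun z : p × p => z.2.1)
            (fun z => hp.le z.1.2) (fun z => hp.le z.2.2) ih.1 ih.2 h2
          exact ⟨ad_lip hF K (b1.1 z) (b1.1 z') (hp.le z.1.2) (hp.le z'.1.2) b1.2 ih.1 a1,
            ad_lip hF K (b2.1 z) (b2.1 z') (hp.le z.2.2) (hp.le z'.2.2) b2.2 ih.2 a2⟩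
      exact Prod.ext
        (Subtype.ext (sub_eq_zero.1 (hF.top _ (hF.anti (Nat.le_succ n) (key n).1))))
        (Subtype.ext (sub_eq_zero.1 (hF.top _ (hF.anti (Nat.le_succ n) (key n).2))))
    refine ⟨Equiv.ofBijective Θ (Finite.injective_iff_bijective.1 hΘ), fun z =>
      ⟨⟨_, rfl⟩, ⟨_, rfl⟩, Subtype.ext (Units.ext ?_)⟩⟩
    have ev : ∀ a : p × p → Matrix (Fin n) (Fin n) R, ex R n a z = ex R n (a z) := fun a =>
      map_ex hT (RingHom.id R) (Pi.evalRingHom (fun _ : p × p => Matrix (Fin n) (Fin n) R) z)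
        (fun _ _ => rfl) a
    have h4 := congrFun h3 z
    simp only [Pi.mul_apply, Pi.add_apply, Pi.neg_apply, ev] at h4
    exact h4

end Pool.Agent.MP_4f1c5b_al.H20
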