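import Pool.Agent.MP_4f1c5b_al.H20.Spec
import Pool.Agent.MP_4f1c5b_al.H1.Rep

/-! Row Twa: twists of representations in the orbit method. -/

namespace Pool.Agent.MP_4f1c5b_al.H20

open Classical Pool.Agent.MP_4f1c5b_al.H1

namespace TwaA

variable {Q A : Type} [Group Q] [AddCommGroup A] {e : A ≃ Q} {Ad : Q → A →+ A}

theorem ad_one (h : KD e Ad) (x : A) : Ad 1 x = x := e.injective (by rw [h.conj]; simp)

theorem ad_mul (h : KD e Ad) (g g' : Q) (x : A) : Ad (g * g') x = Ad g (Ad g' x) :=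
  e.injective (by simp only [h.conj]; group)

theorem self_mem (h : KD e Ad) (ω : AddChar A ℂ) : ω ∈ orb Ad ω :=
  ⟨1, fun x => by rw [ad_one h]⟩

theorem orb_eq (h : KD e Ad) {ω ω' : AddChar A ℂ} (h1 : ω' ∈ orb Ad ω) :
    orb Ad ω' = orb Ad ω := by
  obtain ⟨g, hg⟩ := h1
  ext ψ
  constructor
  · rintro ⟨g', hg'⟩
    exact ⟨g * g', fun x => by rw [hg', hg, ad_mul h]⟩
  · rintro ⟨g', hg'⟩
    exact ⟨g⁻¹ * g', fun x => by rw [hg', hg, ← ad_mul h, mul_inv_cancel_left]⟩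

omit [Group Q] in
theorem orb_mul {l : AddChar A ℂ} (hl : ∀ g x, l (Ad g x) = l x) (ω : AddChar A ℂ) :
    orb Ad (l * ω) = (l * ·) '' orb Ad ω := by
  ext ψ
  constructor
  · rintro ⟨g, hg⟩
    refine ⟨ω.compAddMonoidHom (Ad g), ⟨g, fun x => rfl⟩, ?_⟩
    ext x
    simp only [AddChar.mul_apply, AddChar.compAddMonoidHom_apply, hg, hl]
  · rintro ⟨ω', ⟨g, hg⟩, rfl⟩
    exact ⟨g, fun x => by simp only [AddChar.mul_apply, hg, hl]⟩

theorem sum_mul (l : AddChar A ℂ) (S : Set (AddChar A ℂ)) (x : A) :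
    ∑ᶠ ψ ∈ (l * ·) '' S, ψ x = l x * ∑ᶠ ψ ∈ S, ψ x := by
  rw [finsum_mem_image (mul_right_injective l).injOn, mul_finsum_mem]
  rfl

theorem eq_of_sum [Finite A] {S T : Set (AddChar A ℂ)}
    (h : ∀ x, ∑ᶠ ψ ∈ S, ψ x = ∑ᶠ ψ ∈ T, ψ x) : S = T := by
  have h1 := Fintype.linearIndependent_iff.1 (AddChar.linearIndependent A ℂ)
    (fun ψ => S.indicator 1 ψ - T.indicator 1 ψ) (by
      funext x
      have h2 := h x
      rw [finsum_mem_def, finsum_mem_def, finsum_eq_sum_of_fintype, finsum_eq_sum_of_fintype,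
        ← sub_eq_zero, ← Finset.sum_sub_distrib] at h2
      rw [Finset.sum_apply, Pi.zero_apply, ← h2]
      refine Finset.sum_congr rfl fun ψ _ => ?_
      by_cases a : ψ ∈ S <;> by_cases b : ψ ∈ T <;> simp [a, b])
  ext ψ
  have h2 := h1 ψ
  by_cases a : ψ ∈ S <;> by_cases b : ψ ∈ T <;> simp [a, b] at h2 ⊢

theorem cls_orb (h : KD e Ad) {A' : AddSubgroup A} (hd : IsDer Ad A') {ω ω' : AddChar A ℂ}
    (h1 : ω' ∈ cls Ad A' ω) :
    ∃ l : AddChar A ℂ, (∀ g x, l (Ad g x) = l x) ∧ orb Ad ω' = (l * ·) '' orb Ad ω := by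
  obtain ⟨g, hg⟩ := h1
  have h2 : ∀ g' x, (ω' * (ω.compAddMonoidHom (Ad g))⁻¹) (Ad g' x) =
      (ω' * (ω.compAddMonoidHom (Ad g))⁻¹) x := (hd.2 _).2 fun x hx => by
    rw [AddChar.mul_apply, AddChar.inv_apply, hg x hx, AddChar.compAddMonoidHom_apply,
      ← AddChar.map_add_eq_mul, map_neg, add_neg_cancel, AddChar.map_zero_eq_one]
  refine ⟨_, h2, ?_⟩
  rw [← orb_eq h (show ω.compAddMonoidHom (Ad g) ∈ orb Ad ω from ⟨g, fun x => rfl⟩),
    ← orb_mul h2, inv_mul_cancel_right]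

theorem irred_one (σ : Q →* Matrix (Fin 1) (Fin 1) ℂ) : Irred σ := by
  refine ⟨one_ne_zero, fun W _ => ?_⟩
  by_cases hW : W = ⊥
  · exact Or.inl hW
  obtain ⟨w, hw, h0⟩ := Submodule.exists_mem_ne_zero_of_ne_bot hW
  have h1 : w 0 ≠ 0 := fun h => h0 (funext fun i => by rwa [Subsingleton.elim i 0])
  refine Or.inr (eq_top_iff.2 fun v _ => ?_)
  have h2 : v = (v 0 / w 0) • w := funext fun i => by
    rw [Subsingleton.elim i 0, Pi.smul_apply, smul_eq_mul, div_mul_cancel₀ _ h1]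
  rw [h2]
  exact W.smul_mem _ hw

theorem eq_one_of_trace {d N : ℕ} {M : Matrix (Fin d) (Fin d) ℂ} (hN : 0 < N) (hM : M ^ N = 1)
    (ht : ∀ k : ℕ, (M ^ k).trace = d) : M = 1 := by
  have hN' : (N : ℂ) ≠ 0 := Nat.cast_ne_zero.2 hN.ne'
  set E : Matrix (Fin d) (Fin d) ℂ := (N : ℂ)⁻¹ • ∑ k ∈ Finset.range N, M ^ k with hE
  have h1 : M * E = E := by
    have := mul_geom_sum M N
    rw [hM, sub_self, sub_mul, one_mul, sub_eq_zero] at this
    rw [hE, mul_smul_comm, this]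
  have h2 : ∀ k : ℕ, M ^ k * E = E := fun k => by
    induction k with
    | zero => simp
    | succ k ih => rw [pow_succ, mul_assoc, h1, ih]
  have h3 : IsIdempotentElem E := by
    have : E * E = (N : ℂ)⁻¹ • ∑ k ∈ Finset.range N, M ^ k * E := by
      rw [← Finset.sum_mul, ← smul_mul_assoc]
    rw [IsIdempotentElem, this]
    simp only [h2, Finset.sum_const, Finset.card_range]
    rw [← Nat.cast_smul_eq_nsmul ℂ, smul_smul, inv_mul_cancel₀ hN', one_smul]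
  have h4 : (1 - E).trace = 0 := by
    rw [Matrix.trace_sub, hE, Matrix.trace_smul, Matrix.trace_sum]
    simp only [ht, Finset.sum_const, Finset.card_range, Matrix.trace_one, Fintype.card_fin,
      smul_eq_mul, nsmul_eq_mul]
    rw [inv_mul_cancel_left₀ hN', sub_self]
  have h5 : IsIdempotentElem (Matrix.toLin' (1 - E)) :=
    h3.one_sub.map (Matrix.toLinAlgEquiv' (R := ℂ) (n := Fin d))
  have h6 := LinearMap.IsIdempotentElem.eq_zero_of_trace_eq_zero h5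
    (by rw [Matrix.trace_toLin'_eq, h4])
  have h7 : E = 1 := (sub_eq_zero.1 (Matrix.toLin'.injective (by rw [h6, map_zero]))).symm
  rw [h7, mul_one] at h1
  exact h1

end TwaA

open TwaA

theorem rowTwa : FkS → TwaS := by
  intro hF Q A _ _ _ _ e Ad A' h hd
  obtain ⟨F1, F2⟩ := hF Q A e Ad h
  refine ⟨fun d σ σ' ω ω' hσ hσ' hc hc' => ⟨?_, fun h1 => ?_⟩, fun ω ω' h1 => ?_,
    fun ω => ⟨1, fun x _ => by rw [ad_one h]⟩, ?_, ?_⟩
  · rintro ⟨χ, P, hP⟩
    obtain ⟨l, hl1, hl2⟩ := F1 1 (rp_tw χ 1) (irred_one _)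
    obtain ⟨a, ha⟩ := Set.ncard_eq_one.1 hl1
    have hal : l = a := by simpa [ha] using self_mem h l
    have h1 : ∀ x, (χ (e x) : ℂ) = l x := fun x => by
      have := hl2 x
      rw [ha, finsum_mem_singleton, rp_tw_trace, ← hal] at this
      simpa using this
    have h2 : ∀ g x, l (Ad g x) = l x := fun g x => by
      rw [← h1, ← h1, h.conj, map_mul, map_mul, map_inv, mul_inv_cancel_comm]
    have h3 : orb Ad ω' = (l * ·) '' orb Ad ω := eq_of_sum fun x => by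
      rw [sum_mul, ← hc.2, ← hc'.2, hP, Matrix.trace_smul, Matrix.trace_mul_comm, ← mul_assoc,
        Units.inv_mul, one_mul, h1, smul_eq_mul]
      ring
    obtain ⟨ψ, ⟨g, hg⟩, hψ⟩ := h3 ▸ self_mem h ω'
    exact ⟨g, fun x hx => by rw [← hψ, AddChar.mul_apply, (hd.2 l).1 h2 x hx, one_mul, hg]⟩
  · obtain ⟨l, hl, h2⟩ := cls_orb h hd h1
    obtain ⟨d0, σ0, -, h3, h4⟩ := F2 l
    have h5 : orb Ad l = {l} := by
      ext ψ
      exact ⟨fun ⟨g, hg⟩ => AddChar.ext _ _ fun x => by rw [hg, hl],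
        fun hψ => hψ ▸ self_mem h l⟩
    rw [h5, Set.ncard_singleton] at h3
    obtain rfl : d0 = 1 := (Nat.pow_eq_one.1 h3.symm).resolve_right two_ne_zero
    let χ : Q →* ℂˣ := (Matrix.detMonoidHom.comp σ0).toHomUnits
    have h6 : ∀ x, (χ (e x) : ℂ) = l x := fun x => by
      have := h4 x
      rw [h5, finsum_mem_singleton] at this
      simpa [χ, Matrix.det_fin_one, Matrix.trace_fin_one] using this
    obtain ⟨P, hP⟩ := conj_of_trace (rp_tw_irr χ hσ) hσ' fun g => by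
      obtain ⟨x, rfl⟩ := e.surjective g
      refine mul_left_cancel₀ (Nat.cast_ne_zero.2 hσ.1 : (d : ℂ) ≠ 0) ?_
      rw [hc'.2, h2, sum_mul, ← hc.2, rp_tw_trace, h6]
      ring
    refine ⟨χ, P, fun g => ?_⟩
    rw [hP]
    change P.1 * ((χ g : ℂ) • σ g) * _ = _
    rw [mul_smul_comm, smul_mul_assoc]
  · obtain ⟨l, -, h2⟩ := cls_orb h hd h1
    rw [h2, Set.ncard_image_of_injective _ (mul_right_injective l)]
  · rintro ω ω' ⟨g, hg⟩
    ext ψ
    constructor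
    · rintro ⟨g', hg'⟩
      exact ⟨g * g', fun x hx => by rw [hg' x hx, hg _ (hd.1 g' x hx), ad_mul h]⟩
    · rintro ⟨g', hg'⟩
      exact ⟨g⁻¹ * g', fun x hx => by
        rw [hg' x hx, hg _ (hd.1 _ x hx), ← ad_mul h, mul_inv_cancel_left]⟩
  · intro d σ ω A0 hc h0 h1 x hx
    rcases Nat.eq_zero_or_pos d with rfl | hd0
    · exact Subsingleton.elim _ _
    have h2 : ∀ y ∈ A0, (σ (e y)).trace = d := fun y hy => by
      refine mul_left_cancel₀ (Nat.cast_ne_zero.2 hd0.ne' : (d : ℂ) ≠ 0) ?_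
      have h3 : ∀ ψ ∈ orb Ad ω, ψ y = 1 := fun ψ ⟨g, hg⟩ => by rw [hg, h1 _ (h0 g y hy)]
      rw [hc.2, finsum_mem_congr rfl h3, finsum_mem_eq_finite_toFinset_sum _ (Set.toFinite _),
        Finset.sum_const, ← Set.ncard_eq_toFinset_card, hc.1]
      simp [sq]
    refine eq_one_of_trace (orderOf_pos (e x)) (by rw [← map_pow, pow_orderOf_eq_one, map_one])
      fun k => ?_
    rw [← map_pow, ← h.nsmul]
    exact h2 _ (A0.nsmul_mem hx k)

end Pool.Agent.MP_4f1c5b_al.H20
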