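import Pool.Agent.MP_4f1c5b_al.H20.Spec

/-!
The number of twist classes as a sum over characters.
-/

namespace Pool.Agent.MP_4f1c5b_al.H20

open Classical Pool.Agent.MP_4f1c5b_al.H1

theorem rowTwb : FkS → TwaS → TwbS := by
  intro hF hT Q A _ _ _ _ _ _ e Ad A' hK hD d
  obtain ⟨f1, f2⟩ := hF Q A e Ad hK
  obtain ⟨t1, t2, t3, t4, -⟩ := hT Q A e Ad A' hK hD
  have := Fintype.ofFinite (AddChar A ℂ)
  choose w hw using fun a : Irr Q d => f1 d a.1 a.2.2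
  have t5 : ∀ ω ω', cls Ad A' ω' = cls Ad A' ω ↔ ω' ∈ cls Ad A' ω := fun ω ω' =>
    ⟨fun h => h ▸ t3 ω', t4 ω ω'⟩
  have tw : ∀ (a b : Irr Q d) ω, Chr e Ad a.1 ω →
      (Twist a b ↔ cls Ad A' (w b) = cls Ad A' ω) := fun a b ω h => by
    rw [t5, ← t1 d a.1 b.1 _ _ a.2.2 b.2.2 h (hw b)]
    exact ⟨fun ⟨χ, P, _, h⟩ => ⟨χ, P, h⟩,
      fun ⟨χ, P, h⟩ => ⟨χ, P, continuous_of_discreteTopology, h⟩⟩
  let S := Finset.univ.filter fun ω : AddChar A ℂ => (orb Ad ω).ncard = d ^ 2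
  let T := S.image (cls Ad A')
  let φ : Quot (Twist (Γ := Q) (d := d)) → T := Quot.lift
    (fun a => ⟨cls Ad A' (w a), Finset.mem_image_of_mem _
      (Finset.mem_filter.2 ⟨Finset.mem_univ _, (hw a).1⟩)⟩)
    fun a b h => Subtype.ext ((tw a b _ (hw a)).1 h).symm
  have hφ : Function.Bijective φ := by
    constructor
    · rintro ⟨a⟩ ⟨b⟩ h
      exact Quot.sound ((tw a b _ (hw a)).2 (congrArg Subtype.val h).symm)
    · rintro ⟨C, hC⟩
      obtain ⟨ω, h1, rfl⟩ := Finset.mem_image.1 hC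
      obtain ⟨d', σ, h2, h3⟩ := f2 ω
      obtain rfl : d' = d :=
        Nat.pow_left_injective two_ne_zero (h3.1.symm.trans (Finset.mem_filter.1 h1).2)
      let a : Irr Q d' := ⟨σ, continuous_of_discreteTopology, h2⟩
      exact ⟨Quot.mk _ a, Subtype.ext ((tw a a ω h3).1
        ((tw a a _ (hw a)).2 rfl))⟩
  rw [rt, Nat.card_eq_of_bijective φ hφ, Nat.card_eq_fintype_card, Fintype.card_coe,
    finsum_eq_sum_of_fintype, ← Finset.sum_filter,
    ← Finset.sum_fiberwise_of_maps_to (s := S) (t := T) (g := cls Ad A')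
      fun ω h => Finset.mem_image_of_mem _ h, Finset.card_eq_sum_ones, Nat.cast_sum]
  refine Finset.sum_congr rfl fun C hC => ?_
  obtain ⟨ω, h1, rfl⟩ := Finset.mem_image.1 hC
  have h2 : ((S.filter fun x => cls Ad A' x = cls Ad A' ω : Finset _) : Set (AddChar A ℂ)) =
      cls Ad A' ω := by
    ext x
    rw [Finset.coe_filter, Set.mem_ofPred_eq, t5]
    exact ⟨fun h => h.2, fun h => ⟨Finset.mem_filter.2 ⟨Finset.mem_univ _,
      (t2 _ _ h).trans (Finset.mem_filter.1 h1).2⟩, h⟩⟩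
  have h3 : ((cls Ad A' ω).ncard : ℚ) ≠ 0 :=
    Nat.cast_ne_zero.2 ((Set.ncard_pos (Set.toFinite _)).2 ⟨ω, t3 ω⟩).ne'
  rw [Finset.sum_congr rfl fun x hx => by rw [(Finset.mem_filter.1 hx).2], Finset.sum_const,
    ← Set.ncard_coe_finset, h2, nsmul_eq_mul, mul_one_div_cancel h3, Nat.cast_one]

end Pool.Agent.MP_4f1c5b_al.H20
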