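import Pool.Agent.MP_4f1c5b_al.G.Fin
import Pool.Agent.MP_4f1c5b_al.G.Pw
import Pool.Agent.MP_4f1c5b_al.G.Pn
import Pool.Agent.MP_4f1c5b_al.G.Sumz
import Pool.Agent.MP_4f1c5b_al.G.Rec
import Pool.Agent.MP_4f1c5b_al.G.Loc
import Pool.Agent.MP_4f1c5b_al.G.Step
import Pool.Agent.MP_4f1c5b_al.G.Diag
import Pool.Agent.MP_4f1c5b_al.G.Part
import Pool.Agent.MP_4f1c5b_al.G.Sum1
import Pool.Agent.MP_4f1c5b_al.G.SumD
import Pool.Agent.MP_4f1c5b_al.G.Ex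
import Pool.Agent.MP_4f1c5b_al.G.Dexp
import Pool.Agent.MP_4f1c5b_al.G.Bch
import Pool.Agent.MP_4f1c5b_al.G.Kv
import Pool.Agent.MP_4f1c5b_al.G.Th
import Pool.Agent.MP_4f1c5b_al.G.Fk
import Pool.Agent.MP_4f1c5b_al.G.Twa
import Pool.Agent.MP_4f1c5b_al.G.Twb
import Pool.Agent.MP_4f1c5b_al.G.Orb
import Pool.Agent.MP_4f1c5b_al.G.Coo
import Pool.Agent.MP_4f1c5b_al.G.Gen
import Pool.Agent.MP_4f1c5b_al.G.Lat1
import Pool.Agent.MP_4f1c5b_al.G.Lat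
import Pool.Agent.MP_4f1c5b_al.G.Lev
import Pool.Agent.MP_4f1c5b_al.G.Mod
import Pool.Agent.MP_4f1c5b_al.G.Bd1
import Pool.Agent.MP_4f1c5b_al.G.Bd
import Pool.Agent.MP_4f1c5b_al.G.Kir
import Pool.Agent.MP_4f1c5b_al.G.Im
import Pool.Agent.MP_4f1c5b_al.G.Pp
import Pool.Agent.MP_4f1c5b_al.G.Key1
import Pool.Agent.MP_4f1c5b_al.G.Key2

/-!
The vanishing at zero for presentations with arbitrary rational functions.
-/

namespace Pool.Agent.MP_4f1c5b_al.H20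

open Polynomial AlgebraicGeometry CategoryTheory Pool.Agent.MP_4f1c5b_al.H1

theorem poleS : PoleS := by
  have gen := rowGen.1
  have pn := rowPn rowPw
  have bch := rowBch rowEx rowDexp
  have twa := rowTwa rowFk
  have orb := rowOrb rowEx
  have md := rowMod rowEx (rowTh rowEx (rowKv rowEx bch)) gen
  exact pole_of (rowLat rowEx (rowLat1 rowEx bch))
    (rowKir rowLev.1 rowLev.2 md gen (rowBd rowEx rowLev.1 md gen rowFk twa orb (rowBd1 gen))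
      (rowTwb rowFk twa) orb rowCoo)
    (rowPp (rowSumD gen (rowSum1 (rowDiag (rowStep rowLoc)) rowLoc (rowPart gen) (rowSumz pn)))
      (rowIm gen) gen) (rowRec pn)

theorem main20 {k : Type} [Field k] [NumberField k] {n : ℕ}
    {S : Set (MvPolynomial (Fin n × Fin n) (NumberField.RingOfIntegers k))} (hS : IsGroup S)
    (hna : ∃ g ∈ grp S k, ∃ h ∈ grp S k, g * h ≠ h * g) {r : ℕ}
    {V : Fin r → Over (Spec (CommRingCat.of (NumberField.RingOfIntegers k)))}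
    {A B : Fin r → ℚ[X][X]} {ρ : Fin r → RatFunc ℚ} (h : Pres S V A B ρ) :
    ∃ (A' B' : Fin r → ℚ[X][X]) (ρ' : Fin r → RatFunc ℚ), Pres S V A' B' ρ' ∧
      (∀ i, VanishAtZero (ρ' i)) ∧ ∀ c : Fin r → ℤ,
        (∀ α ∈ Rel V, ∑ i, (α i).eval 1 * (c i : ℚ) = 0) → ∑ i, c i • ρ' i = ∑ i, c i • ρ i :=
  main_of poleS rowKey1 rowKey2 rowGen.2 hS hna h

end Pool.Agent.MP_4f1c5b_al.H20
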